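import Pool.Graph.R_seed8.H884R3.MsConj

set_option autoImplicit false

/-!
The map `E(z) = z^k ((m-k) z^m + (m+k)) / ((m+k) z^m + (m-k))` in homogeneous form, its twisted
dihedral symmetry and its iterates in the coordinate `z = (x - y) / (x + y)`.
-/

open Polynomial

namespace Pool.Agent.H64.MS

noncomputable section

/-- homogeneous form of `E` -/
def e {R : Type*} [CommRing R] (k m : ℕ) (p : R × R) : R × R :=
  (p.1 ^ k * (((m : R) - k) * p.1 ^ m + ((m : R) + k) * p.2 ^ m),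
    p.2 ^ k * (((m : R) + k) * p.1 ^ m + ((m : R) - k) * p.2 ^ m))

lemma e_map {R S : Type*} [CommRing R] [CommRing S] (φ : R →+* S) (k m : ℕ) (p : R × R) :
    e k m (φ p.1, φ p.2) = (φ (e k m p).1, φ (e k m p).2) := by
  unfold e; simp

lemma e_iter_map {R S : Type*} [CommRing R] [CommRing S] (φ : R →+* S) (k m n : ℕ) (p : R × R) :
    (e k m)^[n] (φ p.1, φ p.2) = (φ ((e k m)^[n] p).1, φ ((e k m)^[n] p).2) := by
  induction n with
  | zero => rfl
  | succ n ih => rw [Function.iterate_succ_apply', ih, e_map, Function.iterate_succ_apply']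

lemma e_iter_swap {R : Type*} [CommRing R] (k m n : ℕ) (x y : R) :
    (e k m)^[n] (y, x) = (((e k m)^[n] (x, y)).2, ((e k m)^[n] (x, y)).1) := by
  induction n with
  | zero => rfl
  | succ n ih =>
    rw [Function.iterate_succ_apply', ih, Function.iterate_succ_apply']
    unfold e
    apply Prod.ext <;> (simp only; ring)

lemma e_iter_smul {R : Type*} [CommRing R] (k m n : ℕ) (a x y : R) :
    (e k m)^[n] (a * x, a * y) = (a ^ (k + m) ^ n * ((e k m)^[n] (x, y)).1,
      a ^ (k + m) ^ n * ((e k m)^[n] (x, y)).2) := by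
  induction n with
  | zero => simp
  | succ n ih =>
    rw [Function.iterate_succ_apply', ih, Function.iterate_succ_apply', pow_succ (k + m) n,
      pow_mul a]
    unfold e
    apply Prod.ext
    · simp only [mul_pow, pow_add]; ring
    · simp only [mul_pow, pow_add]; ring

lemma e_iter_rot {R : Type*} [CommRing R] (k m n : ℕ) (ζ : R) (hζ : ζ ^ m = 1) (x y : R) :
    (e k m)^[n] (ζ * x, y) = (ζ ^ k ^ n * ((e k m)^[n] (x, y)).1, ((e k m)^[n] (x, y)).2) := by
  induction n with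
  | zero => simp
  | succ n ih =>
    rw [Function.iterate_succ_apply', ih, Function.iterate_succ_apply', pow_succ k n, pow_mul ζ]
    have h1 : (ζ ^ k ^ n) ^ m = 1 := by rw [← pow_mul, mul_comm, pow_mul, hζ, one_pow]
    unfold e
    apply Prod.ext
    · simp only [mul_pow, h1]; ring
    · simp only [mul_pow, h1]; ring

lemma e_iter_neg {R : Type*} [CommRing R] (k m n : ℕ) (hk : Odd k) (hm : Even m) (x y : R) :
    (e k m)^[n] (x, -y) = (((e k m)^[n] (x, y)).1, -((e k m)^[n] (x, y)).2) := by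
  induction n with
  | zero => rfl
  | succ n ih =>
    rw [Function.iterate_succ_apply', ih, Function.iterate_succ_apply']
    unfold e
    apply Prod.ext
    · simp only [hm.neg_pow]
    · simp only [hm.neg_pow, hk.neg_pow]; ring

section

variable (k m : ℕ)

def Xn (n : ℕ) : ℂ[X] := ((e k m)^[n] ((1 : ℂ[X]) + X, (1 : ℂ[X]) - X)).1
def Yn (n : ℕ) : ℂ[X] := ((e k m)^[n] ((1 : ℂ[X]) + X, (1 : ℂ[X]) - X)).2
/-- numerator of the `n`-th iterate in the new coordinate -/
def Pn (n : ℕ) : ℂ[X] := Xn k m n - Yn k m n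
/-- denominator of the `n`-th iterate in the new coordinate -/
def Qn (n : ℕ) : ℂ[X] := Xn k m n + Yn k m n

lemma Xn_zero : Xn k m 0 = 1 + X := rfl
lemma Yn_zero : Yn k m 0 = 1 - X := rfl

lemma Xn_succ (n : ℕ) : Xn k m (n + 1) =
    Xn k m n ^ k * (((m : ℂ[X]) - k) * Xn k m n ^ m + ((m : ℂ[X]) + k) * Yn k m n ^ m) := by
  unfold Xn Yn; rw [Function.iterate_succ_apply']; rfl

lemma Yn_succ (n : ℕ) : Yn k m (n + 1) =
    Yn k m n ^ k * (((m : ℂ[X]) + k) * Xn k m n ^ m + ((m : ℂ[X]) - k) * Yn k m n ^ m) := by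
  unfold Xn Yn; rw [Function.iterate_succ_apply']; rfl

lemma XY_eval (n : ℕ) (z : ℂ) :
    (e k m)^[n] (1 + z, 1 - z) = ((Xn k m n).eval z, (Yn k m n).eval z) := by
  have h := e_iter_map (evalRingHom z) k m n ((1 : ℂ[X]) + X, (1 : ℂ[X]) - X)
  simp only [coe_evalRingHom, eval_X, eval_one, eval_add, eval_sub] at h
  exact h

lemma XY_homog (n : ℕ) (v u : ℂ) (hu : u ≠ 0) :
    (e k m)^[n] (u + v, u - v) = (u ^ (k + m) ^ n * (Xn k m n).eval (v / u),
      u ^ (k + m) ^ n * (Yn k m n).eval (v / u)) := by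
  have h := e_iter_smul k m n u (1 + v / u) (1 - v / u)
  rw [XY_eval] at h
  have e1 : u * (1 + v / u) = u + v := by field_simp
  have e2 : u * (1 - v / u) = u - v := by field_simp
  rw [e1, e2] at h
  exact h

lemma XY_neg (n : ℕ) (z : ℂ) : (Xn k m n).eval (-z) = (Yn k m n).eval z := by
  have h1 := XY_eval k m n (-z)
  have h2 := e_iter_swap k m n (1 + z) (1 - z)
  rw [XY_eval] at h2
  have e1 : (1 : ℂ) + -z = 1 - z := by ring
  have e2 : (1 : ℂ) - -z = 1 + z := by ring
  rw [e1, e2, h2] at h1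
  exact (congrArg Prod.fst h1).symm

lemma P_neg (n : ℕ) (z : ℂ) : (Pn k m n).eval (-z) = -(Pn k m n).eval z := by
  have h1 := XY_neg k m n z
  have h2 := XY_neg k m n (-z)
  rw [neg_neg] at h2
  unfold Pn
  rw [eval_sub, eval_sub, h1, ← h2]; ring

lemma Q_neg (n : ℕ) (z : ℂ) : (Qn k m n).eval (-z) = (Qn k m n).eval z := by
  have h1 := XY_neg k m n z
  have h2 := XY_neg k m n (-z)
  rw [neg_neg] at h2
  unfold Qn
  rw [eval_add, eval_add, h1, ← h2]; ring

/-- the symmetry `z ↦ 1 / z` -/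
lemma PQ_inv (hk : Odd k) (hm : Even m) (n : ℕ) (z : ℂ) (hz : z ≠ 0) :
    (Qn k m n).eval z = z ^ (k + m) ^ n * (Pn k m n).eval z⁻¹ ∧
      (Pn k m n).eval z = z ^ (k + m) ^ n * (Qn k m n).eval z⁻¹ := by
  have h1 := XY_homog k m n 1 z hz
  have h2 := e_iter_neg k m n hk hm (1 + z) (1 - z)
  have e1 : -(1 - z) = z - 1 := by ring
  rw [e1, XY_eval, add_comm (1 : ℂ) z] at h2
  rw [h2, one_div] at h1
  have h3 := congrArg Prod.fst h1
  have h4 := congrArg Prod.snd h1
  simp only at h3 h4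
  unfold Qn Pn
  rw [eval_add, eval_sub, eval_add, eval_sub]
  constructor
  · linear_combination h3 - h4
  · linear_combination h3 + h4

/-- values at `1 : 1` -/
lemma e_one (hm0 : 0 < m) (n : ℕ) : ∃ c : ℂ, c ≠ 0 ∧ (e k m)^[n] ((1 : ℂ), (1 : ℂ)) = (c, c) := by
  induction n with
  | zero => exact ⟨1, one_ne_zero, rfl⟩
  | succ n ih =>
    obtain ⟨c, hc, h⟩ := ih
    refine ⟨c ^ k * (2 * m * c ^ m), ?_, ?_⟩
    · refine mul_ne_zero (pow_ne_zero _ hc) (mul_ne_zero (mul_ne_zero two_ne_zero ?_)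
        (pow_ne_zero _ hc))
      exact_mod_cast hm0.ne'
    · rw [Function.iterate_succ_apply', h]
      unfold e
      apply Prod.ext <;> (simp only; ring)

lemma PQ_at_zero (hm0 : 0 < m) (n : ℕ) : (Pn k m n).eval 0 = 0 ∧ (Qn k m n).eval 0 ≠ 0 := by
  obtain ⟨c, hc, h⟩ := e_one k m hm0 n
  have h1 := XY_eval k m n 0
  rw [add_zero, sub_zero, h] at h1
  have h2 := congrArg Prod.fst h1
  have h3 := congrArg Prod.snd h1
  simp only at h2 h3
  unfold Pn Qn
  rw [eval_sub, eval_add, ← h2, ← h3]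
  refine ⟨by ring, ?_⟩
  rw [← two_mul]
  exact mul_ne_zero two_ne_zero hc

/-- nonvanishing -/
lemma e_ne_zero (hk : 0 < k) (hm0 : 0 < m) (hkm : k ≠ m) (p : ℂ × ℂ) (h : e k m p = (0, 0)) :
    p = (0, 0) := by
  obtain ⟨x, y⟩ := p
  have h1 := congrArg Prod.fst h
  have h2 := congrArg Prod.snd h
  unfold e at h1 h2
  simp only at h1 h2
  have hα : ((m : ℂ) - k) ≠ 0 := by
    rw [sub_ne_zero]; exact_mod_cast hkm.symm
  have hx : x = 0 → y = 0 := by
    intro hx
    rw [hx, zero_pow hm0.ne', mul_zero, zero_add] at h2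
    rcases mul_eq_zero.1 h2 with h | h
    · exact pow_eq_zero_iff hk.ne' |>.1 h
    · rcases mul_eq_zero.1 h with h | h
      · exact absurd h hα
      · exact pow_eq_zero_iff hm0.ne' |>.1 h
  have hy : y = 0 → x = 0 := by
    intro hy
    rw [hy, zero_pow hm0.ne', mul_zero, add_zero] at h1
    rcases mul_eq_zero.1 h1 with h | h
    · exact pow_eq_zero_iff hk.ne' |>.1 h
    · rcases mul_eq_zero.1 h with h | h
      · exact absurd h hα
      · exact pow_eq_zero_iff hm0.ne' |>.1 h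
  by_cases hx0 : x = 0
  · rw [hx0, hx hx0]
  · have hy0 : y ≠ 0 := fun h => hx0 (hy h)
    exfalso
    rcases mul_eq_zero.1 h1 with h | h1'
    · exact hx0 (pow_eq_zero_iff hk.ne' |>.1 h)
    rcases mul_eq_zero.1 h2 with h | h2'
    · exact hy0 (pow_eq_zero_iff hk.ne' |>.1 h)
    have h3 : (4 * (m : ℂ) * k) * x ^ m = 0 := by
      linear_combination ((m : ℂ) + k) * h2' - ((m : ℂ) - k) * h1'
    rcases mul_eq_zero.1 h3 with h | h
    · rcases mul_eq_zero.1 h with h | h
      · rcases mul_eq_zero.1 h with h | h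
        · norm_num at h
        · exact hm0.ne' (by exact_mod_cast h)
      · exact hk.ne' (by exact_mod_cast h)
    · exact hx0 (pow_eq_zero_iff hm0.ne' |>.1 h)

lemma e_iter_ne (hk : 0 < k) (hm0 : 0 < m) (hkm : k ≠ m) (n : ℕ) (p : ℂ × ℂ)
    (h : (e k m)^[n] p = (0, 0)) : p = (0, 0) := by
  induction n with
  | zero => exact h
  | succ n ih =>
    rw [Function.iterate_succ_apply'] at h
    exact ih (e_ne_zero k m hk hm0 hkm _ h)

lemma PQ_coprime_eval (hk : 0 < k) (hm0 : 0 < m) (hkm : k ≠ m) (n : ℕ) (z : ℂ) :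
    (Pn k m n).eval z ≠ 0 ∨ (Qn k m n).eval z ≠ 0 := by
  by_contra hcon
  push Not at hcon
  obtain ⟨h1, h2⟩ := hcon
  unfold Pn at h1
  unfold Qn at h2
  rw [eval_sub] at h1
  rw [eval_add] at h2
  have hX : (Xn k m n).eval z = 0 := by linear_combination (h1 + h2) / 2
  have hY : (Yn k m n).eval z = 0 := by linear_combination (h2 - h1) / 2
  have h3 := XY_eval k m n z
  rw [hX, hY] at h3
  have h4 := e_iter_ne k m hk hm0 hkm n _ h3
  have h5 := congrArg Prod.fst h4
  have h6 := congrArg Prod.snd h4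
  simp only at h5 h6
  have : (2 : ℂ) = 0 := by linear_combination h5 + h6
  norm_num at this

/-- Wronskian of `Xn`, `Yn` -/
lemma wr_succ (hk : 0 < k) (hm0 : 0 < m) (n : ℕ) :
    derivative (Xn k m (n + 1)) * Yn k m (n + 1) - Xn k m (n + 1) * derivative (Yn k m (n + 1)) =
      ((k : ℂ[X]) * ((m : ℂ[X]) - k) * ((m : ℂ[X]) + k)) * (Xn k m n ^ (k - 1) * Yn k m n ^ (k - 1)) *
        (Xn k m n ^ m - Yn k m n ^ m) ^ 2 *
        (derivative (Xn k m n) * Yn k m n - Xn k m n * derivative (Yn k m n)) := by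
  obtain ⟨k', rfl⟩ := Nat.exists_eq_succ_of_ne_zero hk.ne'
  obtain ⟨m', rfl⟩ := Nat.exists_eq_succ_of_ne_zero hm0.ne'
  rw [Xn_succ, Yn_succ]
  simp only [derivative_mul, derivative_pow, derivative_sub, derivative_add, derivative_natCast,
    zero_mul, zero_add, sub_zero, add_zero, Nat.succ_eq_add_one, Nat.add_sub_cancel]
  simp only [map_natCast]
  push_cast
  ring

end

end

end Pool.Agent.H64.MS
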