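import Pool.Agent.H64.MS.D1

set_option autoImplicit false

open Polynomial

namespace Pool.Agent.H64.MS

noncomputable section

/-- degree facts from the symmetry `z ↦ 1 / z` -/
lemma deg_of_inv (P Q : ℂ[X]) (D : ℕ) (hP : P.natDegree ≤ D) (hQ : Q.natDegree ≤ D)
    (hinv : ∀ z : ℂ, z ≠ 0 → P.eval z = z ^ D * Q.eval z⁻¹)
    (hQ0 : Q.eval 0 ≠ 0) (hP0 : P.eval 0 = 0) (hP1 : (derivative P).eval 0 = 0) :
    P.natDegree = D ∧ Q.natDegree + 2 ≤ D := by
  have hrefl : P = reflect D Q := by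
    apply eq_of_infinite_eval_eq
    apply Set.Infinite.mono (s := ({0} : Set ℂ)ᶜ)
    · intro z hz
      have hz' : z ≠ 0 := hz
      rw [Set.mem_ofPred_eq, hinv z hz']
      let _ : Invertible (z⁻¹ : ℂ) := invertibleOfNonzero (inv_ne_zero hz')
      have h := eval₂_reflect_mul_pow (RingHom.id ℂ) (z⁻¹ : ℂ) D Q hQ
      have h2 : ⅟(z⁻¹ : ℂ) = z := by rw [invOf_eq_inv, inv_inv]
      rw [h2] at h
      have h3 : eval z (reflect D Q) * z⁻¹ ^ D = eval z⁻¹ Q := h
      rw [← h3, inv_pow]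
      field_simp
    · exact (Set.finite_singleton _).infinite_compl
  have hc : ∀ i, i ≤ D → P.coeff i = Q.coeff (D - i) := by
    intro i hi
    rw [hrefl, coeff_reflect, revAt_le hi]
  have c0 : P.coeff 0 = 0 := by rw [coeff_zero_eq_eval_zero]; exact hP0
  have c1 : P.coeff 1 = 0 := by
    have h : (derivative P).coeff 0 = 0 := by rw [coeff_zero_eq_eval_zero]; exact hP1
    rw [coeff_derivative] at h
    simpa using h
  have q0 : Q.coeff 0 ≠ 0 := by rw [coeff_zero_eq_eval_zero]; exact hQ0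
  have hD : P.coeff D ≠ 0 := by rw [hc D le_rfl, Nat.sub_self]; exact q0
  have hD2 : 2 ≤ D := by
    by_contra hlt
    have : D = 0 ∨ D = 1 := by omega
    rcases this with h | h
    · rw [h] at hD; exact hD c0
    · rw [h] at hD; exact hD c1
  refine ⟨le_antisymm hP (le_natDegree_of_ne_zero hD), ?_⟩
  have : Q.natDegree ≤ D - 2 := by
    rw [natDegree_le_iff_coeff_eq_zero]
    intro N hN
    rcases Nat.lt_or_ge D N with h | h
    · exact coeff_eq_zero_of_natDegree_lt (by omega)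
    · have h2 := hc (D - N) (by omega)
      have h3 : D - (D - N) = N := by omega
      rw [h3] at h2
      rw [← h2]
      have : D - N = 0 ∨ D - N = 1 := by omega
      rcases this with h4 | h4 <;> rw [h4]
      · exact c0
      · exact c1
  omega

lemma expand_even (F : ℂ[X]) (h : ∀ z : ℂ, F.eval (-z) = F.eval z) :
    expand ℂ 2 (contract 2 F) = F := by
  have h1 : F.comp (C (-1) * X) = F := by
    apply Polynomial.funext
    intro z
    rw [eval_comp, eval_mul, eval_C, eval_X, neg_one_mul, h]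
  have h2 : ∀ n : ℕ, ¬ 2 ∣ n → F.coeff n = 0 := by
    intro n hn
    have h3 := congrArg (fun p => p.coeff n) h1
    simp only [comp_C_mul_X_coeff] at h3
    have hodd : Odd n := by rw [← Nat.not_even_iff_odd, even_iff_two_dvd]; exact hn
    rw [hodd.neg_one_pow] at h3
    have : (2 : ℂ) * F.coeff n = 0 := by linear_combination -h3
    simpa using this
  ext n
  rw [coeff_expand (by norm_num)]
  split_ifs with hn
  · rw [coeff_contract (by norm_num), Nat.div_mul_cancel hn]
  · exact (h2 n hn).symm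

lemma odd_form (F : ℂ[X]) (h : ∀ z : ℂ, F.eval (-z) = -F.eval z) :
    ∃ p : ℂ[X], F = X * expand ℂ 2 p := by
  have h0 : F.coeff 0 = 0 := by
    rw [coeff_zero_eq_eval_zero]
    have := h 0
    rw [neg_zero] at this
    have h2 : (2 : ℂ) * F.eval 0 = 0 := by linear_combination this
    simpa using h2
  have h1 : F = X * divX F := by
    have := divX_mul_X_add F
    rw [h0, map_zero, add_zero, mul_comm] at this
    exact this.symm
  refine ⟨contract 2 (divX F), ?_⟩
  rw [expand_even]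
  · exact h1
  · intro z
    rcases eq_or_ne z 0 with rfl | hz
    · rw [neg_zero]
    · have e1 := h z
      rw [h1, eval_mul, eval_mul, eval_X, eval_X] at e1
      have : z * ((divX F).eval (-z) - (divX F).eval z) = 0 := by linear_combination -e1
      rcases mul_eq_zero.1 this with h2 | h2
      · exact absurd h2 hz
      · linear_combination h2

section

variable (k m : ℕ)

lemma XY_natDegree_le (n : ℕ) :
    (Xn k m n).natDegree ≤ (k + m) ^ n ∧ (Yn k m n).natDegree ≤ (k + m) ^ n := by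
  induction n with
  | zero =>
    rw [Xn_zero, Yn_zero, pow_zero]
    constructor
    · exact (natDegree_add_le _ _).trans (by simp)
    · exact (natDegree_sub_le _ _).trans (by simp)
  | succ n ih =>
    obtain ⟨hx, hy⟩ := ih
    set D := (k + m) ^ n with hD
    have hpow : ∀ (F : ℂ[X]) (j : ℕ), F.natDegree ≤ D → (F ^ j).natDegree ≤ j * D := by
      intro F j hF
      exact natDegree_pow_le.trans (Nat.mul_le_mul_left _ hF)
    have c1 : ((m : ℂ[X]) - k) = C ((m : ℂ) - k) := by simp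
    have c2 : ((m : ℂ[X]) + k) = C ((m : ℂ) + k) := by simp
    have hlin : ∀ a b : ℂ, (C a * Xn k m n ^ m + C b * Yn k m n ^ m).natDegree ≤ m * D := by
      intro a b
      refine (natDegree_add_le _ _).trans (max_le ?_ ?_)
      · exact (natDegree_C_mul_le _ _).trans (hpow _ _ hx)
      · exact (natDegree_C_mul_le _ _).trans (hpow _ _ hy)
    have hs : (k + m) ^ (n + 1) = k * D + m * D := by rw [pow_succ, hD]; ring
    rw [Xn_succ, Yn_succ, c1, c2, hs]
    exact ⟨natDegree_mul_le.trans (add_le_add (hpow _ _ hx) (hlin _ _)),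
      natDegree_mul_le.trans (add_le_add (hpow _ _ hy) (hlin _ _))⟩

lemma PQ_natDegree_le (n : ℕ) :
    (Pn k m n).natDegree ≤ (k + m) ^ n ∧ (Qn k m n).natDegree ≤ (k + m) ^ n := by
  obtain ⟨h1, h2⟩ := XY_natDegree_le k m n
  exact ⟨(natDegree_sub_le _ _).trans (max_le h1 h2), (natDegree_add_le _ _).trans (max_le h1 h2)⟩

lemma wr_PQ (n : ℕ) : derivative (Pn k m n) * Qn k m n - Pn k m n * derivative (Qn k m n) =
    2 * (derivative (Xn k m n) * Yn k m n - Xn k m n * derivative (Yn k m n)) := by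
  unfold Pn Qn
  rw [derivative_sub, derivative_add]
  ring

/-- the Wronskian vanishes where `Xn 0 ^ m = Yn 0 ^ m` -/
lemma wr_zero (hk : 0 < k) (hm0 : 0 < m) (n : ℕ) (z : ℂ) (hz : (1 + z) ^ m = (1 - z) ^ m) :
    (derivative (Pn k m (n + 1)) * Qn k m (n + 1) -
      Pn k m (n + 1) * derivative (Qn k m (n + 1))).eval z = 0 := by
  rw [wr_PQ, eval_mul]
  suffices h : ∀ n : ℕ, (derivative (Xn k m (n + 1)) * Yn k m (n + 1) -
      Xn k m (n + 1) * derivative (Yn k m (n + 1))).eval z = 0 by rw [h, mul_zero]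
  intro n
  induction n with
  | zero =>
    rw [wr_succ k m hk hm0, eval_mul, eval_mul, eval_pow, eval_sub, eval_pow, eval_pow, Xn_zero,
      Yn_zero, eval_add, eval_sub, eval_one, eval_X, hz]
    simp
  | succ n ih =>
    rw [wr_succ k m hk hm0, eval_mul, ih, mul_zero]

lemma dP_zero (hk : 0 < k) (hm0 : 0 < m) (n : ℕ) (hn : 1 ≤ n) :
    (derivative (Pn k m n)).eval 0 = 0 := by
  obtain ⟨j, rfl⟩ := Nat.exists_eq_add_of_le' hn
  have h := wr_zero k m hk hm0 j 0 (by simp)
  obtain ⟨h1, h2⟩ := PQ_at_zero k m hm0 (j + 1)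
  rw [eval_sub, eval_mul, eval_mul, h1, zero_mul, sub_zero] at h
  rcases mul_eq_zero.1 h with h | h
  · exact h
  · exact absurd h h2

lemma PQ_degree (hk : Odd k) (hm : Even m) (hm0 : 0 < m) (n : ℕ) (hn : 1 ≤ n) :
    (Pn k m n).natDegree = (k + m) ^ n ∧ (Qn k m n).natDegree + 2 ≤ (k + m) ^ n := by
  have hk0 : 0 < k := hk.pos
  obtain ⟨h1, h2⟩ := PQ_natDegree_le k m n
  obtain ⟨h3, h4⟩ := PQ_at_zero k m hm0 n
  exact deg_of_inv _ _ _ h1 h2 (fun z hz => (PQ_inv k m hk hm n z hz).2) h4 h3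
    (dP_zero k m hk0 hm0 n hn)

/-- numerator and denominator of the iterates of `f` -/
def An (n : ℕ) : ℂ[X] := contract 2 (Pn k m n ^ 2)
def Bn (n : ℕ) : ℂ[X] := contract 2 (Qn k m n ^ 2)

lemma expand_A (n : ℕ) : expand ℂ 2 (An k m n) = Pn k m n ^ 2 := by
  apply expand_even
  intro z
  rw [eval_pow, eval_pow, P_neg, neg_sq]

lemma expand_B (n : ℕ) : expand ℂ 2 (Bn k m n) = Qn k m n ^ 2 := by
  apply expand_even
  intro z
  rw [eval_pow, eval_pow, Q_neg]

lemma A_eval (n : ℕ) (z : ℂ) : (An k m n).eval (z ^ 2) = (Pn k m n).eval z ^ 2 := by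
  have := congrArg (eval z) (expand_A k m n)
  rwa [expand_eval, eval_pow] at this

lemma B_eval (n : ℕ) (z : ℂ) : (Bn k m n).eval (z ^ 2) = (Qn k m n).eval z ^ 2 := by
  have := congrArg (eval z) (expand_B k m n)
  rwa [expand_eval, eval_pow] at this

lemma AB_coprime (hk : 0 < k) (hm0 : 0 < m) (hkm : k ≠ m) (n : ℕ) :
    IsCoprime (An k m n) (Bn k m n) := by
  rw [isCoprime_iff_aeval_ne_zero_of_isAlgClosed ℂ ℂ]
  intro w
  obtain ⟨z, rfl⟩ : ∃ z : ℂ, z ^ 2 = w := IsAlgClosed.exists_pow_nat_eq w (by norm_num)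
  rw [coe_aeval_eq_eval, A_eval, B_eval]
  rcases PQ_coprime_eval k m hk hm0 hkm n z with h | h
  · exact Or.inl (pow_ne_zero 2 h)
  · exact Or.inr (pow_ne_zero 2 h)

lemma AB_degree (hk : Odd k) (hm : Even m) (hm0 : 0 < m) (n : ℕ) (hn : 1 ≤ n) :
    (An k m n).natDegree = (k + m) ^ n ∧ (Bn k m n).natDegree + 2 ≤ (k + m) ^ n := by
  obtain ⟨h1, h2⟩ := PQ_degree k m hk hm hm0 n hn
  have h3 := congrArg natDegree (expand_A k m n)
  have h4 := congrArg natDegree (expand_B k m n)
  rw [natDegree_expand, natDegree_pow] at h3 h4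
  constructor <;> omega

lemma A_form (n : ℕ) : ∃ p : ℂ[X], An k m n = X * p ^ 2 := by
  obtain ⟨p, hp⟩ := odd_form (Pn k m n) (P_neg k m n)
  refine ⟨p, ?_⟩
  unfold An
  have : Pn k m n ^ 2 = expand ℂ 2 (X * p ^ 2) := by
    rw [hp, map_mul, expand_X, map_pow]; ring
  rw [this, contract_expand _ (by norm_num)]

lemma B_form (n : ℕ) : ∃ q : ℂ[X], Bn k m n = q ^ 2 := by
  refine ⟨contract 2 (Qn k m n), ?_⟩
  unfold Bn
  have h := expand_even (Qn k m n) (Q_neg k m n)
  have : Qn k m n ^ 2 = expand ℂ 2 (contract 2 (Qn k m n) ^ 2) := by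
    rw [map_pow, h]
  conv_lhs => rw [this]
  rw [contract_expand _ (by norm_num)]

lemma An_ne (hk : Odd k) (hm : Even m) (hm0 : 0 < m) (n : ℕ) (hn : 1 ≤ n) : An k m n ≠ 0 := by
  intro h
  have := (AB_degree k m hk hm hm0 n hn).1
  rw [h, natDegree_zero] at this
  have h2 : 0 < (k + m) ^ n := by positivity
  omega

lemma Bn_ne (hm0 : 0 < m) (n : ℕ) : Bn k m n ≠ 0 := by
  intro h
  have h1 := B_eval k m n 0
  rw [h, eval_zero] at h1
  exact (PQ_at_zero k m hm0 n).2 (pow_eq_zero_iff (n := 2) (by norm_num) |>.1 h1.symm)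

end

end

end Pool.Agent.H64.MS
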