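import Pool.Graph.R_seed8.H884R3.MsConj

set_option autoImplicit false

/-!
Fixed points and multipliers under a twisted conjugation, and under the quotient `z ↦ z²`.
-/

open Polynomial
open Pool.Agent.H884R3.Ms (mu)

namespace Pool.Agent.H64.MS

noncomputable section

/-- if `F (z²) = G (z) G (-z)` then the roots of `F` are the squares of the roots of `G` -/
lemma roots2 (F G : ℂ[X]) (hG : G ≠ 0)
    (h : ∀ z : ℂ, F.eval (z ^ 2) = G.eval z * G.eval (-z)) :
    F.roots = G.roots.map (fun ρ => ρ ^ 2) := by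
  have hg : G.leadingCoeff ≠ 0 := leadingCoeff_ne_zero.mpr hG
  have hK : G.leadingCoeff ^ 2 * (-1 : ℂ) ^ (Multiset.card G.roots) ≠ 0 :=
    mul_ne_zero (pow_ne_zero 2 hg) (pow_ne_zero _ (by norm_num))
  have hFe : F = C (G.leadingCoeff ^ 2 * (-1 : ℂ) ^ (Multiset.card G.roots)) *
      ((G.roots.map (fun ρ => ρ ^ 2)).map (fun a => X - C a)).prod := by
    apply Polynomial.funext
    intro w
    obtain ⟨z, rfl⟩ : ∃ z : ℂ, z ^ 2 = w := IsAlgClosed.exists_pow_nat_eq w (by norm_num)
    rw [h z]
    simp only [(IsAlgClosed.splits G).eval_eq_prod_roots]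
    rw [eval_mul, eval_C, eval_multiset_prod, Multiset.map_map, Multiset.map_map]
    have e1 : (-1 : ℂ) ^ (Multiset.card G.roots) = (G.roots.map (fun _ => (-1 : ℂ))).prod := by
      rw [Multiset.map_const', Multiset.prod_replicate]
    rw [e1]
    have e2 : (G.roots.map (fun x => z - x)).prod * (G.roots.map (fun x => -z - x)).prod =
        (G.roots.map (fun _ => (-1 : ℂ))).prod *
          (G.roots.map ((Polynomial.eval (z ^ 2) ∘ fun a => X - C a) ∘ fun ρ => ρ ^ 2)).prod := by
      rw [← Multiset.prod_map_mul, ← Multiset.prod_map_mul]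
      congr 1
      apply Multiset.map_congr rfl
      intro ρ _
      simp only [Function.comp, eval_sub, eval_X, eval_C]
      ring
    linear_combination G.leadingCoeff ^ 2 * e2
  rw [hFe, roots_C_mul _ hK, roots_multiset_prod_X_sub_C]

lemma mu_sq (A B P Q : ℂ[X]) (hA : expand ℂ 2 A = P ^ 2) (hB : expand ℂ 2 B = Q ^ 2) (z : ℂ)
    (hz : z ≠ 0) (hQ : Q.eval z ≠ 0) (hfix : P.eval z = z * Q.eval z) :
    mu A B (z ^ 2) = mu P Q z := by
  have a0 : A.eval (z ^ 2) = (P.eval z) ^ 2 := by
    have := congrArg (eval z) hA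
    rwa [expand_eval, eval_pow] at this
  have b0 : B.eval (z ^ 2) = (Q.eval z) ^ 2 := by
    have := congrArg (eval z) hB
    rwa [expand_eval, eval_pow] at this
  have a1 : (derivative A).eval (z ^ 2) * (2 * z) =
      2 * P.eval z * (derivative P).eval z := by
    have := congrArg (fun p => eval z (derivative p)) hA
    simp only [derivative_expand, derivative_pow] at this
    simpa [expand_eval] using this
  have b1 : (derivative B).eval (z ^ 2) * (2 * z) =
      2 * Q.eval z * (derivative Q).eval z := by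
    have := congrArg (fun p => eval z (derivative p)) hB
    simp only [derivative_expand, derivative_pow] at this
    simpa [expand_eval] using this
  unfold mu
  rw [eval_sub, eval_mul, eval_mul, eval_sub, eval_mul, eval_mul, a0, b0, hfix]
  rw [hfix] at a1
  have a2 : (derivative A).eval (z ^ 2) = Q.eval z * (derivative P).eval z := by
    have : (2 * z : ℂ) ≠ 0 := mul_ne_zero (by norm_num) hz
    apply mul_right_cancel₀ this
    rw [a1]; ring
  have b2 : (derivative B).eval (z ^ 2) = Q.eval z * (derivative Q).eval z / z := by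
    field_simp
    linear_combination b1 / 2
  rw [a2, b2]
  field_simp

/-- the Moebius transformation `z ↦ (z + t) / (t z + 1)` -/
def T (t z : ℂ) : ℂ := (z + t) / (t * z + 1)

section

variable (P Q : ℂ[X]) (D : ℕ) (t c : ℂ)

/-- the fixed points of `Q / P` come from those of `P / Q` -/
lemma psi_roots (hPd : P.natDegree = D) (hQd : Q.natDegree + 2 ≤ D)
    (hcop : ∀ z : ℂ, P.eval z ≠ 0 ∨ Q.eval z ≠ 0) (ht : t ≠ 0) (ht1 : 1 - t ^ 2 ≠ 0) (hc : c ≠ 0)
    (hinf : P.eval (1 / t) = t * Q.eval (1 / t))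
    (hT : ∀ z : ℂ, t * z + 1 ≠ 0 →
      (t * z + 1) ^ D * P.eval (T t z) = c * (t * P.eval z + Q.eval z) ∧
      (t * z + 1) ^ D * Q.eval (T t z) = c * (P.eval z + t * Q.eval z)) :
    (Q - X * P).roots = (-1 / t) ::ₘ (P - X * Q).roots.map (T (-t)) ∧
      (∀ ρ ∈ (P - X * Q).roots, 1 - t * ρ ≠ 0) := by
  set Φ := P - X * Q with hΦ
  have hXQ : (X * Q).natDegree < P.natDegree := by
    have : (X * Q).natDegree ≤ 1 + Q.natDegree := natDegree_mul_le.trans (by rw [natDegree_X])
    omega
  have hΦd : Φ.natDegree = D := by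
    rw [hΦ, natDegree_sub_eq_left_of_natDegree_lt hXQ, hPd]
  have hΦ0 : Φ ≠ 0 := by
    intro h
    rw [h, natDegree_zero] at hΦd
    omega
  have hcard : Multiset.card Φ.roots = D := by
    rw [← hΦd]
    exact (splits_iff_card_roots.mp (IsAlgClosed.splits Φ))
  have hroot : ∀ ρ ∈ Φ.roots, 1 - t * ρ ≠ 0 := by
    intro ρ hρ h1
    rw [mem_roots hΦ0, IsRoot, hΦ, eval_sub, eval_mul, eval_X] at hρ
    have hρt : ρ = 1 / t := by field_simp; linear_combination -h1
    rw [hρt, hinf] at hρ
    have hQ : Q.eval (1 / t) ≠ 0 := by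
      rcases hcop (1 / t) with h | h
      · intro h2
        apply h
        rw [hinf, h2, mul_zero]
      · exact h
    have h3 : (1 - t ^ 2) * Q.eval (1 / t) = 0 := by
      have e : t * (1 / t) = 1 := by field_simp
      linear_combination -t * hρ - Q.eval (1 / t) * e
    rcases mul_eq_zero.1 h3 with h | h
    · exact ht1 h
    · exact hQ h
  refine ⟨?_, hroot⟩
  set K : ℂ := (c * (1 - t ^ 2))⁻¹ * Φ.leadingCoeff * t *
    (Φ.roots.map (fun ρ => 1 - t * ρ)).prod with hK
  have hKne : K ≠ 0 := by
    rw [hK]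
    refine mul_ne_zero (mul_ne_zero (mul_ne_zero (inv_ne_zero (mul_ne_zero hc ht1))
      (leadingCoeff_ne_zero.mpr hΦ0)) ht) ?_
    apply Multiset.prod_ne_zero
    intro hmem
    rw [Multiset.mem_map] at hmem
    obtain ⟨ρ, hρ, hρ'⟩ := hmem
    exact hroot ρ hρ hρ'
  have hpoly : Q - X * P =
      C K * ((((-1 / t) ::ₘ Φ.roots.map (T (-t)))).map (fun a => X - C a)).prod := by
    apply eq_of_infinite_eval_eq
    apply Set.Infinite.mono (s := ({-1 / t} : Set ℂ)ᶜ)
    · intro z hz
      have hz' : t * z + 1 ≠ 0 := by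
        intro h
        apply hz
        rw [Set.mem_singleton_iff]
        field_simp
        linear_combination h
      obtain ⟨t1, t2⟩ := hT z hz'
      rw [Set.mem_ofPred_eq, Multiset.map_cons, Multiset.prod_cons, eval_mul (p := C K),
        eval_mul (p := X - C (-1 / t)), eval_C, eval_sub (p := X) (q := C (-1 / t)), eval_X, eval_C,
        eval_multiset_prod, Multiset.map_map, Multiset.map_map]
      have e1 : c * (1 - t ^ 2) * (Q - X * P).eval z =
          (t * z + 1) * ((t * z + 1) ^ D * Φ.eval (T t z)) := by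
        have e2 : T t z * (t * z + 1) = z + t := by
          unfold T; exact div_mul_cancel₀ _ hz'
        rw [hΦ, eval_sub, eval_sub, eval_mul, eval_mul, eval_X, eval_X]
        linear_combination -(t * z + 1) * t1 + (z + t) * t2
          + (t * z + 1) ^ D * eval (T t z) Q * e2
      have e3 : (t * z + 1) ^ D * Φ.eval (T t z) =
          Φ.leadingCoeff * ((Φ.roots.map (fun ρ => 1 - t * ρ)).prod *
            (Φ.roots.map (fun ρ => z - T (-t) ρ)).prod) := by
        rw [(IsAlgClosed.splits Φ).eval_eq_prod_roots, ← Multiset.prod_map_mul]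
        have e4 : (t * z + 1) ^ D = (Φ.roots.map (fun _ => t * z + 1)).prod := by
          rw [Multiset.map_const', Multiset.prod_replicate, hcard]
        rw [e4, mul_left_comm, ← Multiset.prod_map_mul]
        congr 2
        apply Multiset.map_congr rfl
        intro ρ hρ
        have hρ' := hroot ρ hρ
        have hρ'' : -t * ρ + 1 ≠ 0 := by
          intro h; apply hρ'; linear_combination h
        have h1 : T t z * (t * z + 1) = z + t := by
          unfold T; exact div_mul_cancel₀ _ hz'
        have h2 : T (-t) ρ * (-t * ρ + 1) = ρ + -t := by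
          unfold T; exact div_mul_cancel₀ _ hρ''
        linear_combination h1 + h2
      have e5 : (Φ.roots.map ((Polynomial.eval z ∘ (fun a => X - C a)) ∘ T (-t))).prod =
          (Φ.roots.map (fun ρ => z - T (-t) ρ)).prod := by
        congr 1
        apply Multiset.map_congr rfl
        intro ρ _
        simp
      rw [e5]
      have e6 : t * (z - -1 / t) = t * z + 1 := by field_simp; ring
      have e7 : (Q - X * P).eval z = (c * (1 - t ^ 2))⁻¹ *
          ((t * z + 1) * ((t * z + 1) ^ D * Φ.eval (T t z))) := by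
        rw [← e1, inv_mul_cancel_left₀ (mul_ne_zero hc ht1)]
      rw [e7, e3, hK, ← e6]
      ring
    · exact (Set.finite_singleton _).infinite_compl
  rw [hpoly, roots_C_mul _ hKne, roots_multiset_prod_X_sub_C]

/-- multipliers under the twisted conjugation -/
lemma mu_T (hcop : ∀ z : ℂ, P.eval z ≠ 0 ∨ Q.eval z ≠ 0) (ht1 : 1 - t ^ 2 ≠ 0) (hc : c ≠ 0)
    (hT : ∀ z : ℂ, t * z + 1 ≠ 0 →
      (t * z + 1) ^ D * P.eval (T t z) = c * (t * P.eval z + Q.eval z) ∧
      (t * z + 1) ^ D * Q.eval (T t z) = c * (P.eval z + t * Q.eval z)) (σ : ℂ)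
    (hσ : t * σ + 1 ≠ 0) (hfix : Q.eval σ = σ * P.eval σ) :
    mu Q P σ = mu P Q (T t σ) := by
  have hPσ : P.eval σ ≠ 0 := by
    rcases hcop σ with h | h
    · exact h
    · intro h'
      apply h
      rw [hfix, h', mul_zero]
  have hden : P.eval σ + t * Q.eval σ = (t * σ + 1) * P.eval σ := by rw [hfix]; ring
  have hden0 : P.eval σ + t * Q.eval σ ≠ 0 := by rw [hden]; exact mul_ne_zero hσ hPσ
  have hQT : Q.eval (T t σ) ≠ 0 := by
    intro h
    have h3 := (hT σ hσ).2
    rw [h, mul_zero] at h3
    exact mul_ne_zero hc hden0 h3.symm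
  have dT : HasDerivAt (T t) ((1 - t ^ 2) / (t * σ + 1) ^ 2) σ := by
    have d1 : HasDerivAt (fun z : ℂ => z + t) 1 σ := by
      simpa using (hasDerivAt_id σ).add_const t
    have d2 : HasDerivAt (fun z : ℂ => t * z + 1) t σ := by
      simpa using ((hasDerivAt_id σ).const_mul t).add_const 1
    have d3 := d1.div d2 hσ
    refine d3.congr_deriv ?_
    congr 1
    ring
  have dQP : HasDerivAt (fun w : ℂ => P.eval w / Q.eval w)
      (((derivative P).eval (T t σ) * Q.eval (T t σ) - P.eval (T t σ) *
        (derivative Q).eval (T t σ)) / (Q.eval (T t σ)) ^ 2) (T t σ) :=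
    (P.hasDerivAt (T t σ)).div (Q.hasDerivAt (T t σ)) hQT
  have d4 := dQP.comp σ dT
  have d5 : HasDerivAt (fun z : ℂ => (t * P.eval z + Q.eval z) / (P.eval z + t * Q.eval z))
      (((t * (derivative P).eval σ + (derivative Q).eval σ) * (P.eval σ + t * Q.eval σ) -
        (t * P.eval σ + Q.eval σ) * ((derivative P).eval σ + t * (derivative Q).eval σ)) /
        (P.eval σ + t * Q.eval σ) ^ 2) σ :=
    (((P.hasDerivAt σ).const_mul t).add (Q.hasDerivAt σ)).div
      ((P.hasDerivAt σ).add ((Q.hasDerivAt σ).const_mul t)) hden0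
  have hev : (fun z : ℂ => (t * P.eval z + Q.eval z) / (P.eval z + t * Q.eval z)) =ᶠ[nhds σ]
      ((fun w : ℂ => P.eval w / Q.eval w) ∘ T t) := by
    have hopen : {z : ℂ | t * z + 1 ≠ 0} ∈ nhds σ := by
      apply IsOpen.mem_nhds _ hσ
      exact isOpen_ne_fun (by fun_prop) continuous_const
    filter_upwards [hopen] with z hz
    obtain ⟨t1, t2⟩ := hT z hz
    have hp : (t * z + 1) ^ D ≠ 0 := pow_ne_zero _ hz
    show _ = P.eval (T t z) / Q.eval (T t z)
    calc (t * P.eval z + Q.eval z) / (P.eval z + t * Q.eval z)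
        = (c * (t * P.eval z + Q.eval z)) / (c * (P.eval z + t * Q.eval z)) := by
          rw [mul_div_mul_left _ _ hc]
      _ = ((t * z + 1) ^ D * P.eval (T t z)) / ((t * z + 1) ^ D * Q.eval (T t z)) := by
          rw [t1, t2]
      _ = P.eval (T t z) / Q.eval (T t z) := by
          rw [mul_div_mul_left _ _ hp]
  have d6 := d4.congr_of_eventuallyEq hev
  have huniq := d5.unique d6
  unfold mu
  rw [eval_sub, eval_mul, eval_mul, eval_sub, eval_mul, eval_mul]
  set M := ((derivative P).eval (T t σ) * Q.eval (T t σ) - P.eval (T t σ) *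
        (derivative Q).eval (T t σ)) / (Q.eval (T t σ)) ^ 2 with hM
  have hsq : (t * σ + 1) ^ 2 ≠ 0 := pow_ne_zero _ hσ
  have e2 : ((t * (derivative P).eval σ + (derivative Q).eval σ) * (P.eval σ + t * Q.eval σ) -
        (t * P.eval σ + Q.eval σ) * ((derivative P).eval σ + t * (derivative Q).eval σ)) =
        (1 - t ^ 2) * ((derivative Q).eval σ * P.eval σ - Q.eval σ * (derivative P).eval σ) := by
    ring
  rw [e2, hden, mul_pow] at huniq
  rw [div_eq_iff (pow_ne_zero 2 hPσ)]
  field_simp at huniq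
  linear_combination huniq

end

end

end Pool.Agent.H64.MS
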