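import Pool.Agent.H64.MS.D2
import Pool.Agent.H64.MS.D3

set_option autoImplicit false

open Polynomial
open Pool.Agent.H884R3.Ms (mu)

namespace Pool.Agent.H64.MS

noncomputable section

/-- the multipliers of `Q / P` are those of `P / Q` and one `0` -/
lemma half (P Q : ℂ[X]) (D : ℕ) (t c : ℂ) (hPd : P.natDegree = D) (hQd : Q.natDegree + 2 ≤ D)
    (hcop : ∀ z : ℂ, P.eval z ≠ 0 ∨ Q.eval z ≠ 0) (ht : t ≠ 0) (ht1 : 1 - t ^ 2 ≠ 0) (hc : c ≠ 0)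
    (hinf : P.eval (1 / t) = t * Q.eval (1 / t))
    (hT : ∀ z : ℂ, t * z + 1 ≠ 0 →
      (t * z + 1) ^ D * P.eval (T t z) = c * (t * P.eval z + Q.eval z) ∧
      (t * z + 1) ^ D * Q.eval (T t z) = c * (P.eval z + t * Q.eval z))
    (hw : (derivative P * Q - P * derivative Q).eval (-1 / t) = 0) :
    (Q - X * P).roots.map (mu Q P) = 0 ::ₘ (P - X * Q).roots.map (mu P Q) := by
  obtain ⟨h1, h2⟩ := psi_roots P Q D t c hPd hQd hcop ht ht1 hc hinf hT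
  have hΨ0 : Q - X * P ≠ 0 := by
    intro h
    rw [h, roots_zero] at h1
    exact (Multiset.cons_ne_zero h1.symm)
  rw [h1, Multiset.map_cons, Multiset.map_map]
  have e1 : mu Q P (-1 / t) = 0 := by
    unfold mu
    have e : derivative Q * P - Q * derivative P = -(derivative P * Q - P * derivative Q) := by ring
    rw [e, eval_neg, hw, neg_zero, zero_div]
  rw [e1]
  congr 1
  apply Multiset.map_congr rfl
  intro ρ hρ
  have hρ' := h2 ρ hρ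
  have hσmem : T (-t) ρ ∈ (Q - X * P).roots := by
    rw [h1]
    exact Multiset.mem_cons_of_mem (Multiset.mem_map_of_mem _ hρ)
  have hfix : Q.eval (T (-t) ρ) = T (-t) ρ * P.eval (T (-t) ρ) := by
    rw [mem_roots hΨ0, IsRoot, eval_sub, eval_mul, eval_X] at hσmem
    linear_combination hσmem
  have hden : -t * ρ + 1 ≠ 0 := by
    intro h; apply hρ'; linear_combination h
  have e2 : T (-t) ρ * (-t * ρ + 1) = ρ + -t := by
    unfold T; exact div_mul_cancel₀ _ hden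
  have e3 : (t * T (-t) ρ + 1) * (-t * ρ + 1) = 1 - t ^ 2 := by linear_combination t * e2
  have hσ : t * T (-t) ρ + 1 ≠ 0 := by
    intro h
    rw [h, zero_mul] at e3
    exact ht1 e3.symm
  have e4 : T t (T (-t) ρ) = ρ := by
    have h5 : (T (-t) ρ + t) * (-t * ρ + 1) = ρ * (1 - t ^ 2) := by linear_combination e2
    have h6 : T (-t) ρ + t = ρ * (t * T (-t) ρ + 1) := by
      apply mul_right_cancel₀ hden
      rw [h5, mul_assoc, e3]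
    show (T (-t) ρ + t) / (t * T (-t) ρ + 1) = ρ
    rw [h6, mul_div_assoc, div_self hσ, mul_one]
  show mu Q P (T (-t) ρ) = mu P Q ρ
  rw [mu_T P Q D t c hcop ht1 hc hT _ hσ hfix, e4]

section

variable (k m : ℕ)

/-- `T` in the old coordinates is the rotation by `ζ` -/
lemma XY_T (n : ℕ) (ζ : ℂ) (hζ : ζ ^ m = 1) (hζ1 : ζ + 1 ≠ 0) (z : ℂ)
    (hz : (ζ - 1) / (ζ + 1) * z + 1 ≠ 0) :
    ((ζ - 1) / (ζ + 1) * z + 1) ^ (k + m) ^ n * (Xn k m n).eval (T ((ζ - 1) / (ζ + 1)) z) =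
      ζ ^ k ^ n * ((2 / (ζ + 1)) ^ (k + m) ^ n * (Xn k m n).eval z) ∧
    ((ζ - 1) / (ζ + 1) * z + 1) ^ (k + m) ^ n * (Yn k m n).eval (T ((ζ - 1) / (ζ + 1)) z) =
      (2 / (ζ + 1)) ^ (k + m) ^ n * (Yn k m n).eval z := by
  set t := (ζ - 1) / (ζ + 1) with ht
  set b := 2 / (ζ + 1) with hb
  have h1 := XY_homog k m n (z + t) (t * z + 1) hz
  have e1 : t * z + 1 + (z + t) = ζ * (b * (1 + z)) := by
    rw [ht, hb]; field_simp; ring
  have e2 : t * z + 1 - (z + t) = b * (1 - z) := by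
    rw [ht, hb]; field_simp; ring
  rw [e1, e2, e_iter_rot k m n ζ hζ, e_iter_smul, XY_eval] at h1
  have h2 := congrArg Prod.fst h1
  have h3 := congrArg Prod.snd h1
  simp only at h2 h3
  exact ⟨h2.symm, h3.symm⟩

/-- the value at `T ∞ = 1 / t` -/
lemma XY_inf (hk : Odd k) (hm : Even m) (hm0 : 0 < m) (n : ℕ) (ζ : ℂ) (hζ : ζ ^ m = 1)
    (hζ1 : ζ + 1 ≠ 0) (hζ2 : ζ - 1 ≠ 0) : ∃ C : ℂ,
    (Xn k m n).eval (1 / ((ζ - 1) / (ζ + 1))) = ζ ^ k ^ n * C ∧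
    (Yn k m n).eval (1 / ((ζ - 1) / (ζ + 1))) = -C := by
  set t := (ζ - 1) / (ζ + 1) with ht
  set b := 2 / (ζ + 1) with hb
  have ht0 : t ≠ 0 := by rw [ht]; exact div_ne_zero hζ2 hζ1
  have h1 := XY_homog k m n 1 t ht0
  have e1 : t + 1 = ζ * b := by rw [ht, hb]; field_simp; ring
  have e2 : t - 1 = -b := by rw [ht, hb]; field_simp; ring
  obtain ⟨c, hc, h⟩ := e_one k m hm0 n
  have h4 := e_iter_smul k m n b 1 1
  rw [mul_one, h] at h4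
  rw [e1, e2, e_iter_rot k m n ζ hζ, e_iter_neg k m n hk hm, h4] at h1
  have h2 := congrArg Prod.fst h1
  have h3 := congrArg Prod.snd h1
  simp only at h2 h3
  have hp : t ^ (k + m) ^ n ≠ 0 := pow_ne_zero _ ht0
  refine ⟨b ^ (k + m) ^ n * c / t ^ (k + m) ^ n, ?_, ?_⟩
  · rw [eq_comm, ← mul_div_assoc, div_eq_iff hp, h2]; ring
  · rw [eq_comm, ← neg_div, div_eq_iff hp, h3]; ring

lemma wr_at (hk : 0 < k) (hm : Even m) (hm0 : 0 < m) (n : ℕ) (hn : 1 ≤ n) (ζ : ℂ)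
    (hζ : ζ ^ m = 1) (_hζ1 : ζ + 1 ≠ 0) (hζ2 : ζ - 1 ≠ 0) :
    (derivative (Pn k m n) * Qn k m n - Pn k m n * derivative (Qn k m n)).eval
      (-1 / ((ζ - 1) / (ζ + 1))) = 0 := by
  obtain ⟨j, rfl⟩ := Nat.exists_eq_add_of_le' hn
  apply wr_zero k m hk hm0 j
  have e1 : 1 + -1 / ((ζ - 1) / (ζ + 1)) = -(2 / (ζ - 1)) := by field_simp; ring
  have e2 : 1 - -1 / ((ζ - 1) / (ζ + 1)) = ζ * (2 / (ζ - 1)) := by field_simp; ring
  rw [e1, e2, hm.neg_pow, mul_pow, hζ, one_mul]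

/-- `E^n` and `1 / E^n` -/
lemma half_plus (hk : Odd k) (hm : Even m) (hm0 : 0 < m) (hkm : k ≠ m) (n : ℕ) (hn : 1 ≤ n)
    (ζ : ℂ) (hζ : ζ ^ m = 1) (hζ1 : ζ + 1 ≠ 0) (hζ2 : ζ - 1 ≠ 0) (hζk : ζ ^ k ^ n = -ζ) :
    (Qn k m n - X * Pn k m n).roots.map (mu (Qn k m n) (Pn k m n)) =
      0 ::ₘ (Pn k m n - X * Qn k m n).roots.map (mu (Pn k m n) (Qn k m n)) := by
  have hk0 : 0 < k := hk.pos
  obtain ⟨h1, h2⟩ := PQ_degree k m hk hm hm0 n hn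
  have hζ0 : ζ ≠ 0 := by rintro rfl; rw [zero_pow hm0.ne'] at hζ; norm_num at hζ
  have hb : (2 / (ζ + 1) : ℂ) ≠ 0 := div_ne_zero two_ne_zero hζ1
  refine half _ _ ((k + m) ^ n) ((ζ - 1) / (ζ + 1))
    (-((2 / (ζ + 1)) ^ (k + m) ^ n * ((ζ + 1) / 2))) h1 h2
    (PQ_coprime_eval k m hk0 hm0 hkm n) (div_ne_zero hζ2 hζ1) ?_ ?_ ?_ ?_
    (wr_at k m hk0 hm hm0 n hn ζ hζ hζ1 hζ2)
  · have : 1 - ((ζ - 1) / (ζ + 1)) ^ 2 = 4 * ζ / (ζ + 1) ^ 2 := by field_simp; ring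
    rw [this]
    exact div_ne_zero (mul_ne_zero (by norm_num) hζ0) (pow_ne_zero _ hζ1)
  · exact neg_ne_zero.mpr (mul_ne_zero (pow_ne_zero _ hb) (div_ne_zero hζ1 two_ne_zero))
  · obtain ⟨C, h3, h4⟩ := XY_inf k m hk hm hm0 n ζ hζ hζ1 hζ2
    unfold Pn Qn
    rw [eval_sub, eval_add, h3, h4, hζk]
    field_simp
    ring
  · intro z hz
    obtain ⟨h3, h4⟩ := XY_T k m n ζ hζ hζ1 z hz
    rw [hζk] at h3
    have ht : (ζ - 1) / (ζ + 1) * (ζ + 1) = ζ - 1 := div_mul_cancel₀ _ hζ1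
    set t := (ζ - 1) / (ζ + 1)
    set B := (2 / (ζ + 1)) ^ (k + m) ^ n
    unfold Pn Qn
    rw [eval_sub, eval_add, eval_sub, eval_add]
    constructor
    · linear_combination h3 - h4 + B / 2 * ((Xn k m n).eval z - (Yn k m n).eval z) * ht
    · linear_combination h3 + h4 + B / 2 * ((Xn k m n).eval z + (Yn k m n).eval z) * ht

/-- `-E^n` and `-1 / E^n` -/
lemma half_minus (hk : Odd k) (hm : Even m) (hm0 : 0 < m) (hkm : k ≠ m) (n : ℕ) (hn : 1 ≤ n)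
    (ζ : ℂ) (hζ : ζ ^ m = 1) (hζ1 : ζ + 1 ≠ 0) (hζ2 : ζ - 1 ≠ 0) (hζk : ζ ^ k ^ n = -ζ⁻¹) :
    (Qn k m n - X * -Pn k m n).roots.map (mu (Qn k m n) (-Pn k m n)) =
      0 ::ₘ (-Pn k m n - X * Qn k m n).roots.map (mu (-Pn k m n) (Qn k m n)) := by
  have hk0 : 0 < k := hk.pos
  obtain ⟨h1, h2⟩ := PQ_degree k m hk hm hm0 n hn
  have hζ0 : ζ ≠ 0 := by rintro rfl; rw [zero_pow hm0.ne'] at hζ; norm_num at hζ
  have hb : (2 / (ζ + 1) : ℂ) ≠ 0 := div_ne_zero two_ne_zero hζ1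
  refine half _ _ ((k + m) ^ n) ((ζ - 1) / (ζ + 1))
    ((2 / (ζ + 1)) ^ (k + m) ^ n * ((ζ + 1) / 2) * ζ⁻¹) (by rw [natDegree_neg]; exact h1) h2
    ?_ (div_ne_zero hζ2 hζ1) ?_ ?_ ?_ ?_ ?_
  · intro z
    rw [eval_neg, neg_ne_zero]
    exact PQ_coprime_eval k m hk0 hm0 hkm n z
  · have : 1 - ((ζ - 1) / (ζ + 1)) ^ 2 = 4 * ζ / (ζ + 1) ^ 2 := by field_simp; ring
    rw [this]
    exact div_ne_zero (mul_ne_zero (by norm_num) hζ0) (pow_ne_zero _ hζ1)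
  · exact mul_ne_zero (mul_ne_zero (pow_ne_zero _ hb) (div_ne_zero hζ1 two_ne_zero))
      (inv_ne_zero hζ0)
  · obtain ⟨C, h3, h4⟩ := XY_inf k m hk hm hm0 n ζ hζ hζ1 hζ2
    unfold Pn Qn
    rw [eval_neg, eval_sub, eval_add, h3, h4, hζk]
    field_simp
    ring
  · intro z hz
    obtain ⟨h3, h4⟩ := XY_T k m n ζ hζ hζ1 z hz
    rw [hζk] at h3
    have ht : (ζ - 1) / (ζ + 1) * (ζ + 1) = ζ - 1 := div_mul_cancel₀ _ hζ1
    have hinv : ζ⁻¹ * ζ = 1 := inv_mul_cancel₀ hζ0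
    set t := (ζ - 1) / (ζ + 1)
    set B := (2 / (ζ + 1)) ^ (k + m) ^ n
    unfold Pn Qn
    rw [eval_neg, eval_neg, eval_sub, eval_add, eval_sub, eval_add]
    constructor
    · linear_combination -h3 + h4 + B * ζ⁻¹ / 2 * ((Xn k m n).eval z - (Yn k m n).eval z) * ht
        - B * (Yn k m n).eval z * hinv
    · linear_combination h3 + h4 - B * ζ⁻¹ / 2 * ((Xn k m n).eval z + (Yn k m n).eval z) * ht
        - B * (Yn k m n).eval z * hinv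
  · have h := wr_at k m hk0 hm hm0 n hn ζ hζ hζ1 hζ2
    have e : derivative (-Pn k m n) * Qn k m n - -Pn k m n * derivative (Qn k m n) =
        -(derivative (Pn k m n) * Qn k m n - Pn k m n * derivative (Qn k m n)) := by
      rw [derivative_neg]; ring
    rw [e, eval_neg, h, neg_zero]

end

end

end Pool.Agent.H64.MS
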