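import Pool.Agent.H64.MS.D5

set_option autoImplicit false

open Polynomial
open Pool.Agent.H884R3.Ms
open Pool.Agent.Helper881.Gp

namespace Pool.Agent.H64.MS

noncomputable section

/-- the substitution `X ↦ X²` -/
lemma exists_tau : ∃ τ : RatFunc ℂ →ₐ[ℂ] RatFunc ℂ, ∀ F : ℂ[X], τ (ι F) = ι (expand ℂ 2 F) := by
  have hd : 1 ≤ deg (ι (X ^ 2 : ℂ[X])) := by
    have h := deg_div (X ^ 2 : ℂ[X]) 1 isCoprime_one_right one_ne_zero
    have e : ι (1 : ℂ[X]) = 1 := map_one _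
    rw [e, div_one] at h
    rw [h, natDegree_X_pow]
    simp
  obtain ⟨τ, hτ⟩ := Pool.Agent.Helper881.Cen.Hom.exists_end _ hd
  refine ⟨τ, fun F => ?_⟩
  have h : τ.comp (IsScalarTower.toAlgHom ℂ ℂ[X] (RatFunc ℂ)) =
      (IsScalarTower.toAlgHom ℂ ℂ[X] (RatFunc ℂ)).comp (expand ℂ 2) := by
    apply Polynomial.algHom_ext
    show τ (algebraMap ℂ[X] (RatFunc ℂ) X) = algebraMap ℂ[X] (RatFunc ℂ) (expand ℂ 2 X)
    rw [RatFunc.algebraMap_X, hτ, expand_X]
    rfl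
  exact DFunLike.congr_fun h F

section

variable (k m : ℕ)

/-- the map `f` and the map `g = 1 / f` -/
def fR : RatFunc ℂ := ι (An k m 1) / ι (Bn k m 1)
def gR : RatFunc ℂ := ι (Bn k m 1) / ι (An k m 1)

lemma comp_div (A B : ℂ[X]) (hAB : IsCoprime A B) (hB : B ≠ 0) (y : RatFunc ℂ) :
    comp (ι A / ι B) y = aeval y A / aeval y B := by
  obtain ⟨c, hc, h1, h2⟩ := bridge A B hAB hB
  have hc' : algebraMap ℂ (RatFunc ℂ) c ≠ 0 := by
    rw [map_ne_zero_iff _ (algebraMap ℂ (RatFunc ℂ)).injective]; exact hc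
  unfold Pool.Agent.Helper881.Gp.comp
  rw [h1, h2, map_mul, map_mul, aeval_C, mul_div_mul_left _ _ hc']

/-- the action of `E` on a fraction -/
lemma aeval_XY (u x y z : RatFunc ℂ) (h1 : u * (1 + z) = x) (h2 : u * (1 - z) = y) :
    u ^ (k + m) * aeval z (Xn k m 1) = (e k m (x, y)).1 ∧
      u ^ (k + m) * aeval z (Yn k m 1) = (e k m (x, y)).2 := by
  have h := e_iter_map (aeval z : ℂ[X] →ₐ[ℂ] RatFunc ℂ).toRingHom k m 1
    ((1 : ℂ[X]) + X, (1 : ℂ[X]) - X)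
  have e1 : (aeval z : ℂ[X] →ₐ[ℂ] RatFunc ℂ).toRingHom (1 + X) = 1 + z := by simp
  have e2 : (aeval z : ℂ[X] →ₐ[ℂ] RatFunc ℂ).toRingHom (1 - X) = 1 - z := by simp
  rw [e1, e2] at h
  have h3 := e_iter_smul k m 1 u (1 + z) (1 - z)
  rw [h, h1, h2, pow_one] at h3
  exact ⟨(congrArg Prod.fst h3).symm, (congrArg Prod.snd h3).symm⟩

lemma ι_succ (n : ℕ) : e k m (ι (Xn k m n), ι (Yn k m n)) =
    (ι (Xn k m (n + 1)), ι (Yn k m (n + 1))) := by
  have h := e_map (algebraMap ℂ[X] (RatFunc ℂ)) k m (Xn k m n, Yn k m n)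
  rw [Xn_succ, Yn_succ]
  exact h

lemma Pn_ne (hk : Odd k) (hm : Even m) (hm0 : 0 < m) (n : ℕ) : Pn k m n ≠ 0 := by
  rcases Nat.eq_zero_or_pos n with rfl | hn
  · unfold Pn
    rw [Xn_zero, Yn_zero]
    intro h
    have := congrArg (eval 1) h
    simp at this
  · intro h
    have := (PQ_degree k m hk hm hm0 n hn).1
    rw [h, natDegree_zero] at this
    have h2 : 0 < (k + m) ^ n := by positivity
    omega

lemma Qn_ne (hm0 : 0 < m) (n : ℕ) : Qn k m n ≠ 0 := by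
  intro h
  have := (PQ_at_zero k m hm0 n).2
  rw [h, eval_zero] at this
  exact this rfl

lemma An_ne' (hk : Odd k) (hm : Even m) (hm0 : 0 < m) (n : ℕ) : An k m n ≠ 0 := by
  intro h
  have h1 := expand_A k m n
  rw [h, map_zero] at h1
  exact Pn_ne k m hk hm hm0 n (pow_eq_zero_iff (n := 2) (by norm_num) |>.1 h1.symm)

/-- `f` on the iterates -/
lemma comp_f (hk : Odd k) (hm : Even m) (hm0 : 0 < m) (hkm : k ≠ m) (n : ℕ) :
    comp (fR k m) (ι (An k m n) / ι (Bn k m n)) = ι (An k m (n + 1)) / ι (Bn k m (n + 1)) ∧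
    comp (fR k m) (ι (Bn k m n) / ι (An k m n)) = ι (Bn k m (n + 1)) / ι (An k m (n + 1)) := by
  have hk0 : 0 < k := hk.pos
  obtain ⟨τ, hτ⟩ := exists_tau
  have hτi : Function.Injective τ := τ.toRingHom.injective
  have hQn := ι_ne (Qn_ne k m hm0 n)
  have hPn := ι_ne (Pn_ne k m hk hm hm0 n)
  have hadd : ∀ a b : ℂ[X], ι (a + b) = ι a + ι b := fun a b => map_add _ a b
  have hsub : ∀ a b : ℂ[X], ι (a - b) = ι a - ι b := fun a b => map_sub _ a b
  have hpow : ∀ (a : ℂ[X]) (j : ℕ), ι (a ^ j) = ι a ^ j := fun a j => map_pow _ a j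
  have hsq : ∀ (y z : RatFunc ℂ), τ y = z ^ 2 → τ (comp (fR k m) y) =
      (aeval z (Pn k m 1) / aeval z (Qn k m 1)) ^ 2 := by
    intro y z hyz
    unfold fR
    rw [comp_div _ _ (AB_coprime k m hk0 hm0 hkm 1) (Bn_ne k m hm0 1), map_div₀,
      ← aeval_algHom_apply, ← aeval_algHom_apply, hyz, ← expand_aeval, ← expand_aeval, expand_A,
      expand_B, map_pow, map_pow, div_pow]
  have h2 : (2 : RatFunc ℂ) ≠ 0 := two_ne_zero
  constructor
  · apply hτi
    rw [hsq _ (ι (Pn k m n) / ι (Qn k m n)), map_div₀, hτ, hτ, expand_A, expand_B, hpow, hpow,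
      ← div_pow]
    · congr 1
      obtain ⟨a1, a2⟩ := aeval_XY k m (ι (Qn k m n)) (2 * ι (Xn k m n)) (2 * ι (Yn k m n))
        (ι (Pn k m n) / ι (Qn k m n))
        (by rw [mul_add, mul_div_cancel₀ _ hQn]; unfold Pn Qn; rw [hadd, hsub]; ring)
        (by rw [mul_sub, mul_div_cancel₀ _ hQn]; unfold Pn Qn; rw [hadd, hsub]; ring)
      have h3 := e_iter_smul k m 1 (2 : RatFunc ℂ) (ι (Xn k m n)) (ι (Yn k m n))
      rw [pow_one, Function.iterate_one, ι_succ] at h3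
      rw [h3] at a1 a2
      simp only at a1 a2
      have hu : (ι (Qn k m n)) ^ (k + m) ≠ 0 := pow_ne_zero _ hQn
      have b1 : ι (Qn k m n) ^ (k + m) * aeval (ι (Pn k m n) / ι (Qn k m n)) (Pn k m 1) =
          2 ^ (k + m) * ι (Pn k m (n + 1)) := by
        have : Pn k m 1 = Xn k m 1 - Yn k m 1 := rfl
        rw [this, map_sub, mul_sub, a1, a2]
        have : Pn k m (n + 1) = Xn k m (n + 1) - Yn k m (n + 1) := rfl
        rw [this, hsub]; ring
      have b2 : ι (Qn k m n) ^ (k + m) * aeval (ι (Pn k m n) / ι (Qn k m n)) (Qn k m 1) =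
          2 ^ (k + m) * ι (Qn k m (n + 1)) := by
        have : Qn k m 1 = Xn k m 1 + Yn k m 1 := rfl
        rw [this, map_add, mul_add, a1, a2]
        have : Qn k m (n + 1) = Xn k m (n + 1) + Yn k m (n + 1) := rfl
        rw [this, hadd]; ring
      rw [← mul_div_mul_left _ _ hu, b1, b2, mul_div_mul_left _ _ (pow_ne_zero _ h2)]
    · rw [map_div₀, hτ, hτ, expand_A, expand_B, hpow, hpow, div_pow]
  · apply hτi
    rw [hsq _ (ι (Qn k m n) / ι (Pn k m n)), map_div₀, hτ, hτ, expand_A, expand_B, hpow, hpow,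
      ← div_pow]
    · congr 1
      obtain ⟨a1, a2⟩ := aeval_XY k m (ι (Pn k m n)) (2 * ι (Xn k m n)) (2 * -ι (Yn k m n))
        (ι (Qn k m n) / ι (Pn k m n))
        (by rw [mul_add, mul_div_cancel₀ _ hPn]; unfold Pn Qn; rw [hadd, hsub]; ring)
        (by rw [mul_sub, mul_div_cancel₀ _ hPn]; unfold Pn Qn; rw [hadd, hsub]; ring)
      have h3 := e_iter_smul k m 1 (2 : RatFunc ℂ) (ι (Xn k m n)) (-ι (Yn k m n))
      rw [e_iter_neg k m 1 hk hm, pow_one, Function.iterate_one, ι_succ] at h3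
      rw [h3] at a1 a2
      simp only at a1 a2
      have hu : (ι (Pn k m n)) ^ (k + m) ≠ 0 := pow_ne_zero _ hPn
      have b1 : ι (Pn k m n) ^ (k + m) * aeval (ι (Qn k m n) / ι (Pn k m n)) (Pn k m 1) =
          2 ^ (k + m) * ι (Qn k m (n + 1)) := by
        have : Pn k m 1 = Xn k m 1 - Yn k m 1 := rfl
        rw [this, map_sub, mul_sub, a1, a2]
        have : Qn k m (n + 1) = Xn k m (n + 1) + Yn k m (n + 1) := rfl
        rw [this, hadd]; ring
      have b2 : ι (Pn k m n) ^ (k + m) * aeval (ι (Qn k m n) / ι (Pn k m n)) (Qn k m 1) =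
          2 ^ (k + m) * ι (Pn k m (n + 1)) := by
        have : Qn k m 1 = Xn k m 1 + Yn k m 1 := rfl
        rw [this, map_add, mul_add, a1, a2]
        have : Pn k m (n + 1) = Xn k m (n + 1) - Yn k m (n + 1) := rfl
        rw [this, hsub]; ring
      rw [← mul_div_mul_left _ _ hu, b1, b2, mul_div_mul_left _ _ (pow_ne_zero _ h2)]
    · rw [map_div₀, hτ, hτ, expand_A, expand_B, hpow, hpow, div_pow]

lemma comp_g (hk : Odd k) (hm : Even m) (hm0 : 0 < m) (hkm : k ≠ m) (y : RatFunc ℂ) :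
    comp (gR k m) y = (comp (fR k m) y)⁻¹ := by
  have hk0 : 0 < k := hk.pos
  have hco := AB_coprime k m hk0 hm0 hkm 1
  unfold fR gR
  rw [comp_div _ _ hco (Bn_ne k m hm0 1), comp_div _ _ hco.symm (An_ne' k m hk hm hm0 1), inv_div]

lemma start : ι (An k m 0) / ι (Bn k m 0) = RatFunc.X := by
  have hA : An k m 0 = C 4 * X := by
    unfold An Pn
    rw [Xn_zero, Yn_zero]
    have : ((1 : ℂ[X]) + X - (1 - X)) ^ 2 = expand ℂ 2 (C 4 * X) := by
      rw [map_mul, expand_C, expand_X]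
      have : (C 4 : ℂ[X]) = 4 := rfl
      rw [this]; ring
    rw [this, contract_expand _ (by norm_num)]
  have hB : Bn k m 0 = C 4 := by
    unfold Bn Qn
    rw [Xn_zero, Yn_zero]
    have : ((1 : ℂ[X]) + X + (1 - X)) ^ 2 = expand ℂ 2 (C 4) := by
      rw [expand_C]
      have : (C 4 : ℂ[X]) = 4 := rfl
      rw [this]; ring
    rw [this, contract_expand _ (by norm_num)]
  rw [hA, hB]
  have h4 : ι (C 4 : ℂ[X]) ≠ 0 := ι_ne (by simp)
  have : ι (C 4 * X : ℂ[X]) = ι (C 4 : ℂ[X]) * ι X := map_mul _ _ _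
  rw [this, mul_div_cancel_left₀ _ h4]
  exact RatFunc.algebraMap_X

lemma iter_f (hk : Odd k) (hm : Even m) (hm0 : 0 < m) (hkm : k ≠ m) (n : ℕ) :
    iter (fR k m) n = ι (An k m n) / ι (Bn k m n) := by
  induction n with
  | zero => rw [start k m]; rfl
  | succ n ih =>
    have h : iter (fR k m) (n + 1) = comp (fR k m) (iter (fR k m) n) :=
      Function.iterate_succ_apply' _ _ _
    rw [h, ih, (comp_f k m hk hm hm0 hkm n).1]

lemma iter_g (hk : Odd k) (hm : Even m) (hm0 : 0 < m) (hkm : k ≠ m) (j : ℕ) :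
    iter (gR k m) (2 * j) = ι (An k m (2 * j)) / ι (Bn k m (2 * j)) ∧
    iter (gR k m) (2 * j + 1) = ι (Bn k m (2 * j + 1)) / ι (An k m (2 * j + 1)) := by
  have key : ∀ j : ℕ, iter (gR k m) (2 * j) = ι (An k m (2 * j)) / ι (Bn k m (2 * j)) →
      iter (gR k m) (2 * j + 1) = ι (Bn k m (2 * j + 1)) / ι (An k m (2 * j + 1)) := by
    intro j ih
    have h : iter (gR k m) (2 * j + 1) = comp (gR k m) (iter (gR k m) (2 * j)) :=
      Function.iterate_succ_apply' _ _ _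
    rw [h, ih, comp_g k m hk hm hm0 hkm, (comp_f k m hk hm hm0 hkm _).1, inv_div]
  have key2 : ∀ j : ℕ, iter (gR k m) (2 * j) = ι (An k m (2 * j)) / ι (Bn k m (2 * j)) := by
    intro j
    induction j with
    | zero => rw [mul_zero, start k m]; rfl
    | succ j ih =>
      have h : iter (gR k m) (2 * j + 1 + 1) = comp (gR k m) (iter (gR k m) (2 * j + 1)) :=
        Function.iterate_succ_apply' _ _ _
      have e : 2 * (j + 1) = 2 * j + 1 + 1 := by ring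
      rw [e, h, key j ih, comp_g k m hk hm hm0 hkm, (comp_f k m hk hm hm0 hkm _).2, inv_div]
  exact ⟨key2 j, key j (key2 j)⟩

theorem sameSpectrum (hk : Odd k) (hm : Even m) (hm0 : 0 < m) (hkm : k ≠ m)
    (ζ η : ℂ) (hζ : ζ ^ m = 1) (hη : η ^ m = 1) (hζ1 : ζ + 1 ≠ 0) (hζ2 : ζ - 1 ≠ 0)
    (hη1 : η + 1 ≠ 0) (hη2 : η - 1 ≠ 0)
    (hn : ∀ n : ℕ, Odd n → ζ ^ k ^ n = -ζ ∧ η ^ k ^ n = -η⁻¹) :
    SameSpectrum (fR k m) (gR k m) := by
  intro n hn1
  rcases Nat.even_or_odd' n with ⟨j, rfl | rfl⟩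
  · rw [iter_f k m hk hm hm0 hkm, (iter_g k m hk hm hm0 hkm j).1]
  · obtain ⟨h1, h2⟩ := hn (2 * j + 1) ⟨j, rfl⟩
    rw [iter_f k m hk hm hm0 hkm, (iter_g k m hk hm hm0 hkm j).2]
    exact spectrum_odd k m hk hm hm0 hkm (2 * j + 1) hn1 ζ η hζ hη hζ1 hζ2 hη1 hη2 h1 h2

lemma deg_fR (hk : Odd k) (hm : Even m) (hm0 : 0 < m) (hkm : k ≠ m) :
    deg (fR k m) = k + m ∧ deg (gR k m) = k + m := by
  have hk0 : 0 < k := hk.pos
  have hco := AB_coprime k m hk0 hm0 hkm 1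
  obtain ⟨h1, h2⟩ := AB_degree k m hk hm hm0 1 le_rfl
  rw [pow_one] at h1 h2
  unfold fR gR
  rw [deg_div _ _ hco (Bn_ne k m hm0 1), deg_div _ _ hco.symm (An_ne' k m hk hm hm0 1), h1]
  exact ⟨max_eq_left (by omega), max_eq_right (by omega)⟩

end

end

end Pool.Agent.H64.MS
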