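import Pool.Agent.H64.MS.D6
import Pool.Agent.H62.MS.Zeta
import Pool.Agent.H40.MS.Rh
import Pool.Agent.H24.MS.El

set_option autoImplicit false

open Polynomial
open Pool.Agent.H884R3.Ms
open Pool.Agent.Helper881.Gp

namespace Pool.Agent.H64.MS

noncomputable section

/-- data of the statement `conj_data` (for the assembly) -/
theorem not_conj (k m : ℕ) (hk : Odd k) (hm : Even m) (hm0 : 0 < m) (hkm : k ≠ m)
    (conj_data : ∀ (p1 q1 : ℂ[X]) (h : ℕ), p1.natDegree = h → q1.natDegree + 1 ≤ h →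
      IsCoprime (X * p1 ^ 2) (q1 ^ 2) →
      Conjugate (ι (X * p1 ^ 2) / ι (q1 ^ 2)) (ι (q1 ^ 2) / ι (X * p1 ^ 2)) →
      ∃ (a b c e κ κ' : ℂ) (P2 Q2 : ℂ[X]), a * e - b * c ≠ 0 ∧ a ≠ 0 ∧ b ≠ 0 ∧ c ≠ 0 ∧ e ≠ 0 ∧
        κ ≠ 0 ∧ κ' ≠ 0 ∧
        C a * (X * p1 ^ 2) + C b * q1 ^ 2 = C κ * (C c * X + C e) * Q2 ^ 2 ∧
        C c * (X * p1 ^ 2) + C e * q1 ^ 2 = C κ' * (C a * X + C b) * P2 ^ 2) :
    ¬ Conjugate (fR k m) (gR k m) := by
  intro hc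
  have hk0 : 0 < k := hk.pos
  obtain ⟨p, hp⟩ := A_form k m 1
  obtain ⟨q, hq⟩ := B_form k m 1
  have hco := AB_coprime k m hk0 hm0 hkm 1
  obtain ⟨h1, h2⟩ := AB_degree k m hk hm hm0 1 le_rfl
  have hA := An_ne' k m hk hm hm0 1
  unfold fR gR at hc
  rw [hp, hq] at hc hco
  rw [hp] at h1 hA
  rw [hq] at h2
  have hp0 : p ≠ 0 := by
    rintro rfl
    apply hA
    simp
  have h3 : p.natDegree * 2 + 1 = (k + m) ^ 1 := by
    rw [← h1, natDegree_X_mul (pow_ne_zero 2 hp0), natDegree_pow]; ring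
  rw [natDegree_pow] at h2
  obtain ⟨a, b, c, e, κ, κ', P2, Q2, hdet, ha, hb, hc', he, hk1, hk2, e1, e2⟩ :=
    conj_data p q p.natDegree rfl (by omega) hco hc
  exact Pool.Agent.H40.MS.rh_contra p q P2 Q2 p.natDegree rfl (by omega) hco a b c e κ κ' hdet ha
    hb hc' he hk1 hk2 e1 e2

end

end Pool.Agent.H64.MS
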