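import Pool.Graph.R_seed8.H884R3.MsConj

set_option autoImplicit false

/-!
The map `E(z) = z^k G(z^m, 1) / G(1, z^m)`, `G(U, V) = ∑ g_i U^i V^(j-i)`, in homogeneous form, its
twisted dihedral symmetry and its iterates in the coordinate `z = (x - y) / (x + y)`.
-/

open Polynomial

namespace Pool.Agent.H64.MG

noncomputable section

/-- first component of the homogeneous form of `E` -/
def e1 {R : Type*} [CommRing R] [Algebra ℂ R] (k m j : ℕ) (g : ℕ → ℂ) (x y : R) : R :=
  ∑ i ∈ Finset.range (j + 1), algebraMap ℂ R (g i) * (x ^ (k + m * i) * y ^ (m * (j - i)))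

/-- homogeneous form of `E` -/
def e {R : Type*} [CommRing R] [Algebra ℂ R] (k m j : ℕ) (g : ℕ → ℂ) (p : R × R) : R × R :=
  (e1 k m j g p.1 p.2, e1 k m j g p.2 p.1)

section gen

variable {R S : Type*} [CommRing R] [CommRing S] [Algebra ℂ R] [Algebra ℂ S]
variable (k m j : ℕ) (g : ℕ → ℂ)

lemma e1_map (φ : R →ₐ[ℂ] S) (x y : R) : e1 k m j g (φ x) (φ y) = φ (e1 k m j g x y) := by
  unfold e1; simp

lemma e_iter_map (φ : R →ₐ[ℂ] S) (n : ℕ) (p : R × R) :
    (e k m j g)^[n] (φ p.1, φ p.2) = (φ ((e k m j g)^[n] p).1, φ ((e k m j g)^[n] p).2) := by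
  induction n with
  | zero => rfl
  | succ n ih =>
    rw [Function.iterate_succ_apply', ih, Function.iterate_succ_apply']
    unfold e
    rw [e1_map, e1_map]

lemma e_iter_swap (n : ℕ) (x y : R) :
    (e k m j g)^[n] (y, x) = (((e k m j g)^[n] (x, y)).2, ((e k m j g)^[n] (x, y)).1) := by
  induction n with
  | zero => rfl
  | succ n ih =>
    rw [Function.iterate_succ_apply', ih, Function.iterate_succ_apply']
    rfl

lemma e1_smul (a x y : R) : e1 k m j g (a * x) (a * y) = a ^ (k + m * j) * e1 k m j g x y := by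
  unfold e1
  rw [Finset.mul_sum]
  apply Finset.sum_congr rfl
  intro i hi
  have hi' : i ≤ j := by rw [Finset.mem_range] at hi; omega
  have h : k + m * j = (k + m * i) + m * (j - i) := by
    rw [add_assoc, ← mul_add, Nat.add_sub_cancel' hi']
  rw [h, mul_pow, mul_pow, pow_add a]
  ring

lemma e_iter_smul (n : ℕ) (a x y : R) :
    (e k m j g)^[n] (a * x, a * y) = (a ^ (k + m * j) ^ n * ((e k m j g)^[n] (x, y)).1,
      a ^ (k + m * j) ^ n * ((e k m j g)^[n] (x, y)).2) := by
  induction n with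
  | zero => simp
  | succ n ih =>
    rw [Function.iterate_succ_apply', ih, Function.iterate_succ_apply', pow_succ (k + m * j) n,
      pow_mul a]
    unfold e
    simp only [e1_smul]

lemma e1_rot (ζ : R) (hζ : ζ ^ m = 1) (x y : R) :
    e1 k m j g (ζ * x) y = ζ ^ k * e1 k m j g x y ∧ e1 k m j g y (ζ * x) = e1 k m j g y x := by
  have h : ∀ i : ℕ, ζ ^ (m * i) = 1 := fun i => by rw [pow_mul, hζ, one_pow]
  unfold e1
  constructor
  · rw [Finset.mul_sum]
    apply Finset.sum_congr rfl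
    intro i _
    rw [mul_pow, pow_add ζ, h, mul_one]; ring
  · apply Finset.sum_congr rfl
    intro i _
    rw [mul_pow ζ x (m * (j - i)), h, one_mul]

lemma e_iter_rot (n : ℕ) (ζ : R) (hζ : ζ ^ m = 1) (x y : R) :
    (e k m j g)^[n] (ζ * x, y) =
      (ζ ^ k ^ n * ((e k m j g)^[n] (x, y)).1, ((e k m j g)^[n] (x, y)).2) := by
  induction n with
  | zero => simp
  | succ n ih =>
    rw [Function.iterate_succ_apply', ih, Function.iterate_succ_apply', pow_succ k n, pow_mul ζ]
    have h1 : (ζ ^ k ^ n) ^ m = 1 := by rw [← pow_mul, mul_comm, pow_mul, hζ, one_pow]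
    unfold e
    simp only [(e1_rot k m j g _ h1 _ _).1, (e1_rot k m j g _ h1 _ _).2]

lemma e1_neg (hk : Odd k) (hm : Even m) (x y : R) :
    e1 k m j g x (-y) = e1 k m j g x y ∧ e1 k m j g (-y) x = -e1 k m j g y x := by
  have h : ∀ i : ℕ, Even (m * i) := fun i => hm.mul_right i
  unfold e1
  constructor
  · apply Finset.sum_congr rfl
    intro i _
    rw [(h _).neg_pow]
  · rw [← Finset.sum_neg_distrib]
    apply Finset.sum_congr rfl
    intro i _
    have hodd : Odd (k + m * i) := hk.add_even (h i)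
    rw [hodd.neg_pow]; ring

lemma e_iter_neg (n : ℕ) (hk : Odd k) (hm : Even m) (x y : R) :
    (e k m j g)^[n] (x, -y) = (((e k m j g)^[n] (x, y)).1, -((e k m j g)^[n] (x, y)).2) := by
  induction n with
  | zero => rfl
  | succ n ih =>
    rw [Function.iterate_succ_apply', ih, Function.iterate_succ_apply']
    unfold e
    simp only [(e1_neg k m j g hk hm _ _).1, (e1_neg k m j g hk hm _ _).2]

end gen

/-- the conditions on the coefficients: `G(1, 1) ≠ 0`, `g_j ≠ 0`, the point `z = 1` is critical,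
and the two components have no common zero -/
structure Good (k m j : ℕ) (g : ℕ → ℂ) : Prop where
  sum_ne : ∑ i ∈ Finset.range (j + 1), g i ≠ 0
  top_ne : g j ≠ 0
  crit : ∑ i ∈ Finset.range (j + 1), g i * ((k : ℂ) + m * i - m * (j - i : ℕ)) = 0
  cop : ∀ u : ℂ, ∑ i ∈ Finset.range (j + 1), g i * u ^ i = 0 →
    ∑ i ∈ Finset.range (j + 1), g i * u ^ (j - i) ≠ 0

section

variable (k m j : ℕ) (g : ℕ → ℂ)

def Xn (n : ℕ) : ℂ[X] := ((e k m j g)^[n] ((1 : ℂ[X]) + X, (1 : ℂ[X]) - X)).1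
def Yn (n : ℕ) : ℂ[X] := ((e k m j g)^[n] ((1 : ℂ[X]) + X, (1 : ℂ[X]) - X)).2
/-- numerator of the `n`-th iterate in the new coordinate -/
def Pn (n : ℕ) : ℂ[X] := Xn k m j g n - Yn k m j g n
/-- denominator of the `n`-th iterate in the new coordinate -/
def Qn (n : ℕ) : ℂ[X] := Xn k m j g n + Yn k m j g n

lemma Xn_zero : Xn k m j g 0 = 1 + X := rfl
lemma Yn_zero : Yn k m j g 0 = 1 - X := rfl

lemma Xn_succ (n : ℕ) : Xn k m j g (n + 1) = e1 k m j g (Xn k m j g n) (Yn k m j g n) := by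
  unfold Xn Yn; rw [Function.iterate_succ_apply']; rfl

lemma Yn_succ (n : ℕ) : Yn k m j g (n + 1) = e1 k m j g (Yn k m j g n) (Xn k m j g n) := by
  unfold Xn Yn; rw [Function.iterate_succ_apply']; rfl

lemma XY_eval (n : ℕ) (z : ℂ) :
    (e k m j g)^[n] (1 + z, 1 - z) = ((Xn k m j g n).eval z, (Yn k m j g n).eval z) := by
  have h := e_iter_map k m j g (aeval z : ℂ[X] →ₐ[ℂ] ℂ) n ((1 : ℂ[X]) + X, (1 : ℂ[X]) - X)
  simp only [coe_aeval_eq_eval, eval_X, eval_one, eval_add, eval_sub] at h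
  exact h

lemma XY_homog (n : ℕ) (v u : ℂ) (hu : u ≠ 0) :
    (e k m j g)^[n] (u + v, u - v) = (u ^ (k + m * j) ^ n * (Xn k m j g n).eval (v / u),
      u ^ (k + m * j) ^ n * (Yn k m j g n).eval (v / u)) := by
  have h := e_iter_smul k m j g n u (1 + v / u) (1 - v / u)
  rw [XY_eval] at h
  have e1 : u * (1 + v / u) = u + v := by field_simp
  have e2 : u * (1 - v / u) = u - v := by field_simp
  rw [e1, e2] at h
  exact h

lemma XY_neg (n : ℕ) (z : ℂ) : (Xn k m j g n).eval (-z) = (Yn k m j g n).eval z := by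
  have h1 := XY_eval k m j g n (-z)
  have h2 := e_iter_swap k m j g n (1 + z) (1 - z)
  rw [XY_eval] at h2
  have e1 : (1 : ℂ) + -z = 1 - z := by ring
  have e2 : (1 : ℂ) - -z = 1 + z := by ring
  rw [e1, e2, h2] at h1
  exact (congrArg Prod.fst h1).symm

lemma P_neg (n : ℕ) (z : ℂ) : (Pn k m j g n).eval (-z) = -(Pn k m j g n).eval z := by
  have h1 := XY_neg k m j g n z
  have h2 := XY_neg k m j g n (-z)
  rw [neg_neg] at h2
  unfold Pn
  rw [eval_sub, eval_sub, h1, ← h2]; ring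

lemma Q_neg (n : ℕ) (z : ℂ) : (Qn k m j g n).eval (-z) = (Qn k m j g n).eval z := by
  have h1 := XY_neg k m j g n z
  have h2 := XY_neg k m j g n (-z)
  rw [neg_neg] at h2
  unfold Qn
  rw [eval_add, eval_add, h1, ← h2]; ring

/-- the symmetry `z ↦ 1 / z` -/
lemma PQ_inv (hk : Odd k) (hm : Even m) (n : ℕ) (z : ℂ) (hz : z ≠ 0) :
    (Qn k m j g n).eval z = z ^ (k + m * j) ^ n * (Pn k m j g n).eval z⁻¹ ∧
      (Pn k m j g n).eval z = z ^ (k + m * j) ^ n * (Qn k m j g n).eval z⁻¹ := by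
  have h1 := XY_homog k m j g n 1 z hz
  have h2 := e_iter_neg k m j g n hk hm (1 + z) (1 - z)
  have e1 : -(1 - z) = z - 1 := by ring
  rw [e1, XY_eval, add_comm (1 : ℂ) z] at h2
  rw [h2, one_div] at h1
  have h3 := congrArg Prod.fst h1
  have h4 := congrArg Prod.snd h1
  simp only at h3 h4
  unfold Qn Pn
  rw [eval_add, eval_sub, eval_add, eval_sub]
  constructor
  · linear_combination h3 - h4
  · linear_combination h3 + h4

/-- at points where `x^m = y^m` -/
lemma e1_eq (x y : ℂ) (h : x ^ m = y ^ m) :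
    e1 k m j g x y = x ^ k * (y ^ m) ^ j * ∑ i ∈ Finset.range (j + 1), g i := by
  unfold e1
  rw [Finset.mul_sum]
  apply Finset.sum_congr rfl
  intro i hi
  have hi' : i ≤ j := by rw [Finset.mem_range] at hi; omega
  rw [pow_add, pow_mul, pow_mul, h]
  have : (y ^ m) ^ j = (y ^ m) ^ i * (y ^ m) ^ (j - i) := by
    rw [← pow_add, Nat.add_sub_cancel' hi']
  rw [this]
  show g i * _ = _
  ring

/-- values at points with `x^m = y^m` -/
lemma iter_eq (hg : Good k m j g) (n : ℕ) (z : ℂ) (hz : (1 + z) ^ m = (1 - z) ^ m)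
    (hz1 : 1 + z ≠ 0) (hz2 : 1 - z ≠ 0) :
    (Xn k m j g n).eval z ^ m = (Yn k m j g n).eval z ^ m ∧ (Xn k m j g n).eval z ≠ 0 ∧
      (Yn k m j g n).eval z ≠ 0 := by
  induction n with
  | zero =>
    rw [Xn_zero, Yn_zero, eval_add, eval_sub, eval_one, eval_X]
    exact ⟨hz, hz1, hz2⟩
  | succ n ih =>
    obtain ⟨h1, h2, h3⟩ := ih
    have hX : (Xn k m j g (n + 1)).eval z =
        e1 k m j g ((Xn k m j g n).eval z) ((Yn k m j g n).eval z) := by
      rw [Xn_succ]
      exact (e1_map k m j g (aeval z : ℂ[X] →ₐ[ℂ] ℂ) _ _).symm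
    have hY : (Yn k m j g (n + 1)).eval z =
        e1 k m j g ((Yn k m j g n).eval z) ((Xn k m j g n).eval z) := by
      rw [Yn_succ]
      exact (e1_map k m j g (aeval z : ℂ[X] →ₐ[ℂ] ℂ) _ _).symm
    rw [hX, hY, e1_eq k m j g _ _ h1, e1_eq k m j g _ _ h1.symm]
    refine ⟨?_, ?_, ?_⟩
    · rw [h1, mul_pow, mul_pow, mul_pow, mul_pow, ← pow_mul _ k m, ← pow_mul _ k m, mul_comm k m,
        pow_mul, pow_mul _ m k, h1]
    · exact mul_ne_zero (mul_ne_zero (pow_ne_zero _ h2) (pow_ne_zero _ (pow_ne_zero _ h3)))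
        hg.sum_ne
    · exact mul_ne_zero (mul_ne_zero (pow_ne_zero _ h3) (pow_ne_zero _ (pow_ne_zero _ h2)))
        hg.sum_ne

lemma PQ_at_zero (hg : Good k m j g) (n : ℕ) :
    (Pn k m j g n).eval 0 = 0 ∧ (Qn k m j g n).eval 0 ≠ 0 := by
  obtain ⟨h1, h2, h3⟩ := iter_eq k m j g hg n 0 (by simp) (by simp) (by simp)
  have h4 := XY_neg k m j g n 0
  rw [neg_zero] at h4
  unfold Pn Qn
  rw [eval_sub, eval_add, h4]
  refine ⟨sub_self _, ?_⟩
  rw [← two_mul]
  exact mul_ne_zero two_ne_zero h3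

lemma e_one (hg : Good k m j g) (n : ℕ) :
    ∃ c : ℂ, c ≠ 0 ∧ (e k m j g)^[n] ((1 : ℂ), (1 : ℂ)) = (c, c) := by
  obtain ⟨h1, h2, h3⟩ := iter_eq k m j g hg n 0 (by simp) (by simp) (by simp)
  have h4 := XY_neg k m j g n 0
  rw [neg_zero] at h4
  have h5 := XY_eval k m j g n 0
  rw [add_zero, sub_zero, h4] at h5
  exact ⟨_, h3, h5⟩

/-- nonvanishing -/
lemma e_ne_zero (hk : 0 < k) (hm0 : 0 < m) (hg : Good k m j g) (p : ℂ × ℂ)
    (h : e k m j g p = (0, 0)) : p = (0, 0) := by
  obtain ⟨x, y⟩ := p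
  have h1 : e1 k m j g x y = 0 := congrArg Prod.fst h
  have h2 : e1 k m j g y x = 0 := congrArg Prod.snd h
  have key : ∀ x y : ℂ, x = 0 → e1 k m j g y x = 0 → y = 0 := by
    intro x y hx h
    unfold e1 at h
    rw [Finset.sum_range_succ, Finset.sum_eq_zero, zero_add, Nat.sub_self, mul_zero, pow_zero,
      mul_one] at h
    · rcases mul_eq_zero.1 h with h | h
      · exact absurd h hg.top_ne
      · exact (pow_eq_zero_iff (by omega)).1 h
    · intro i hi
      rw [Finset.mem_range] at hi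
      have : m * (j - i) ≠ 0 := mul_ne_zero hm0.ne' (by omega)
      rw [hx, zero_pow this, mul_zero, mul_zero]
  by_cases hx : x = 0
  · rw [hx, key x y hx h2]
  · have hy : y ≠ 0 := fun hy => hx (key y x hy h1)
    exfalso
    have f1 : e1 k m j g x y = x ^ k * (y ^ m) ^ j *
        ∑ i ∈ Finset.range (j + 1), g i * ((x / y) ^ m) ^ i := by
      unfold e1
      rw [Finset.mul_sum]
      apply Finset.sum_congr rfl
      intro i hi
      have hi' : i ≤ j := by rw [Finset.mem_range] at hi; omega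
      have h3 : (y ^ m) ^ j = (y ^ m) ^ i * (y ^ m) ^ (j - i) := by
        rw [← pow_add, Nat.add_sub_cancel' hi']
      have h4 : (y ^ m) ^ i ≠ 0 := pow_ne_zero _ (pow_ne_zero _ hy)
      rw [h3, pow_add, pow_mul, pow_mul, div_pow, div_pow]
      show g i * _ = _
      field_simp
    have f2 : e1 k m j g y x = y ^ k * (y ^ m) ^ j *
        ∑ i ∈ Finset.range (j + 1), g i * ((x / y) ^ m) ^ (j - i) := by
      unfold e1
      rw [Finset.mul_sum]
      apply Finset.sum_congr rfl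
      intro i hi
      have hi' : i ≤ j := by rw [Finset.mem_range] at hi; omega
      have h3 : (y ^ m) ^ j = (y ^ m) ^ i * (y ^ m) ^ (j - i) := by
        rw [← pow_add, Nat.add_sub_cancel' hi']
      have h4 : (y ^ m) ^ (j - i) ≠ 0 := pow_ne_zero _ (pow_ne_zero _ hy)
      rw [h3, pow_add, pow_mul, pow_mul, div_pow, div_pow]
      show g i * _ = _
      field_simp
    rw [f1] at h1
    rw [f2] at h2
    have g1 : x ^ k * (y ^ m) ^ j ≠ 0 :=
      mul_ne_zero (pow_ne_zero _ hx) (pow_ne_zero _ (pow_ne_zero _ hy))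
    have g2 : y ^ k * (y ^ m) ^ j ≠ 0 :=
      mul_ne_zero (pow_ne_zero _ hy) (pow_ne_zero _ (pow_ne_zero _ hy))
    exact hg.cop _ ((mul_eq_zero.1 h1).resolve_left g1) ((mul_eq_zero.1 h2).resolve_left g2)

lemma e_iter_ne (hk : 0 < k) (hm0 : 0 < m) (hg : Good k m j g) (n : ℕ) (p : ℂ × ℂ)
    (h : (e k m j g)^[n] p = (0, 0)) : p = (0, 0) := by
  induction n with
  | zero => exact h
  | succ n ih =>
    rw [Function.iterate_succ_apply'] at h
    exact ih (e_ne_zero k m j g hk hm0 hg _ h)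

lemma PQ_coprime_eval (hk : 0 < k) (hm0 : 0 < m) (hg : Good k m j g) (n : ℕ) (z : ℂ) :
    (Pn k m j g n).eval z ≠ 0 ∨ (Qn k m j g n).eval z ≠ 0 := by
  by_contra hcon
  push Not at hcon
  obtain ⟨h1, h2⟩ := hcon
  unfold Pn at h1
  unfold Qn at h2
  rw [eval_sub] at h1
  rw [eval_add] at h2
  have hX : (Xn k m j g n).eval z = 0 := by linear_combination (h1 + h2) / 2
  have hY : (Yn k m j g n).eval z = 0 := by linear_combination (h2 - h1) / 2
  have h3 := XY_eval k m j g n z
  rw [hX, hY] at h3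
  have h4 := e_iter_ne k m j g hk hm0 hg n _ h3
  have h5 := congrArg Prod.fst h4
  have h6 := congrArg Prod.snd h4
  simp only at h5 h6
  have : (2 : ℂ) = 0 := by linear_combination h5 + h6
  norm_num at this

/-- derivative of the first component -/
lemma deriv_e1 (F H : ℂ[X]) : F * H * derivative (e1 k m j g F H) =
    ((k + m * j : ℕ) : ℂ[X]) * (F * derivative H) * e1 k m j g F H +
      (derivative F * H - F * derivative H) *
        ∑ i ∈ Finset.range (j + 1),
          C (g i * ((k : ℂ) + m * i)) * (F ^ (k + m * i) * H ^ (m * (j - i))) := by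
  unfold e1
  rw [derivative_sum, Finset.mul_sum, Finset.mul_sum, Finset.mul_sum, ← Finset.sum_add_distrib]
  apply Finset.sum_congr rfl
  intro i hi
  have hi' : i ≤ j := by rw [Finset.mem_range] at hi; omega
  have hF : F * derivative (F ^ (k + m * i)) =
      ((k + m * i : ℕ) : ℂ[X]) * F ^ (k + m * i) * derivative F := by
    rw [derivative_pow]
    rcases Nat.eq_zero_or_pos (k + m * i) with h | h
    · rw [h]; simp
    · obtain ⟨a, ha⟩ := Nat.exists_eq_succ_of_ne_zero h.ne'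
      rw [ha]
      simp only [Nat.succ_eq_add_one, Nat.add_sub_cancel, map_natCast]
      ring
  have hH : H * derivative (H ^ (m * (j - i))) =
      ((m * (j - i) : ℕ) : ℂ[X]) * H ^ (m * (j - i)) * derivative H := by
    rw [derivative_pow]
    rcases Nat.eq_zero_or_pos (m * (j - i)) with h | h
    · rw [h]; simp
    · obtain ⟨a, ha⟩ := Nat.exists_eq_succ_of_ne_zero h.ne'
      rw [ha]
      simp only [Nat.succ_eq_add_one, Nat.add_sub_cancel, map_natCast]
      ring
  have hsum : ((k + m * j : ℕ) : ℂ[X]) = ((k + m * i : ℕ) : ℂ[X]) + ((m * (j - i) : ℕ) : ℂ[X]) := by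
    rw [← Nat.cast_add]; congr 1
    rw [add_assoc, ← mul_add, Nat.add_sub_cancel' hi']
  have hC : (C (g i * ((k : ℂ) + m * i)) : ℂ[X]) = C (g i) * ((k + m * i : ℕ) : ℂ[X]) := by
    rw [C_mul]; simp
  have hA : (algebraMap ℂ ℂ[X]) (g i) = C (g i) := rfl
  rw [hsum, hC, hA, derivative_mul, derivative_C, zero_mul, zero_add, derivative_mul]
  linear_combination C (g i) * H * H ^ (m * (j - i)) * hF + C (g i) * F * F ^ (k + m * i) * hH

lemma deriv_e1' (F H : ℂ[X]) : F * H * derivative (e1 k m j g H F) =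
    ((k + m * j : ℕ) : ℂ[X]) * (F * derivative H) * e1 k m j g H F +
      (derivative F * H - F * derivative H) *
        ∑ i ∈ Finset.range (j + 1),
          C (g i * ((m : ℂ) * (j - i : ℕ))) * (H ^ (k + m * i) * F ^ (m * (j - i))) := by
  have h := deriv_e1 k m j g H F
  have e1s : e1 k m j g H F * ((k + m * j : ℕ) : ℂ[X]) =
      (∑ i ∈ Finset.range (j + 1),
          C (g i * ((k : ℂ) + m * i)) * (H ^ (k + m * i) * F ^ (m * (j - i)))) +
      ∑ i ∈ Finset.range (j + 1),
          C (g i * ((m : ℂ) * (j - i : ℕ))) * (H ^ (k + m * i) * F ^ (m * (j - i))) := by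
    unfold e1
    rw [Finset.sum_mul, ← Finset.sum_add_distrib]
    apply Finset.sum_congr rfl
    intro i hi
    have hi' : i ≤ j := by rw [Finset.mem_range] at hi; omega
    have hsum : ((k + m * j : ℕ) : ℂ[X]) = C ((k : ℂ) + m * i + m * (j - i : ℕ)) := by
      have : (k + m * j : ℕ) = k + m * i + m * (j - i) := by
        rw [add_assoc, ← mul_add, Nat.add_sub_cancel' hi']
      rw [this]; simp
    have hA : (algebraMap ℂ ℂ[X]) (g i) = C (g i) := rfl
    rw [hsum, hA]
    simp only [C_mul, C_add]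
    ring
  linear_combination h + (derivative F * H - F * derivative H) * e1s

lemma wr_PQ (n : ℕ) : derivative (Pn k m j g n) * Qn k m j g n -
    Pn k m j g n * derivative (Qn k m j g n) =
    2 * (derivative (Xn k m j g n) * Yn k m j g n - Xn k m j g n * derivative (Yn k m j g n)) := by
  unfold Pn Qn
  rw [derivative_sub, derivative_add]
  ring

/-- the Wronskian vanishes where `Xn 0 ^ m = Yn 0 ^ m` -/
lemma wr_zero (hg : Good k m j g) (n : ℕ) (z : ℂ) (hz : (1 + z) ^ m = (1 - z) ^ m)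
    (hz1 : 1 + z ≠ 0) (hz2 : 1 - z ≠ 0) :
    (derivative (Pn k m j g (n + 1)) * Qn k m j g (n + 1) -
      Pn k m j g (n + 1) * derivative (Qn k m j g (n + 1))).eval z = 0 := by
  rw [wr_PQ, eval_mul]
  obtain ⟨h1, h2, h3⟩ := iter_eq k m j g hg n z hz hz1 hz2
  set F := Xn k m j g n with hF
  set H := Yn k m j g n with hH
  have d1 := congrArg (eval z) (deriv_e1 k m j g F H)
  have d2 := congrArg (eval z) (deriv_e1' k m j g F H)
  rw [Xn_succ, Yn_succ, ← hF, ← hH]
  set x := F.eval z with hx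
  set y := H.eval z with hy
  have v1 : (e1 k m j g F H).eval z = x ^ k * (y ^ m) ^ j * ∑ i ∈ Finset.range (j + 1), g i := by
    rw [← e1_eq k m j g x y h1]
    exact (e1_map k m j g (aeval z : ℂ[X] →ₐ[ℂ] ℂ) F H).symm
  have v2 : (e1 k m j g H F).eval z = y ^ k * (x ^ m) ^ j * ∑ i ∈ Finset.range (j + 1), g i := by
    rw [← e1_eq k m j g y x h1.symm]
    exact (e1_map k m j g (aeval z : ℂ[X] →ₐ[ℂ] ℂ) H F).symm
  have s1 : (∑ i ∈ Finset.range (j + 1),
      C (g i * ((k : ℂ) + m * i)) * (F ^ (k + m * i) * H ^ (m * (j - i)))).eval z =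
      x ^ k * (y ^ m) ^ j * ∑ i ∈ Finset.range (j + 1), g i * ((k : ℂ) + m * i) := by
    rw [eval_finsetSum, Finset.mul_sum]
    apply Finset.sum_congr rfl
    intro i hi
    have hi' : i ≤ j := by rw [Finset.mem_range] at hi; omega
    have : (y ^ m) ^ j = (y ^ m) ^ i * (y ^ m) ^ (j - i) := by
      rw [← pow_add, Nat.add_sub_cancel' hi']
    rw [eval_mul, eval_C, eval_mul, eval_pow, eval_pow, ← hx, ← hy, pow_add, pow_mul, pow_mul, h1,
      this]
    ring
  have s2 : (∑ i ∈ Finset.range (j + 1),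
      C (g i * ((m : ℂ) * (j - i : ℕ))) * (H ^ (k + m * i) * F ^ (m * (j - i)))).eval z =
      y ^ k * (x ^ m) ^ j * ∑ i ∈ Finset.range (j + 1), g i * ((m : ℂ) * (j - i : ℕ)) := by
    rw [eval_finsetSum, Finset.mul_sum]
    apply Finset.sum_congr rfl
    intro i hi
    have hi' : i ≤ j := by rw [Finset.mem_range] at hi; omega
    have : (x ^ m) ^ j = (x ^ m) ^ i * (x ^ m) ^ (j - i) := by
      rw [← pow_add, Nat.add_sub_cancel' hi']
    rw [eval_mul, eval_C, eval_mul, eval_pow, eval_pow, ← hx, ← hy, pow_add, pow_mul, pow_mul,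
      ← h1, this]
    ring
  have hc : (∑ i ∈ Finset.range (j + 1), g i * ((k : ℂ) + m * i)) -
      ∑ i ∈ Finset.range (j + 1), g i * ((m : ℂ) * (j - i : ℕ)) = 0 := by
    rw [← Finset.sum_sub_distrib, ← hg.crit]
    apply Finset.sum_congr rfl
    intro i _
    ring
  have w : (derivative F * H - F * derivative H).eval z =
      (derivative F).eval z * y - x * (derivative H).eval z := by
    rw [eval_sub, eval_mul, eval_mul]
  simp only [eval_add, eval_mul, w, v1, v2, s1, s2] at d1 d2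
  rw [← hx, ← hy] at d1 d2
  simp only [eval_sub, eval_mul, v1, v2]
  have hxy : x * y ≠ 0 := mul_ne_zero h2 h3
  have h4 : x * y * ((derivative (e1 k m j g F H)).eval z * (y ^ k * (x ^ m) ^ j *
      ∑ i ∈ Finset.range (j + 1), g i) - x ^ k * (y ^ m) ^ j * (∑ i ∈ Finset.range (j + 1), g i) *
      (derivative (e1 k m j g H F)).eval z) = 0 := by
    linear_combination (y ^ k * (x ^ m) ^ j * ∑ i ∈ Finset.range (j + 1), g i) * d1 -
      (x ^ k * (y ^ m) ^ j * ∑ i ∈ Finset.range (j + 1), g i) * d2 +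
      ((derivative F).eval z * y - x * (derivative H).eval z) * (x ^ k * (y ^ m) ^ j *
      (y ^ k * (x ^ m) ^ j * ∑ i ∈ Finset.range (j + 1), g i)) * hc
  rw [(mul_eq_zero.1 h4).resolve_left hxy, mul_zero]

end

end

end Pool.Agent.H64.MG
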