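import Pool.Agent.H64.MS.G1
import Pool.Agent.H64.MS.D2

set_option autoImplicit false

open Polynomial
open Pool.Agent.H64.MS (deg_of_inv expand_even odd_form)

namespace Pool.Agent.H64.MG

noncomputable section

section

variable (k m j : ℕ) (g : ℕ → ℂ)

lemma XY_natDegree_le (n : ℕ) :
    (Xn k m j g n).natDegree ≤ (k + m * j) ^ n ∧ (Yn k m j g n).natDegree ≤ (k + m * j) ^ n := by
  induction n with
  | zero =>
    rw [Xn_zero, Yn_zero, pow_zero]
    constructor
    · exact (natDegree_add_le _ _).trans (by simp)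
    · exact (natDegree_sub_le _ _).trans (by simp)
  | succ n ih =>
    obtain ⟨hx, hy⟩ := ih
    set D := (k + m * j) ^ n with hD
    have key : ∀ F H : ℂ[X], F.natDegree ≤ D → H.natDegree ≤ D →
        (e1 k m j g F H).natDegree ≤ (k + m * j) * D := by
      intro F H hF hH
      unfold e1
      apply natDegree_sum_le_of_forall_le
      intro i hi
      have hi' : i ≤ j := by rw [Finset.mem_range] at hi; omega
      have hs : (k + m * j) * D = (k + m * i) * D + m * (j - i) * D := by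
        rw [← add_mul, add_assoc, ← mul_add, Nat.add_sub_cancel' hi']
      rw [hs]
      refine (natDegree_C_mul_le _ _).trans (natDegree_mul_le.trans (add_le_add ?_ ?_))
      · exact natDegree_pow_le.trans (Nat.mul_le_mul_left _ hF)
      · exact natDegree_pow_le.trans (Nat.mul_le_mul_left _ hH)
    rw [Xn_succ, Yn_succ, pow_succ, ← hD, mul_comm D]
    exact ⟨key _ _ hx hy, key _ _ hy hx⟩

lemma PQ_natDegree_le (n : ℕ) :
    (Pn k m j g n).natDegree ≤ (k + m * j) ^ n ∧ (Qn k m j g n).natDegree ≤ (k + m * j) ^ n := by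
  obtain ⟨h1, h2⟩ := XY_natDegree_le k m j g n
  exact ⟨(natDegree_sub_le _ _).trans (max_le h1 h2), (natDegree_add_le _ _).trans (max_le h1 h2)⟩

lemma dP_zero (hg : Good k m j g) (n : ℕ) (hn : 1 ≤ n) :
    (derivative (Pn k m j g n)).eval 0 = 0 := by
  obtain ⟨l, rfl⟩ := Nat.exists_eq_add_of_le' hn
  have h := wr_zero k m j g hg l 0 (by simp) (by simp) (by simp)
  obtain ⟨h1, h2⟩ := PQ_at_zero k m j g hg (l + 1)
  rw [eval_sub, eval_mul, eval_mul, h1, zero_mul, sub_zero] at h
  rcases mul_eq_zero.1 h with h | h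
  · exact h
  · exact absurd h h2

lemma PQ_degree (hk : Odd k) (hm : Even m) (hg : Good k m j g) (n : ℕ) (hn : 1 ≤ n) :
    (Pn k m j g n).natDegree = (k + m * j) ^ n ∧ (Qn k m j g n).natDegree + 2 ≤ (k + m * j) ^ n := by
  obtain ⟨h1, h2⟩ := PQ_natDegree_le k m j g n
  obtain ⟨h3, h4⟩ := PQ_at_zero k m j g hg n
  exact deg_of_inv _ _ _ h1 h2 (fun z hz => (PQ_inv k m j g hk hm n z hz).2) h4 h3
    (dP_zero k m j g hg n hn)

/-- numerator and denominator of the iterates of `f` -/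
def An (n : ℕ) : ℂ[X] := contract 2 (Pn k m j g n ^ 2)
def Bn (n : ℕ) : ℂ[X] := contract 2 (Qn k m j g n ^ 2)

lemma expand_A (n : ℕ) : expand ℂ 2 (An k m j g n) = Pn k m j g n ^ 2 := by
  apply expand_even
  intro z
  rw [eval_pow, eval_pow, P_neg, neg_sq]

lemma expand_B (n : ℕ) : expand ℂ 2 (Bn k m j g n) = Qn k m j g n ^ 2 := by
  apply expand_even
  intro z
  rw [eval_pow, eval_pow, Q_neg]

lemma A_eval (n : ℕ) (z : ℂ) : (An k m j g n).eval (z ^ 2) = (Pn k m j g n).eval z ^ 2 := by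
  have := congrArg (eval z) (expand_A k m j g n)
  rwa [expand_eval, eval_pow] at this

lemma B_eval (n : ℕ) (z : ℂ) : (Bn k m j g n).eval (z ^ 2) = (Qn k m j g n).eval z ^ 2 := by
  have := congrArg (eval z) (expand_B k m j g n)
  rwa [expand_eval, eval_pow] at this

lemma AB_coprime (hk : 0 < k) (hm0 : 0 < m) (hg : Good k m j g) (n : ℕ) :
    IsCoprime (An k m j g n) (Bn k m j g n) := by
  rw [isCoprime_iff_aeval_ne_zero_of_isAlgClosed ℂ ℂ]
  intro w
  obtain ⟨z, rfl⟩ : ∃ z : ℂ, z ^ 2 = w := IsAlgClosed.exists_pow_nat_eq w (by norm_num)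
  rw [coe_aeval_eq_eval, A_eval, B_eval]
  rcases PQ_coprime_eval k m j g hk hm0 hg n z with h | h
  · exact Or.inl (pow_ne_zero 2 h)
  · exact Or.inr (pow_ne_zero 2 h)

lemma AB_degree (hk : Odd k) (hm : Even m) (hg : Good k m j g) (n : ℕ) (hn : 1 ≤ n) :
    (An k m j g n).natDegree = (k + m * j) ^ n ∧ (Bn k m j g n).natDegree + 2 ≤ (k + m * j) ^ n := by
  obtain ⟨h1, h2⟩ := PQ_degree k m j g hk hm hg n hn
  have h3 := congrArg natDegree (expand_A k m j g n)
  have h4 := congrArg natDegree (expand_B k m j g n)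
  rw [natDegree_expand, natDegree_pow] at h3 h4
  constructor <;> omega

lemma A_form (n : ℕ) : ∃ p : ℂ[X], An k m j g n = X * p ^ 2 := by
  obtain ⟨p, hp⟩ := odd_form (Pn k m j g n) (P_neg k m j g n)
  refine ⟨p, ?_⟩
  unfold An
  have : Pn k m j g n ^ 2 = expand ℂ 2 (X * p ^ 2) := by
    rw [hp, map_mul, expand_X, map_pow]; ring
  rw [this, contract_expand _ (by norm_num)]

lemma B_form (n : ℕ) : ∃ q : ℂ[X], Bn k m j g n = q ^ 2 := by
  refine ⟨contract 2 (Qn k m j g n), ?_⟩
  unfold Bn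
  have h := expand_even (Qn k m j g n) (Q_neg k m j g n)
  have : Qn k m j g n ^ 2 = expand ℂ 2 (contract 2 (Qn k m j g n) ^ 2) := by
    rw [map_pow, h]
  conv_lhs => rw [this]
  rw [contract_expand _ (by norm_num)]

lemma An_ne (hk : Odd k) (hm : Even m) (hg : Good k m j g) (n : ℕ) (hn : 1 ≤ n) : An k m j g n ≠ 0 := by
  intro h
  have := (AB_degree k m j g hk hm hg n hn).1
  rw [h, natDegree_zero] at this
  have h2 : 0 < (k + m * j) ^ n := by have := hk.pos; positivity
  omega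

lemma Bn_ne (hg : Good k m j g) (n : ℕ) : Bn k m j g n ≠ 0 := by
  intro h
  have h1 := B_eval k m j g n 0
  rw [h, eval_zero] at h1
  exact (PQ_at_zero k m j g hg n).2 (pow_eq_zero_iff (n := 2) (by norm_num) |>.1 h1.symm)

end

end

end Pool.Agent.H64.MG
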