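import Pool.Agent.H64.MS.G2
import Pool.Agent.H64.MS.D4

set_option autoImplicit false

open Polynomial
open Pool.Agent.H884R3.Ms (mu)
open Pool.Agent.H64.MS (T half)

namespace Pool.Agent.H64.MG

noncomputable section

section

variable (k m j : ℕ) (g : ℕ → ℂ)

/-- `T` in the old coordinates is the rotation by `ζ` -/
lemma XY_T (n : ℕ) (ζ : ℂ) (hζ : ζ ^ m = 1) (hζ1 : ζ + 1 ≠ 0) (z : ℂ)
    (hz : (ζ - 1) / (ζ + 1) * z + 1 ≠ 0) :
    ((ζ - 1) / (ζ + 1) * z + 1) ^ (k + m * j) ^ n * (Xn k m j g n).eval (T ((ζ - 1) / (ζ + 1)) z) =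
      ζ ^ k ^ n * ((2 / (ζ + 1)) ^ (k + m * j) ^ n * (Xn k m j g n).eval z) ∧
    ((ζ - 1) / (ζ + 1) * z + 1) ^ (k + m * j) ^ n * (Yn k m j g n).eval (T ((ζ - 1) / (ζ + 1)) z) =
      (2 / (ζ + 1)) ^ (k + m * j) ^ n * (Yn k m j g n).eval z := by
  set t := (ζ - 1) / (ζ + 1) with ht
  set b := 2 / (ζ + 1) with hb
  have h1 := XY_homog k m j g n (z + t) (t * z + 1) hz
  have e1 : t * z + 1 + (z + t) = ζ * (b * (1 + z)) := by
    rw [ht, hb]; field_simp; ring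
  have e2 : t * z + 1 - (z + t) = b * (1 - z) := by
    rw [ht, hb]; field_simp; ring
  rw [e1, e2, e_iter_rot k m j g n ζ hζ, e_iter_smul, XY_eval] at h1
  have h2 := congrArg Prod.fst h1
  have h3 := congrArg Prod.snd h1
  simp only at h2 h3
  exact ⟨h2.symm, h3.symm⟩

/-- the value at `T ∞ = 1 / t` -/
lemma XY_inf (hk : Odd k) (hm : Even m) (hg : Good k m j g) (n : ℕ) (ζ : ℂ) (hζ : ζ ^ m = 1)
    (hζ1 : ζ + 1 ≠ 0) (hζ2 : ζ - 1 ≠ 0) : ∃ C : ℂ,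
    (Xn k m j g n).eval (1 / ((ζ - 1) / (ζ + 1))) = ζ ^ k ^ n * C ∧
    (Yn k m j g n).eval (1 / ((ζ - 1) / (ζ + 1))) = -C := by
  set t := (ζ - 1) / (ζ + 1) with ht
  set b := 2 / (ζ + 1) with hb
  have ht0 : t ≠ 0 := by rw [ht]; exact div_ne_zero hζ2 hζ1
  have h1 := XY_homog k m j g n 1 t ht0
  have e1 : t + 1 = ζ * b := by rw [ht, hb]; field_simp; ring
  have e2 : t - 1 = -b := by rw [ht, hb]; field_simp; ring
  obtain ⟨c, hc, h⟩ := e_one k m j g hg n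
  have h4 := e_iter_smul k m j g n b 1 1
  rw [mul_one, h] at h4
  rw [e1, e2, e_iter_rot k m j g n ζ hζ, e_iter_neg k m j g n hk hm, h4] at h1
  have h2 := congrArg Prod.fst h1
  have h3 := congrArg Prod.snd h1
  simp only at h2 h3
  have hp : t ^ (k + m * j) ^ n ≠ 0 := pow_ne_zero _ ht0
  refine ⟨b ^ (k + m * j) ^ n * c / t ^ (k + m * j) ^ n, ?_, ?_⟩
  · rw [eq_comm, ← mul_div_assoc, div_eq_iff hp, h2]; ring
  · rw [eq_comm, ← neg_div, div_eq_iff hp, h3]; ring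

lemma wr_at (hg : Good k m j g) (hm : Even m) (hm0 : 0 < m) (n : ℕ) (hn : 1 ≤ n) (ζ : ℂ)
    (hζ : ζ ^ m = 1) (_hζ1 : ζ + 1 ≠ 0) (hζ2 : ζ - 1 ≠ 0) :
    (derivative (Pn k m j g n) * Qn k m j g n - Pn k m j g n * derivative (Qn k m j g n)).eval
      (-1 / ((ζ - 1) / (ζ + 1))) = 0 := by
  obtain ⟨l, rfl⟩ := Nat.exists_eq_add_of_le' hn
  have hζ0 : ζ ≠ 0 := by rintro rfl; rw [zero_pow hm0.ne'] at hζ; norm_num at hζ
  have e1 : 1 + -1 / ((ζ - 1) / (ζ + 1)) = -(2 / (ζ - 1)) := by field_simp; ring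
  have e2 : 1 - -1 / ((ζ - 1) / (ζ + 1)) = ζ * (2 / (ζ - 1)) := by field_simp; ring
  have hb : (2 / (ζ - 1) : ℂ) ≠ 0 := div_ne_zero two_ne_zero hζ2
  apply wr_zero k m j g hg l
  · rw [e1, e2, hm.neg_pow, mul_pow, hζ, one_mul]
  · rw [e1]; exact neg_ne_zero.mpr hb
  · rw [e2]; exact mul_ne_zero hζ0 hb

/-- `E^n` and `1 / E^n` -/
lemma half_plus (hk : Odd k) (hm : Even m) (hm0 : 0 < m) (hg : Good k m j g) (n : ℕ) (hn : 1 ≤ n)
    (ζ : ℂ) (hζ : ζ ^ m = 1) (hζ1 : ζ + 1 ≠ 0) (hζ2 : ζ - 1 ≠ 0) (hζk : ζ ^ k ^ n = -ζ) :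
    (Qn k m j g n - X * Pn k m j g n).roots.map (mu (Qn k m j g n) (Pn k m j g n)) =
      0 ::ₘ (Pn k m j g n - X * Qn k m j g n).roots.map (mu (Pn k m j g n) (Qn k m j g n)) := by
  have hk0 : 0 < k := hk.pos
  obtain ⟨h1, h2⟩ := PQ_degree k m j g hk hm hg n hn
  have hζ0 : ζ ≠ 0 := by rintro rfl; rw [zero_pow hm0.ne'] at hζ; norm_num at hζ
  have hb : (2 / (ζ + 1) : ℂ) ≠ 0 := div_ne_zero two_ne_zero hζ1
  refine half _ _ ((k + m * j) ^ n) ((ζ - 1) / (ζ + 1))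
    (-((2 / (ζ + 1)) ^ (k + m * j) ^ n * ((ζ + 1) / 2))) h1 h2
    (PQ_coprime_eval k m j g hk0 hm0 hg n) (div_ne_zero hζ2 hζ1) ?_ ?_ ?_ ?_
    (wr_at k m j g hg hm hm0 n hn ζ hζ hζ1 hζ2)
  · have : 1 - ((ζ - 1) / (ζ + 1)) ^ 2 = 4 * ζ / (ζ + 1) ^ 2 := by field_simp; ring
    rw [this]
    exact div_ne_zero (mul_ne_zero (by norm_num) hζ0) (pow_ne_zero _ hζ1)
  · exact neg_ne_zero.mpr (mul_ne_zero (pow_ne_zero _ hb) (div_ne_zero hζ1 two_ne_zero))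
  · obtain ⟨C, h3, h4⟩ := XY_inf k m j g hk hm hg n ζ hζ hζ1 hζ2
    unfold Pn Qn
    rw [eval_sub, eval_add, h3, h4, hζk]
    field_simp
    ring
  · intro z hz
    obtain ⟨h3, h4⟩ := XY_T k m j g n ζ hζ hζ1 z hz
    rw [hζk] at h3
    have ht : (ζ - 1) / (ζ + 1) * (ζ + 1) = ζ - 1 := div_mul_cancel₀ _ hζ1
    set t := (ζ - 1) / (ζ + 1)
    set B := (2 / (ζ + 1)) ^ (k + m * j) ^ n
    unfold Pn Qn
    rw [eval_sub, eval_add, eval_sub, eval_add]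
    constructor
    · linear_combination h3 - h4 + B / 2 * ((Xn k m j g n).eval z - (Yn k m j g n).eval z) * ht
    · linear_combination h3 + h4 + B / 2 * ((Xn k m j g n).eval z + (Yn k m j g n).eval z) * ht

/-- `-E^n` and `-1 / E^n` -/
lemma half_minus (hk : Odd k) (hm : Even m) (hm0 : 0 < m) (hg : Good k m j g) (n : ℕ) (hn : 1 ≤ n)
    (ζ : ℂ) (hζ : ζ ^ m = 1) (hζ1 : ζ + 1 ≠ 0) (hζ2 : ζ - 1 ≠ 0) (hζk : ζ ^ k ^ n = -ζ⁻¹) :
    (Qn k m j g n - X * -Pn k m j g n).roots.map (mu (Qn k m j g n) (-Pn k m j g n)) =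
      0 ::ₘ (-Pn k m j g n - X * Qn k m j g n).roots.map (mu (-Pn k m j g n) (Qn k m j g n)) := by
  have hk0 : 0 < k := hk.pos
  obtain ⟨h1, h2⟩ := PQ_degree k m j g hk hm hg n hn
  have hζ0 : ζ ≠ 0 := by rintro rfl; rw [zero_pow hm0.ne'] at hζ; norm_num at hζ
  have hb : (2 / (ζ + 1) : ℂ) ≠ 0 := div_ne_zero two_ne_zero hζ1
  refine half _ _ ((k + m * j) ^ n) ((ζ - 1) / (ζ + 1))
    ((2 / (ζ + 1)) ^ (k + m * j) ^ n * ((ζ + 1) / 2) * ζ⁻¹) (by rw [natDegree_neg]; exact h1) h2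
    ?_ (div_ne_zero hζ2 hζ1) ?_ ?_ ?_ ?_ ?_
  · intro z
    rw [eval_neg, neg_ne_zero]
    exact PQ_coprime_eval k m j g hk0 hm0 hg n z
  · have : 1 - ((ζ - 1) / (ζ + 1)) ^ 2 = 4 * ζ / (ζ + 1) ^ 2 := by field_simp; ring
    rw [this]
    exact div_ne_zero (mul_ne_zero (by norm_num) hζ0) (pow_ne_zero _ hζ1)
  · exact mul_ne_zero (mul_ne_zero (pow_ne_zero _ hb) (div_ne_zero hζ1 two_ne_zero))
      (inv_ne_zero hζ0)
  · obtain ⟨C, h3, h4⟩ := XY_inf k m j g hk hm hg n ζ hζ hζ1 hζ2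
    unfold Pn Qn
    rw [eval_neg, eval_sub, eval_add, h3, h4, hζk]
    field_simp
    ring
  · intro z hz
    obtain ⟨h3, h4⟩ := XY_T k m j g n ζ hζ hζ1 z hz
    rw [hζk] at h3
    have ht : (ζ - 1) / (ζ + 1) * (ζ + 1) = ζ - 1 := div_mul_cancel₀ _ hζ1
    have hinv : ζ⁻¹ * ζ = 1 := inv_mul_cancel₀ hζ0
    set t := (ζ - 1) / (ζ + 1)
    set B := (2 / (ζ + 1)) ^ (k + m * j) ^ n
    unfold Pn Qn
    rw [eval_neg, eval_neg, eval_sub, eval_add, eval_sub, eval_add]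
    constructor
    · linear_combination -h3 + h4 + B * ζ⁻¹ / 2 * ((Xn k m j g n).eval z - (Yn k m j g n).eval z) * ht
        - B * (Yn k m j g n).eval z * hinv
    · linear_combination h3 + h4 - B * ζ⁻¹ / 2 * ((Xn k m j g n).eval z + (Yn k m j g n).eval z) * ht
        - B * (Yn k m j g n).eval z * hinv
  · have h := wr_at k m j g hg hm hm0 n hn ζ hζ hζ1 hζ2
    have e : derivative (-Pn k m j g n) * Qn k m j g n - -Pn k m j g n * derivative (Qn k m j g n) =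
        -(derivative (Pn k m j g n) * Qn k m j g n - Pn k m j g n * derivative (Qn k m j g n)) := by
      rw [derivative_neg]; ring
    rw [e, eval_neg, h, neg_zero]

end

end

end Pool.Agent.H64.MG
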