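import Pool.Agent.H64.MS.G4
import Pool.Agent.H64.MS.D5

set_option autoImplicit false

open Polynomial
open Pool.Agent.H884R3.Ms (mu ι fixMultipliers fixMult_div natDegree_sub_aux natDegree_add_aux)
open Pool.Agent.H64.MS (mu_sq mu_zero double_roots odd_form)

namespace Pool.Agent.H64.MG

noncomputable section

section

variable (k m j : ℕ) (g : ℕ → ℂ)

lemma A_at_zero (hg : Good k m j g) (n : ℕ) (hn : 1 ≤ n) :
    (An k m j g n).eval 0 = 0 ∧ (derivative (An k m j g n)).eval 0 = 0 := by
  obtain ⟨p, hp⟩ := odd_form (Pn k m j g n) (P_neg k m j g n)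
  have hA : An k m j g n = X * p ^ 2 := by
    unfold An
    have : Pn k m j g n ^ 2 = expand ℂ 2 (X * p ^ 2) := by
      rw [hp, map_mul, expand_X, map_pow]; ring
    rw [this, contract_expand _ (by norm_num)]
  have h1 := dP_zero k m j g hg n hn
  have h2 : p.eval 0 = 0 := by
    rw [hp, derivative_mul, derivative_X, eval_add, eval_mul, eval_mul, eval_X, eval_one,
      zero_mul, one_mul, add_zero, expand_eval] at h1
    simpa using h1
  rw [hA]
  constructor
  · simp
  · rw [derivative_mul, derivative_X, eval_add, eval_mul, eval_mul, eval_X, eval_one, eval_pow, h2]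
    simp

/-- passing from the fixed points of `f^n` to those of `E^n` -/
lemma side_A (hk : Odd k) (hm : Even m) (hm0 : 0 < m) (hg : Good k m j g) (n : ℕ) (hn : 1 ≤ n)
    (P : ℂ[X]) (hP : P = Pn k m j g n ∨ P = -Pn k m j g n) :
    (P - X * Qn k m j g n).roots.map (mu (An k m j g n) (Bn k m j g n) ∘ fun ρ => ρ ^ 2) =
      (P - X * Qn k m j g n).roots.map (mu P (Qn k m j g n)) := by
  have hk0 : 0 < k := hk.pos
  have hP2 : expand ℂ 2 (An k m j g n) = P ^ 2 := by
    rw [expand_A]
    rcases hP with h | h <;> rw [h]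
    ring
  have hcop : ∀ z : ℂ, P.eval z ≠ 0 ∨ (Qn k m j g n).eval z ≠ 0 := by
    intro z
    rcases hP with h | h <;> rw [h]
    · exact PQ_coprime_eval k m j g hk0 hm0 hg n z
    · rw [eval_neg, neg_ne_zero]
      exact PQ_coprime_eval k m j g hk0 hm0 hg n z
  have hP0 : P.eval 0 = 0 := by
    rcases hP with h | h <;> rw [h]
    · exact (PQ_at_zero k m j g hg n).1
    · rw [eval_neg, (PQ_at_zero k m j g hg n).1, neg_zero]
  have hdP0 : (derivative P).eval 0 = 0 := by
    rcases hP with h | h <;> rw [h]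
    · exact dP_zero k m j g hg n hn
    · rw [derivative_neg, eval_neg, dP_zero k m j g hg n hn, neg_zero]
  apply Multiset.map_congr rfl
  intro ρ hρ
  show mu (An k m j g n) (Bn k m j g n) (ρ ^ 2) = _
  have hne : P - X * Qn k m j g n ≠ 0 := by
    intro h; rw [h, roots_zero] at hρ; simp at hρ
  rcases eq_or_ne ρ 0 with rfl | hρ0
  · obtain ⟨a1, a2⟩ := A_at_zero k m j g hg n hn
    rw [zero_pow (by norm_num), mu_zero _ _ a1 a2, mu_zero _ _ hP0 hdP0]
  · have hfix : P.eval ρ = ρ * (Qn k m j g n).eval ρ := by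
      rw [mem_roots hne, IsRoot, eval_sub, eval_mul, eval_X] at hρ
      linear_combination hρ
    have hQ : (Qn k m j g n).eval ρ ≠ 0 := by
      rcases hcop ρ with h | h
      · intro h'
        apply h
        rw [hfix, h', mul_zero]
      · exact h
    exact mu_sq _ _ _ _ hP2 (expand_B k m j g n) ρ hρ0 hQ hfix

lemma side_B (hk : Odd k) (hm : Even m) (hm0 : 0 < m) (hg : Good k m j g) (n : ℕ) (hn : 1 ≤ n)
    (P : ℂ[X]) (hP : P = Pn k m j g n ∨ P = -Pn k m j g n) :
    (Qn k m j g n - X * P).roots.map (mu (Bn k m j g n) (An k m j g n) ∘ fun ρ => ρ ^ 2) =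
      (Qn k m j g n - X * P).roots.map (mu (Qn k m j g n) P) := by
  have hk0 : 0 < k := hk.pos
  have hP2 : expand ℂ 2 (An k m j g n) = P ^ 2 := by
    rw [expand_A]
    rcases hP with h | h <;> rw [h]
    ring
  have hcop : ∀ z : ℂ, P.eval z ≠ 0 ∨ (Qn k m j g n).eval z ≠ 0 := by
    intro z
    rcases hP with h | h <;> rw [h]
    · exact PQ_coprime_eval k m j g hk0 hm0 hg n z
    · rw [eval_neg, neg_ne_zero]
      exact PQ_coprime_eval k m j g hk0 hm0 hg n z
  have hP0 : P.eval 0 = 0 := by
    rcases hP with h | h <;> rw [h]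
    · exact (PQ_at_zero k m j g hg n).1
    · rw [eval_neg, (PQ_at_zero k m j g hg n).1, neg_zero]
  apply Multiset.map_congr rfl
  intro ρ hρ
  show mu (Bn k m j g n) (An k m j g n) (ρ ^ 2) = _
  have hne : Qn k m j g n - X * P ≠ 0 := by
    intro h; rw [h, roots_zero] at hρ; simp at hρ
  have hfix : (Qn k m j g n).eval ρ = ρ * P.eval ρ := by
    rw [mem_roots hne, IsRoot, eval_sub, eval_mul, eval_X] at hρ
    linear_combination hρ
  have hPρ : P.eval ρ ≠ 0 := by
    rcases hcop ρ with h | h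
    · exact h
    · intro h'
      apply h
      rw [hfix, h', mul_zero]
  have hρ0 : ρ ≠ 0 := by
    rintro rfl
    exact hPρ hP0
  exact mu_sq _ _ _ _ (expand_B k m j g n) hP2 ρ hρ0 hPρ hfix

/-- the multipliers of `f^n` and of `1 / f^n`, `n` odd -/
lemma spectrum_odd (hk : Odd k) (hm : Even m) (hm0 : 0 < m) (hg : Good k m j g) (n : ℕ) (hn : 1 ≤ n)
    (ζ η : ℂ) (hζ : ζ ^ m = 1) (hη : η ^ m = 1) (hζ1 : ζ + 1 ≠ 0) (hζ2 : ζ - 1 ≠ 0)
    (hη1 : η + 1 ≠ 0) (hη2 : η - 1 ≠ 0) (hζk : ζ ^ k ^ n = -ζ) (hηk : η ^ k ^ n = -η⁻¹) :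
    fixMultipliers (ι (An k m j g n) / ι (Bn k m j g n)) =
      fixMultipliers (ι (Bn k m j g n) / ι (An k m j g n)) := by
  have hk0 : 0 < k := hk.pos
  obtain ⟨d1, d2⟩ := AB_degree k m j g hk hm hg n hn
  obtain ⟨d3, d4⟩ := PQ_degree k m j g hk hm hg n hn
  have hA0 := An_ne k m j g hk hm hg n hn
  have hB0 := Bn_ne k m j g hg n
  have hco := AB_coprime k m j g hk0 hm0 hg n
  have hD : 0 < (k + m * j) ^ n := by positivity
  rw [fixMult_div _ _ hco hB0, fixMult_div _ _ hco.symm hA0, natDegree_sub_aux _ _ _ d1 d2,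
    max_eq_left (by omega), max_eq_right (by omega), d1]
  have hdeg : (Bn k m j g n - X * An k m j g n).natDegree = (k + m * j) ^ n + 1 := by
    have h := natDegree_add_aux (An k m j g n) (-Bn k m j g n) _ d1 (by rw [natDegree_neg]; exact d2)
    have e : Bn k m j g n - X * An k m j g n = -(-Bn k m j g n + X * An k m j g n) := by ring
    rw [e, natDegree_neg]
    exact h
  have hcoef : (Bn k m j g n).coeff ((k + m * j) ^ n - 1) = 0 := coeff_eq_zero_of_natDegree_lt (by omega)
  rw [hdeg, hcoef, Nat.sub_self, Multiset.replicate_zero, add_zero, zero_div,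
    Nat.add_sub_cancel_left, Multiset.replicate_one]
  -- the polynomials on the level of `E`
  have hΦp : Pn k m j g n - X * Qn k m j g n ≠ 0 := by
    intro h
    have := natDegree_sub_aux _ _ _ d3 d4
    rw [h, natDegree_zero] at this
    omega
  have hΦm : -Pn k m j g n - X * Qn k m j g n ≠ 0 := by
    intro h
    have := natDegree_sub_aux (-Pn k m j g n) (Qn k m j g n) _ (by rw [natDegree_neg]; exact d3) d4
    rw [h, natDegree_zero] at this
    omega
  have hQ0 := (PQ_at_zero k m j g hg n).2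
  have hΨp : Qn k m j g n - X * Pn k m j g n ≠ 0 := by
    intro h
    have := congrArg (eval 0) h
    rw [eval_sub, eval_mul, eval_X, zero_mul, sub_zero, eval_zero] at this
    exact hQ0 this
  have hΨm : Qn k m j g n - X * -Pn k m j g n ≠ 0 := by
    intro h
    have := congrArg (eval 0) h
    rw [eval_sub, eval_mul, eval_X, zero_mul, sub_zero, eval_zero] at this
    exact hQ0 this
  have r1 := double_roots (An k m j g n - X * Bn k m j g n) _ _ hΦp hΦm (by
    intro z
    simp only [eval_sub, eval_mul, eval_X, eval_neg, A_eval, B_eval, P_neg, Q_neg]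
    ring)
  have r2 := double_roots (Bn k m j g n - X * An k m j g n) _ _ hΨp hΨm (by
    intro z
    simp only [eval_sub, eval_mul, eval_X, eval_neg, A_eval, B_eval, P_neg, Q_neg]
    ring)
  have s1 := congrArg (Multiset.map (mu (An k m j g n) (Bn k m j g n))) r1
  have s2 := congrArg (Multiset.map (mu (Bn k m j g n) (An k m j g n))) r2
  rw [Multiset.map_add, Multiset.map_map, Multiset.map_add,
    side_A k m j g hk hm hm0 hg n hn _ (Or.inl rfl), side_A k m j g hk hm hm0 hg n hn _ (Or.inr rfl)]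
    at s1
  rw [Multiset.map_add, Multiset.map_map, Multiset.map_add,
    side_B k m j g hk hm hm0 hg n hn _ (Or.inl rfl), side_B k m j g hk hm hm0 hg n hn _ (Or.inr rfl),
    half_plus k m j g hk hm hm0 hg n hn ζ hζ hζ1 hζ2 hζk,
    half_minus k m j g hk hm hm0 hg n hn η hη hη1 hη2 hηk] at s2
  ext a
  have c1 := congrArg (Multiset.count a) s1
  have c2 := congrArg (Multiset.count a) s2
  rw [Multiset.count_add, Multiset.count_add] at c1 c2
  rw [Multiset.count_add]
  rw [Multiset.count_cons, Multiset.count_cons] at c2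
  rw [Multiset.count_singleton]
  split_ifs at c2 ⊢ <;> omega

end

end

end Pool.Agent.H64.MG
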