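import Pool.Agent.H64.MS.G5
import Pool.Agent.H64.MS.D6

set_option autoImplicit false

open Polynomial
open Pool.Agent.H884R3.Ms (mu ι ι_ne bridge deg_div SameSpectrum Conjugate)
open Pool.Agent.Helper881.Gp
open Pool.Agent.H64.MS (exists_tau comp_div)

namespace Pool.Agent.H64.MG

noncomputable section

section

variable (k m j : ℕ) (g : ℕ → ℂ)

/-- the map `f` and the map `g = 1 / f` -/
def fR : RatFunc ℂ := ι (An k m j g 1) / ι (Bn k m j g 1)
def gR : RatFunc ℂ := ι (Bn k m j g 1) / ι (An k m j g 1)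

/-- the action of `E` on a fraction -/
lemma aeval_XY (u x y z : RatFunc ℂ) (h1 : u * (1 + z) = x) (h2 : u * (1 - z) = y) :
    u ^ (k + m * j) * aeval z (Xn k m j g 1) = (e k m j g (x, y)).1 ∧
      u ^ (k + m * j) * aeval z (Yn k m j g 1) = (e k m j g (x, y)).2 := by
  have h := e_iter_map k m j g (aeval z : ℂ[X] →ₐ[ℂ] RatFunc ℂ) 1
    ((1 : ℂ[X]) + X, (1 : ℂ[X]) - X)
  have e1 : (aeval z : ℂ[X] →ₐ[ℂ] RatFunc ℂ) (1 + X) = 1 + z := by simp
  have e2 : (aeval z : ℂ[X] →ₐ[ℂ] RatFunc ℂ) (1 - X) = 1 - z := by simp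
  rw [e1, e2] at h
  have h3 := e_iter_smul k m j g 1 u (1 + z) (1 - z)
  rw [h, h1, h2, pow_one] at h3
  exact ⟨(congrArg Prod.fst h3).symm, (congrArg Prod.snd h3).symm⟩

lemma ι_succ (n : ℕ) : e k m j g (ι (Xn k m j g n), ι (Yn k m j g n)) =
    (ι (Xn k m j g (n + 1)), ι (Yn k m j g (n + 1))) := by
  rw [Xn_succ, Yn_succ]
  apply Prod.ext
  · exact e1_map k m j g (IsScalarTower.toAlgHom ℂ ℂ[X] (RatFunc ℂ)) _ _
  · exact e1_map k m j g (IsScalarTower.toAlgHom ℂ ℂ[X] (RatFunc ℂ)) _ _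

lemma Pn_ne (hk : Odd k) (hm : Even m) (hg : Good k m j g) (n : ℕ) : Pn k m j g n ≠ 0 := by
  rcases Nat.eq_zero_or_pos n with rfl | hn
  · unfold Pn
    rw [Xn_zero, Yn_zero]
    intro h
    have := congrArg (eval 1) h
    simp at this
  · intro h
    have := (PQ_degree k m j g hk hm hg n hn).1
    rw [h, natDegree_zero] at this
    have h2 : 0 < (k + m * j) ^ n := by have := hk.pos; positivity
    omega

lemma Qn_ne (hg : Good k m j g) (n : ℕ) : Qn k m j g n ≠ 0 := by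
  intro h
  have := (PQ_at_zero k m j g hg n).2
  rw [h, eval_zero] at this
  exact this rfl

lemma An_ne' (hk : Odd k) (hm : Even m) (hg : Good k m j g) (n : ℕ) : An k m j g n ≠ 0 := by
  intro h
  have h1 := expand_A k m j g n
  rw [h, map_zero] at h1
  exact Pn_ne k m j g hk hm hg n (pow_eq_zero_iff (n := 2) (by norm_num) |>.1 h1.symm)

/-- `f` on the iterates -/
lemma comp_f (hk : Odd k) (hm : Even m) (hm0 : 0 < m) (hg : Good k m j g) (n : ℕ) :
    comp (fR k m j g) (ι (An k m j g n) / ι (Bn k m j g n)) = ι (An k m j g (n + 1)) / ι (Bn k m j g (n + 1)) ∧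
    comp (fR k m j g) (ι (Bn k m j g n) / ι (An k m j g n)) = ι (Bn k m j g (n + 1)) / ι (An k m j g (n + 1)) := by
  have hk0 : 0 < k := hk.pos
  obtain ⟨τ, hτ⟩ := exists_tau
  have hτi : Function.Injective τ := τ.toRingHom.injective
  have hQn := ι_ne (Qn_ne k m j g hg n)
  have hPn := ι_ne (Pn_ne k m j g hk hm hg n)
  have hadd : ∀ a b : ℂ[X], ι (a + b) = ι a + ι b := fun a b => map_add _ a b
  have hsub : ∀ a b : ℂ[X], ι (a - b) = ι a - ι b := fun a b => map_sub _ a b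
  have hpow : ∀ (a : ℂ[X]) (j : ℕ), ι (a ^ j) = ι a ^ j := fun a j => map_pow _ a j
  have hsq : ∀ (y z : RatFunc ℂ), τ y = z ^ 2 → τ (comp (fR k m j g) y) =
      (aeval z (Pn k m j g 1) / aeval z (Qn k m j g 1)) ^ 2 := by
    intro y z hyz
    unfold fR
    rw [comp_div _ _ (AB_coprime k m j g hk0 hm0 hg 1) (Bn_ne k m j g hg 1), map_div₀,
      ← aeval_algHom_apply, ← aeval_algHom_apply, hyz, ← expand_aeval, ← expand_aeval, expand_A,
      expand_B, map_pow, map_pow, div_pow]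
  have h2 : (2 : RatFunc ℂ) ≠ 0 := two_ne_zero
  constructor
  · apply hτi
    rw [hsq _ (ι (Pn k m j g n) / ι (Qn k m j g n)), map_div₀, hτ, hτ, expand_A, expand_B, hpow, hpow,
      ← div_pow]
    · congr 1
      obtain ⟨a1, a2⟩ := aeval_XY k m j g (ι (Qn k m j g n)) (2 * ι (Xn k m j g n)) (2 * ι (Yn k m j g n))
        (ι (Pn k m j g n) / ι (Qn k m j g n))
        (by rw [mul_add, mul_div_cancel₀ _ hQn]; unfold Pn Qn; rw [hadd, hsub]; ring)
        (by rw [mul_sub, mul_div_cancel₀ _ hQn]; unfold Pn Qn; rw [hadd, hsub]; ring)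
      have h3 := e_iter_smul k m j g 1 (2 : RatFunc ℂ) (ι (Xn k m j g n)) (ι (Yn k m j g n))
      rw [pow_one, Function.iterate_one, ι_succ] at h3
      rw [h3] at a1 a2
      simp only at a1 a2
      have hu : (ι (Qn k m j g n)) ^ (k + m * j) ≠ 0 := pow_ne_zero _ hQn
      have b1 : ι (Qn k m j g n) ^ (k + m * j) * aeval (ι (Pn k m j g n) / ι (Qn k m j g n)) (Pn k m j g 1) =
          2 ^ (k + m * j) * ι (Pn k m j g (n + 1)) := by
        have : Pn k m j g 1 = Xn k m j g 1 - Yn k m j g 1 := rfl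
        rw [this, map_sub, mul_sub, a1, a2]
        have : Pn k m j g (n + 1) = Xn k m j g (n + 1) - Yn k m j g (n + 1) := rfl
        rw [this, hsub]; ring
      have b2 : ι (Qn k m j g n) ^ (k + m * j) * aeval (ι (Pn k m j g n) / ι (Qn k m j g n)) (Qn k m j g 1) =
          2 ^ (k + m * j) * ι (Qn k m j g (n + 1)) := by
        have : Qn k m j g 1 = Xn k m j g 1 + Yn k m j g 1 := rfl
        rw [this, map_add, mul_add, a1, a2]
        have : Qn k m j g (n + 1) = Xn k m j g (n + 1) + Yn k m j g (n + 1) := rfl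
        rw [this, hadd]; ring
      rw [← mul_div_mul_left _ _ hu, b1, b2, mul_div_mul_left _ _ (pow_ne_zero _ h2)]
    · rw [map_div₀, hτ, hτ, expand_A, expand_B, hpow, hpow, div_pow]
  · apply hτi
    rw [hsq _ (ι (Qn k m j g n) / ι (Pn k m j g n)), map_div₀, hτ, hτ, expand_A, expand_B, hpow, hpow,
      ← div_pow]
    · congr 1
      obtain ⟨a1, a2⟩ := aeval_XY k m j g (ι (Pn k m j g n)) (2 * ι (Xn k m j g n)) (2 * -ι (Yn k m j g n))
        (ι (Qn k m j g n) / ι (Pn k m j g n))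
        (by rw [mul_add, mul_div_cancel₀ _ hPn]; unfold Pn Qn; rw [hadd, hsub]; ring)
        (by rw [mul_sub, mul_div_cancel₀ _ hPn]; unfold Pn Qn; rw [hadd, hsub]; ring)
      have h3 := e_iter_smul k m j g 1 (2 : RatFunc ℂ) (ι (Xn k m j g n)) (-ι (Yn k m j g n))
      rw [e_iter_neg k m j g 1 hk hm, pow_one, Function.iterate_one, ι_succ] at h3
      rw [h3] at a1 a2
      simp only at a1 a2
      have hu : (ι (Pn k m j g n)) ^ (k + m * j) ≠ 0 := pow_ne_zero _ hPn
      have b1 : ι (Pn k m j g n) ^ (k + m * j) * aeval (ι (Qn k m j g n) / ι (Pn k m j g n)) (Pn k m j g 1) =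
          2 ^ (k + m * j) * ι (Qn k m j g (n + 1)) := by
        have : Pn k m j g 1 = Xn k m j g 1 - Yn k m j g 1 := rfl
        rw [this, map_sub, mul_sub, a1, a2]
        have : Qn k m j g (n + 1) = Xn k m j g (n + 1) + Yn k m j g (n + 1) := rfl
        rw [this, hadd]; ring
      have b2 : ι (Pn k m j g n) ^ (k + m * j) * aeval (ι (Qn k m j g n) / ι (Pn k m j g n)) (Qn k m j g 1) =
          2 ^ (k + m * j) * ι (Pn k m j g (n + 1)) := by
        have : Qn k m j g 1 = Xn k m j g 1 + Yn k m j g 1 := rfl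
        rw [this, map_add, mul_add, a1, a2]
        have : Pn k m j g (n + 1) = Xn k m j g (n + 1) - Yn k m j g (n + 1) := rfl
        rw [this, hsub]; ring
      rw [← mul_div_mul_left _ _ hu, b1, b2, mul_div_mul_left _ _ (pow_ne_zero _ h2)]
    · rw [map_div₀, hτ, hτ, expand_A, expand_B, hpow, hpow, div_pow]

lemma comp_g (hk : Odd k) (hm : Even m) (hm0 : 0 < m) (hg : Good k m j g) (y : RatFunc ℂ) :
    comp (gR k m j g) y = (comp (fR k m j g) y)⁻¹ := by
  have hk0 : 0 < k := hk.pos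
  have hco := AB_coprime k m j g hk0 hm0 hg 1
  unfold fR gR
  rw [comp_div _ _ hco (Bn_ne k m j g hg 1), comp_div _ _ hco.symm (An_ne' k m j g hk hm hg 1), inv_div]

lemma start : ι (An k m j g 0) / ι (Bn k m j g 0) = RatFunc.X := by
  have hA : An k m j g 0 = C 4 * X := by
    unfold An Pn
    rw [Xn_zero, Yn_zero]
    have : ((1 : ℂ[X]) + X - (1 - X)) ^ 2 = expand ℂ 2 (C 4 * X) := by
      rw [map_mul, expand_C, expand_X]
      have : (C 4 : ℂ[X]) = 4 := rfl
      rw [this]; ring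
    rw [this, contract_expand _ (by norm_num)]
  have hB : Bn k m j g 0 = C 4 := by
    unfold Bn Qn
    rw [Xn_zero, Yn_zero]
    have : ((1 : ℂ[X]) + X + (1 - X)) ^ 2 = expand ℂ 2 (C 4) := by
      rw [expand_C]
      have : (C 4 : ℂ[X]) = 4 := rfl
      rw [this]; ring
    rw [this, contract_expand _ (by norm_num)]
  rw [hA, hB]
  have h4 : ι (C 4 : ℂ[X]) ≠ 0 := ι_ne (by simp)
  have : ι (C 4 * X : ℂ[X]) = ι (C 4 : ℂ[X]) * ι X := map_mul _ _ _
  rw [this, mul_div_cancel_left₀ _ h4]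
  exact RatFunc.algebraMap_X

lemma iter_f (hk : Odd k) (hm : Even m) (hm0 : 0 < m) (hg : Good k m j g) (n : ℕ) :
    iter (fR k m j g) n = ι (An k m j g n) / ι (Bn k m j g n) := by
  induction n with
  | zero => rw [start k m j g]; rfl
  | succ n ih =>
    have h : iter (fR k m j g) (n + 1) = comp (fR k m j g) (iter (fR k m j g) n) :=
      Function.iterate_succ_apply' _ _ _
    rw [h, ih, (comp_f k m j g hk hm hm0 hg n).1]

lemma iter_g (hk : Odd k) (hm : Even m) (hm0 : 0 < m) (hg : Good k m j g) (l : ℕ) :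
    iter (gR k m j g) (2 * l) = ι (An k m j g (2 * l)) / ι (Bn k m j g (2 * l)) ∧
    iter (gR k m j g) (2 * l + 1) = ι (Bn k m j g (2 * l + 1)) / ι (An k m j g (2 * l + 1)) := by
  have key : ∀ l : ℕ, iter (gR k m j g) (2 * l) = ι (An k m j g (2 * l)) / ι (Bn k m j g (2 * l)) →
      iter (gR k m j g) (2 * l + 1) =
        ι (Bn k m j g (2 * l + 1)) / ι (An k m j g (2 * l + 1)) := by
    intro l ih
    have h : iter (gR k m j g) (2 * l + 1) = comp (gR k m j g) (iter (gR k m j g) (2 * l)) :=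
      Function.iterate_succ_apply' _ _ _
    rw [h, ih, comp_g k m j g hk hm hm0 hg, (comp_f k m j g hk hm hm0 hg _).1, inv_div]
  have key2 : ∀ l : ℕ, iter (gR k m j g) (2 * l) =
      ι (An k m j g (2 * l)) / ι (Bn k m j g (2 * l)) := by
    intro l
    induction l with
    | zero => rw [mul_zero, start k m j g]; rfl
    | succ l ih =>
      have h : iter (gR k m j g) (2 * l + 1 + 1) =
          comp (gR k m j g) (iter (gR k m j g) (2 * l + 1)) :=
        Function.iterate_succ_apply' _ _ _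
      have e : 2 * (l + 1) = 2 * l + 1 + 1 := by ring
      rw [e, h, key l ih, comp_g k m j g hk hm hm0 hg, (comp_f k m j g hk hm hm0 hg _).2, inv_div]
  exact ⟨key2 l, key l (key2 l)⟩

theorem sameSpectrum (hk : Odd k) (hm : Even m) (hm0 : 0 < m) (hg : Good k m j g)
    (ζ η : ℂ) (hζ : ζ ^ m = 1) (hη : η ^ m = 1) (hζ1 : ζ + 1 ≠ 0) (hζ2 : ζ - 1 ≠ 0)
    (hη1 : η + 1 ≠ 0) (hη2 : η - 1 ≠ 0)
    (hn : ∀ n : ℕ, Odd n → ζ ^ k ^ n = -ζ ∧ η ^ k ^ n = -η⁻¹) :
    SameSpectrum (fR k m j g) (gR k m j g) := by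
  intro n hn1
  rcases Nat.even_or_odd' n with ⟨l, rfl | rfl⟩
  · rw [iter_f k m j g hk hm hm0 hg, (iter_g k m j g hk hm hm0 hg l).1]
  · obtain ⟨h1, h2⟩ := hn (2 * l + 1) ⟨l, rfl⟩
    rw [iter_f k m j g hk hm hm0 hg, (iter_g k m j g hk hm hm0 hg l).2]
    exact spectrum_odd k m j g hk hm hm0 hg (2 * l + 1) hn1 ζ η hζ hη hζ1 hζ2 hη1 hη2 h1 h2

lemma deg_fR (hk : Odd k) (hm : Even m) (hm0 : 0 < m) (hg : Good k m j g) :
    deg (fR k m j g) = k + m * j ∧ deg (gR k m j g) = k + m * j := by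
  have hk0 : 0 < k := hk.pos
  have hco := AB_coprime k m j g hk0 hm0 hg 1
  obtain ⟨h1, h2⟩ := AB_degree k m j g hk hm hg 1 le_rfl
  rw [pow_one] at h1 h2
  unfold fR gR
  rw [deg_div _ _ hco (Bn_ne k m j g hg 1), deg_div _ _ hco.symm (An_ne' k m j g hk hm hg 1), h1]
  exact ⟨max_eq_left (by omega), max_eq_right (by omega)⟩

end

end

end Pool.Agent.H64.MG
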