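import Pool.Agent.H64.MS.G6
import Pool.Agent.H40.MS.Ca
import Pool.Agent.H40.MS.Rh
import Pool.Agent.H24.MS.Fin

set_option autoImplicit false

open Polynomial
open Pool.Agent.H884R3.Ms (mu ι ι_ne bridge deg_div SameSpectrum Conjugate deg_comp deg_comp_const)
open Pool.Agent.Helper881.Gp

namespace Pool.Agent.H64.MG

noncomputable section

section

variable (k m j : ℕ) (g : ℕ → ℂ)

theorem not_conj (hk : Odd k) (hm : Even m) (hm0 : 0 < m) (hg : Good k m j g) :
    ¬ Conjugate (fR k m j g) (gR k m j g) := by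
  intro hc
  have hk0 : 0 < k := hk.pos
  obtain ⟨p, hp⟩ := A_form k m j g 1
  obtain ⟨q, hq⟩ := B_form k m j g 1
  have hco := AB_coprime k m j g hk0 hm0 hg 1
  obtain ⟨h1, h2⟩ := AB_degree k m j g hk hm hg 1 le_rfl
  have hA := An_ne' k m j g hk hm hg 1
  unfold fR gR at hc
  rw [hp, hq] at hc hco
  rw [hp] at h1 hA
  rw [hq] at h2
  have hp0 : p ≠ 0 := by
    rintro rfl
    apply hA
    simp
  have h3 : p.natDegree * 2 + 1 = (k + m * j) ^ 1 := by
    rw [← h1, natDegree_X_mul (pow_ne_zero 2 hp0), natDegree_pow]; ring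
  rw [natDegree_pow] at h2
  obtain ⟨a, b, c, e, κ, κ', P2, Q2, hdet, ha, hb, hc', he, hk1, hk2, e1, e2⟩ :=
    Pool.Agent.H40.MS.conj_data p q p.natDegree rfl (by omega) hco hc
  exact Pool.Agent.H40.MS.rh_contra p q P2 Q2 p.natDegree rfl (by omega) hco a b c e κ κ' hdet ha
    hb hc' he hk1 hk2 e1 e2

lemma Y_at_one (hk : 0 < k) : (Yn k m j g 1).eval 1 = 0 := by
  have h := congrArg Prod.snd (XY_eval k m j g 1 1)
  simp only at h
  rw [← h]
  show e1 k m j g (1 - 1) (1 + 1) = 0
  unfold e1
  apply Finset.sum_eq_zero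
  intro i _
  rw [sub_self, zero_pow (by omega), zero_mul, mul_zero]

lemma X_at_one (hg : Good k m j g) (hm0 : 0 < m) : (Xn k m j g 1).eval 1 ≠ 0 := by
  have h := congrArg Prod.fst (XY_eval k m j g 1 1)
  simp only at h
  rw [← h]
  show e1 k m j g (1 + 1) (1 - 1) ≠ 0
  unfold e1
  rw [Finset.sum_range_succ, Finset.sum_eq_zero, zero_add, Nat.sub_self, mul_zero, pow_zero,
    mul_one]
  · exact mul_ne_zero hg.top_ne (pow_ne_zero _ (by norm_num))
  · intro i hi
    rw [Finset.mem_range] at hi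
    have : m * (j - i) ≠ 0 := mul_ne_zero hm0.ne' (by omega)
    rw [sub_self, zero_pow this, mul_zero, mul_zero]

/-- the normalisation of `f` needed for the finiteness theorem -/
lemma normal (hk : Odd k) (hm : Even m) (hm0 : 0 < m) (hg : Good k m j g) :
    ∃ A B : ℂ[X], IsCoprime A B ∧ B ≠ 0 ∧ A.eval 0 = 0 ∧ A.eval 1 = B.eval 1 ∧
      B.natDegree < A.natDegree ∧ fR k m j g = ι A / ι B := by
  have hk0 : 0 < k := hk.pos
  obtain ⟨h1, h2⟩ := AB_degree k m j g hk hm hg 1 le_rfl
  refine ⟨An k m j g 1, Bn k m j g 1, AB_coprime k m j g hk0 hm0 hg 1, Bn_ne k m j g hg 1,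
    (A_at_zero k m j g hg 1 le_rfl).1, ?_, by omega, rfl⟩
  have hA := A_eval k m j g 1 1
  have hB := B_eval k m j g 1 1
  rw [one_pow] at hA hB
  rw [hA, hB]
  unfold Pn Qn
  rw [eval_sub, eval_add, Y_at_one k m j g hk0]; ring

/-- the constant `g_j / g_0` can be read off `f` -/
lemma rigid (hk : Odd k) (hm : Even m) (hm0 : 0 < m) (hj : 1 ≤ j) (g' : ℕ → ℂ)
    (hg : Good k m j g) (hg' : Good k m j g') (h : fR k m j g = fR k m j g') :
    g 0 * g' j = g' 0 * g j := by
  have hk0 : 0 < k := hk.pos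
  have hB := ι_ne (Bn_ne k m j g hg 1)
  have hB' := ι_ne (Bn_ne k m j g' hg' 1)
  have h1 : An k m j g 1 * Bn k m j g' 1 = An k m j g' 1 * Bn k m j g 1 := by
    unfold fR at h
    rw [div_eq_div_iff hB hB'] at h
    apply RatFunc.algebraMap_injective ℂ
    have e1 : algebraMap ℂ[X] (RatFunc ℂ) (An k m j g 1 * Bn k m j g' 1) =
        ι (An k m j g 1) * ι (Bn k m j g' 1) := map_mul _ _ _
    have e2 : algebraMap ℂ[X] (RatFunc ℂ) (An k m j g' 1 * Bn k m j g 1) =
        ι (An k m j g' 1) * ι (Bn k m j g 1) := map_mul _ _ _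
    rw [e1, e2, h]
  have h2 : (Pn k m j g 1 * Qn k m j g' 1) ^ 2 = (Pn k m j g' 1 * Qn k m j g 1) ^ 2 := by
    have := congrArg (expand ℂ 2) h1
    rw [map_mul, map_mul, expand_A, expand_B, expand_A, expand_B] at this
    rw [mul_pow, mul_pow, this]
  have h3 : Pn k m j g 1 * Qn k m j g' 1 = Pn k m j g' 1 * Qn k m j g 1 := by
    rcases sq_eq_sq_iff_eq_or_eq_neg.1 h2 with h3 | h3
    · exact h3
    · exfalso
      have h4 := congrArg (eval 1) h3
      have x1 := X_at_one k m j g hg hm0
      have x2 := X_at_one k m j g' hg' hm0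
      unfold Pn Qn at h4
      simp only [eval_mul, eval_neg, eval_sub, eval_add, Y_at_one k m j g hk0,
        Y_at_one k m j g' hk0, sub_zero, add_zero] at h4
      have h5 : 2 * ((Xn k m j g 1).eval 1 * (Xn k m j g' 1).eval 1) = 0 := by
        linear_combination h4
      exact mul_ne_zero two_ne_zero (mul_ne_zero x1 x2) h5
  have h4 : Xn k m j g 1 * Yn k m j g' 1 = Xn k m j g' 1 * Yn k m j g 1 := by
    unfold Pn Qn at h3
    have : (2 : ℂ[X]) * (Xn k m j g 1 * Yn k m j g' 1) =
        2 * (Xn k m j g' 1 * Yn k m j g 1) := by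
      linear_combination h3
    exact mul_left_cancel₀ two_ne_zero this
  -- polynomials in `t`
  have h5 : (∑ i ∈ Finset.range (j + 1), C (g i) * X ^ (m * i) : ℂ[X]) *
      (∑ i ∈ Finset.range (j + 1), C (g' i) * X ^ (m * (j - i))) =
      (∑ i ∈ Finset.range (j + 1), C (g' i) * X ^ (m * i)) *
      (∑ i ∈ Finset.range (j + 1), C (g i) * X ^ (m * (j - i))) := by
    apply eq_of_infinite_eval_eq
    apply Set.Infinite.mono (s := ({0, -1} : Set ℂ)ᶜ)
    · intro t ht
      have ht0 : t ≠ 0 := fun h => ht (by simp [h])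
      have ht1 : t + 1 ≠ 0 := fun h => ht (by
        right
        rw [Set.mem_singleton_iff]
        linear_combination h)
      have key : ∀ g : ℕ → ℂ, (Xn k m j g 1).eval ((t - 1) / (t + 1)) =
          (2 / (t + 1)) ^ (k + m * j) * (t ^ k * ∑ i ∈ Finset.range (j + 1), g i * t ^ (m * i)) ∧
          (Yn k m j g 1).eval ((t - 1) / (t + 1)) =
          (2 / (t + 1)) ^ (k + m * j) * ∑ i ∈ Finset.range (j + 1), g i * t ^ (m * (j - i)) := by
        intro g
        have a1 := XY_eval k m j g 1 ((t - 1) / (t + 1))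
        have a2 := e_iter_smul k m j g 1 (2 / (t + 1)) t 1
        have b1 : 2 / (t + 1) * t = 1 + (t - 1) / (t + 1) := by field_simp; ring
        have b2 : 2 / (t + 1) * 1 = 1 - (t - 1) / (t + 1) := by field_simp; ring
        rw [b1, b2, a1, pow_one] at a2
        have a3 := congrArg Prod.fst a2
        have a4 := congrArg Prod.snd a2
        simp only at a3 a4
        rw [a3, a4]
        constructor
        · congr 1
          show e1 k m j g t 1 = _
          unfold e1
          rw [Finset.mul_sum]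
          apply Finset.sum_congr rfl
          intro i _
          show g i * _ = _
          rw [one_pow, pow_add]; ring
        · congr 1
          show e1 k m j g 1 t = _
          unfold e1
          apply Finset.sum_congr rfl
          intro i _
          show g i * _ = _
          rw [one_pow, one_mul]
      have h6 := congrArg (eval ((t - 1) / (t + 1))) h4
      rw [eval_mul, eval_mul, (key g).1, (key g).2, (key g').1, (key g').2] at h6
      rw [Set.mem_ofPred_eq, eval_mul, eval_mul]
      simp only [eval_finsetSum, eval_mul, eval_C, eval_pow, eval_X]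
      have hb : (2 / (t + 1)) ^ (k + m * j) * t ^ k * (2 / (t + 1)) ^ (k + m * j) ≠ 0 := by
        have : (2 / (t + 1) : ℂ) ≠ 0 := div_ne_zero two_ne_zero ht1
        exact mul_ne_zero (mul_ne_zero (pow_ne_zero _ this) (pow_ne_zero _ ht0))
          (pow_ne_zero _ this)
      apply mul_left_cancel₀ hb
      linear_combination h6
    · exact (Set.toFinite _).infinite_compl
  have h6 := congrArg (eval 0) h5
  have s1 : ∀ g : ℕ → ℂ, (∑ i ∈ Finset.range (j + 1), C (g i) * X ^ (m * i) : ℂ[X]).eval 0 = g 0 := by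
    intro g
    rw [eval_finsetSum, Finset.sum_range_succ', Finset.sum_eq_zero]
    · simp
    · intro i _
      have : m * (i + 1) ≠ 0 := mul_ne_zero hm0.ne' (by omega)
      simp [this]
  have s2 : ∀ g : ℕ → ℂ,
      (∑ i ∈ Finset.range (j + 1), C (g i) * X ^ (m * (j - i)) : ℂ[X]).eval 0 = g j := by
    intro g
    rw [eval_finsetSum, Finset.sum_range_succ, Finset.sum_eq_zero]
    · simp
    · intro i hi
      rw [Finset.mem_range] at hi
      have : m * (j - i) ≠ 0 := mul_ne_zero hm0.ne' (by omega)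
      simp [this]
  rw [eval_mul, eval_mul, s1, s2, s1, s2] at h6
  exact h6

end

lemma conj_deg (f F : RatFunc ℂ) (hf : 1 ≤ deg f) (h : Conjugate f F) : deg F = deg f := by
  obtain ⟨μ, h1, h2⟩ := h
  have h3 := congrArg deg h2
  rw [deg_comp _ _ hf, deg_comp _ _ (by omega), h1] at h3
  omega

end

end Pool.Agent.H64.MG
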