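import Pool.Agent.H64.MS.G7

set_option autoImplicit false

open Polynomial
open Pool.Agent.H884R3.Ms (mu ι ι_ne bridge deg_div SameSpectrum Conjugate deg_comp deg_comp_const)
open Pool.Agent.Helper881.Gp

namespace Pool.Agent.H64.MG

noncomputable section

section

variable (k m j : ℕ)

/-- the coefficient `g_j` of the family -/
def al (c : ℂ) : ℂ := ((m : ℂ) * j - k + c * ((m : ℂ) * (j - 1 : ℕ) - m - k)) / ((k : ℂ) + m * j)

/-- the family `G(U, V) = V^j + c U V^(j-1) + g_j U^j` -/
def gc (c : ℂ) (i : ℕ) : ℂ := if i = 0 then 1 else if i = j then al k m j c else if i = 1 then c else 0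

/-- the open set of parameters -/
def Tset : Set ℂ := {c | ‖c‖ + ‖al k m j c‖ < 1 ∧ al k m j c ≠ 0}

lemma sum_gc (hj : 2 ≤ j) (c : ℂ) (φ : ℕ → ℂ) :
    ∑ i ∈ Finset.range (j + 1), gc k m j c i * φ i = φ 0 + c * φ 1 + al k m j c * φ j := by
  obtain ⟨l, rfl⟩ := Nat.exists_eq_add_of_le' hj
  rw [Finset.sum_range_succ, Finset.sum_range_succ', Finset.sum_range_succ', Finset.sum_eq_zero]
  · have h1 : gc k m (l + 2) c (l + 2) = al k m (l + 2) c := by simp [gc]
    have h2 : gc k m (l + 2) c (0 + 1) = c := by simp [gc]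
    have h3 : gc k m (l + 2) c 0 = 1 := by simp [gc]
    rw [h1, h2, h3]; ring
  · intro i hi
    rw [Finset.mem_range] at hi
    have : gc k m (l + 2) c (i + 1 + 1) = 0 := by
      have h1 : i + 1 + 1 ≠ l + 2 := by omega
      simp [gc]
      omega
    rw [this, zero_mul]

lemma good_gc (hj : 2 ≤ j) (hk : 0 < k) (c : ℂ) (hc : c ∈ Tset k m j) :
    Good k m j (gc k m j c) := by
  obtain ⟨h1, h2⟩ := hc
  have hden : ((k : ℂ) + m * j) ≠ 0 := by
    have : (0 : ℕ) < k + m * j := by omega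
    exact_mod_cast this.ne'
  refine ⟨?_, ?_, ?_, ?_⟩
  · have h := sum_gc k m j hj c (fun _ => 1)
    simp only [mul_one] at h
    rw [h]
    intro h0
    have h3 : (1 : ℂ) = -(c + al k m j c) := by linear_combination h0
    have h4 := congrArg norm h3
    rw [norm_one, norm_neg] at h4
    have h5 := norm_add_le c (al k m j c)
    linarith
  · have : gc k m j c j = al k m j c := by
      have : j ≠ 0 := by omega
      simp [gc, this]
    rw [this]; exact h2
  · rw [sum_gc k m j hj c (fun i => (k : ℂ) + m * i - m * (j - i : ℕ))]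
    have e1 : (j - 0 : ℕ) = j := Nat.sub_zero j
    have e2 : (j - j : ℕ) = 0 := Nat.sub_self j
    rw [e1, e2]
    have e3 : al k m j c * ((k : ℂ) + m * j) =
        (m : ℂ) * j - k + c * ((m : ℂ) * (j - 1 : ℕ) - m - k) := by
      unfold al; exact div_mul_cancel₀ _ hden
    push_cast
    linear_combination e3
  · intro u hu
    rw [sum_gc k m j hj c (fun i => u ^ i)] at hu
    rw [sum_gc k m j hj c (fun i => u ^ (j - i))]
    simp only [pow_zero, pow_one, Nat.sub_zero, Nat.sub_self, mul_one] at hu ⊢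
    have hu1 : 1 < ‖u‖ := by
      by_contra hle
      push Not at hle
      have h3 : (1 : ℂ) = -(c * u + al k m j c * u ^ j) := by linear_combination hu
      have h4 := congrArg norm h3
      rw [norm_one, norm_neg] at h4
      have h5 := norm_add_le (c * u) (al k m j c * u ^ j)
      rw [norm_mul, norm_mul, norm_pow] at h5
      have h6 : ‖c‖ * ‖u‖ ≤ ‖c‖ * 1 := mul_le_mul_of_nonneg_left hle (norm_nonneg _)
      have h7 : ‖al k m j c‖ * ‖u‖ ^ j ≤ ‖al k m j c‖ * 1 :=
        mul_le_mul_of_nonneg_left (pow_le_one₀ (norm_nonneg _) hle) (norm_nonneg _)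
      linarith
    intro h0
    have h3 : u ^ j = -(c * u ^ (j - 1) + al k m j c) := by linear_combination h0
    have h4 := congrArg norm h3
    rw [norm_pow, norm_neg] at h4
    have h5 := norm_add_le (c * u ^ (j - 1)) (al k m j c)
    rw [norm_mul, norm_pow] at h5
    have h6 : ‖u‖ ^ (j - 1) ≤ ‖u‖ ^ j := pow_le_pow_right₀ hu1.le (by omega)
    have h7 : 1 ≤ ‖u‖ ^ j := one_le_pow₀ hu1.le
    have h8 : ‖c‖ * ‖u‖ ^ (j - 1) ≤ ‖c‖ * ‖u‖ ^ j := mul_le_mul_of_nonneg_left h6 (norm_nonneg _)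
    have h9 : ‖al k m j c‖ ≤ ‖al k m j c‖ * ‖u‖ ^ j := by
      have := mul_le_mul_of_nonneg_left h7 (norm_nonneg (al k m j c))
      rwa [mul_one] at this
    have h10 : (‖c‖ + ‖al k m j c‖) * ‖u‖ ^ j < 1 * ‖u‖ ^ j :=
      mul_lt_mul_of_pos_right h1 (by linarith)
    nlinarith

lemma Tset_open : IsOpen (Tset k m j) := by
  have hcont : Continuous (al k m j) := by unfold al; fun_prop
  exact (isOpen_lt (continuous_norm.add hcont.norm) continuous_const).inter
    (isOpen_ne_fun hcont continuous_const)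

lemma zero_mem (hk : Odd k) (hm : Even m) (hm0 : 0 < m) (hj : 2 ≤ j) : (0 : ℂ) ∈ Tset k m j := by
  have hk0 := hk.pos
  have hne : m * j ≠ k := by
    intro h
    rw [← h] at hk
    exact Nat.not_odd_iff_even.2 (hm.mul_right j) hk
  have hmj : 0 < m * j := by positivity
  have e : al k m j 0 = (((((m * j : ℕ) : ℝ) - k) / ((k : ℝ) + (m * j : ℕ)) : ℝ) : ℂ) := by
    unfold al; push_cast; ring
  have hkr : (0 : ℝ) < k := by exact_mod_cast hk0
  have hmr : (0 : ℝ) < ((m * j : ℕ) : ℝ) := by exact_mod_cast hmj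
  refine ⟨?_, ?_⟩
  · rw [norm_zero, zero_add, e, Complex.norm_real, Real.norm_eq_abs, abs_div,
      abs_of_pos (by linarith : (0 : ℝ) < (k : ℝ) + (m * j : ℕ)), div_lt_one (by linarith), abs_lt]
    constructor <;> linarith
  · rw [e]
    have : ((((m * j : ℕ) : ℝ) - k) / ((k : ℝ) + (m * j : ℕ)) : ℝ) ≠ 0 := by
      apply div_ne_zero
      · rw [sub_ne_zero]; exact_mod_cast hne
      · linarith
    exact_mod_cast this

lemma inj (hk : Odd k) (hm : Even m) (hm0 : 0 < m) (hj : 2 ≤ j) (c c' : ℂ)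
    (hc : c ∈ Tset k m j) (hc' : c' ∈ Tset k m j)
    (h : fR k m j (gc k m j c) = fR k m j (gc k m j c')) : c = c' := by
  have hk0 := hk.pos
  have h1 := rigid k m j (gc k m j c) hk hm hm0 (by omega) (gc k m j c')
    (good_gc k m j hj hk0 c hc) (good_gc k m j hj hk0 c' hc') h
  have h2 : ∀ c, gc k m j c 0 = 1 := fun c => by simp [gc]
  have h3 : ∀ c, gc k m j c j = al k m j c := fun c => by
    have : j ≠ 0 := by omega
    simp [gc, this]
  rw [h2, h2, h3, h3, one_mul, one_mul] at h1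
  have hden : ((k : ℂ) + m * j) ≠ 0 := by
    have : (0 : ℕ) < k + m * j := by omega
    exact_mod_cast this.ne'
  unfold al at h1
  rw [div_left_inj' hden] at h1
  have h4 : (c' - c) * ((m : ℂ) * (j - 1 : ℕ) - m - k) = 0 := by linear_combination h1
  rcases mul_eq_zero.1 h4 with h5 | h5
  · exact (sub_eq_zero.1 h5).symm
  · exfalso
    have h6 : (m * (j - 1) : ℕ) = m + k := by
      have : ((m * (j - 1 : ℕ) : ℕ) : ℂ) = ((m + k : ℕ) : ℂ) := by
        push_cast
        linear_combination h5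
      exact_mod_cast this
    have h7 : Even (m + k) := by rw [← h6]; exact hm.mul_right _
    rw [Nat.even_add] at h7
    exact Nat.not_odd_iff_even.2 (h7.1 hm) hk

/-- uncountably many conjugacy classes -/
theorem many (hk : Odd k) (hm : Even m) (hm0 : 0 < m) (hj : 2 ≤ j) (F : ℕ → RatFunc ℂ) :
    ∃ c ∈ Tset k m j, ∀ n, ¬ Conjugate (fR k m j (gc k m j c)) (F n) := by
  have hk0 := hk.pos
  set bad : ℕ → Set ℂ := fun n => {c | c ∈ Tset k m j ∧
    Conjugate (fR k m j (gc k m j c)) (F n)} with hbad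
  have hfin : ∀ n, (bad n).Finite := by
    intro n
    by_cases hF : 2 ≤ deg (F n)
    · apply Set.Finite.of_finite_image (f := fun c => fR k m j (gc k m j c))
      · apply (Pool.Agent.H24.MS.finite_conj (F n) hF).subset
        rintro _ ⟨c, ⟨hc1, hc2⟩, rfl⟩
        exact ⟨normal k m j _ hk hm hm0 (good_gc k m j hj hk0 c hc1), hc2⟩
      · intro c hc c' hc' h
        exact inj k m j hk hm hm0 hj c c' hc.1 hc'.1 h
    · convert Set.finite_empty
      rw [Set.eq_empty_iff_forall_notMem]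
      rintro c ⟨hc1, hc2⟩
      have hd := (deg_fR k m j _ hk hm hm0 (good_gc k m j hj hk0 c hc1)).1
      have hmj : 2 ≤ m * j := by nlinarith
      have := conj_deg _ _ (by omega) hc2
      omega
  have hcount : (⋃ n, bad n).Countable := Set.countable_iUnion fun n => (hfin n).countable
  obtain ⟨c, hc1, hc2⟩ := (hcount.dense_compl ℂ).inter_open_nonempty _ (Tset_open k m j)
    ⟨0, zero_mem k m j hk hm hm0 hj⟩
  refine ⟨c, hc1, fun n hn => hc2 (Set.mem_iUnion.2 ⟨n, hc1, hn⟩)⟩

end

end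

end Pool.Agent.H64.MG
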