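import Pool.Agent.H64.MS.G1

set_option autoImplicit false

/-!
The case `j = 1`: one map for every pair `k` odd, `m` even.
-/

namespace Pool.Agent.H64.MG

noncomputable section

/-- the coefficients `1` and `(m - k) / (m + k)` -/
def g1 (k m : ℕ) (i : ℕ) : ℂ := if i = 0 then 1 else ((m : ℂ) - k) / ((k : ℂ) + m)

lemma good_one (k m : ℕ) (hk : Odd k) (hm : Even m) (hm0 : 0 < m) : Good k m 1 (g1 k m) := by
  have hk0 := hk.pos
  have hne : m ≠ k := by
    rintro rfl
    exact Nat.not_odd_iff_even.2 hm hk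
  have hkr : (0 : ℝ) < k := by exact_mod_cast hk0
  have hmr : (0 : ℝ) < m := by exact_mod_cast hm0
  have hden : ((k : ℂ) + m) ≠ 0 := by
    have : (0 : ℕ) < k + m := by omega
    exact_mod_cast this.ne'
  set α : ℂ := ((m : ℂ) - k) / ((k : ℂ) + m) with hα
  have e : α = ((((m : ℝ) - k) / ((k : ℝ) + m) : ℝ) : ℂ) := by
    rw [hα]; push_cast; ring
  have h1 : ‖α‖ < 1 := by
    rw [e, Complex.norm_real, Real.norm_eq_abs, abs_div,
      abs_of_pos (by linarith : (0 : ℝ) < (k : ℝ) + m), div_lt_one (by linarith), abs_lt]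
    constructor <;> linarith
  have h2 : α ≠ 0 := by
    rw [hα]
    refine div_ne_zero ?_ hden
    rw [sub_ne_zero]
    exact_mod_cast hne
  have h0 : g1 k m 0 = 1 := by simp [g1]
  have h1' : g1 k m 1 = α := by simp [g1, hα]
  refine ⟨?_, ?_, ?_, ?_⟩
  · rw [Finset.sum_range_succ, Finset.sum_range_one, h0, h1']
    intro h
    have h3 : (1 : ℂ) = -α := by linear_combination h
    have h4 := congrArg norm h3
    rw [norm_one, norm_neg] at h4
    linarith
  · rw [h1']; exact h2
  · rw [Finset.sum_range_succ, Finset.sum_range_one, h0, h1']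
    have e3 : α * ((k : ℂ) + m) = (m : ℂ) - k := by rw [hα]; exact div_mul_cancel₀ _ hden
    push_cast
    linear_combination e3
  · intro u hu
    rw [Finset.sum_range_succ, Finset.sum_range_one, h0, h1'] at hu ⊢
    simp only [pow_zero, pow_one, Nat.sub_self, Nat.sub_zero, one_mul, mul_one] at hu ⊢
    intro h3
    have h4 : α * α = 1 := by linear_combination -hu + α * h3
    have h5 := congrArg norm h4
    rw [norm_mul, norm_one] at h5
    nlinarith [norm_nonneg α]

end

end Pool.Agent.H64.MG
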