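import Pool.Agent.H32.MS.Orbit
import Pool.Agent.H32.MS.Inv

set_option autoImplicit false

/-!
An invariant of elementary transformations of maps of odd degree: fixed points of odd local degree
all of whose other preimages have even local degree.
-/

open Polynomial
open Pool.Agent.Helper881.Gp
open Pool.Agent.H884R3.Ms
open Pool.Agent.H32.MS

namespace Pool.Agent.H64.MG

noncomputable section

/-- `x` is a fixed point of odd local degree and all its other preimages have even local degree -/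
def Sp (F : RatFunc ℂ) (x : Option ℂ) : Prop :=
  (∃ e, Odd e ∧ At F x x e) ∧ ∀ y e, y ≠ x → At F y x e → Even e

/-- there are two such points -/
def Inv2 (F : RatFunc ℂ) : Prop := ∃ x y : Option ℂ, x ≠ y ∧ Sp F x ∧ Sp F y

lemma sp_step (deg_even_of : ∀ {h : RatFunc ℂ} (_ : 1 ≤ deg h) (y : Option ℂ)
      (_ : ∀ x e, At h x y e → Even e), Even (deg h))
    {h₁ h₂ : RatFunc ℂ} (d1 : 1 ≤ deg h₁) (d2 : 1 ≤ deg h₂) (hodd : Odd (deg (comp h₁ h₂)))
    {x : Option ℂ} (hx : Sp (comp h₁ h₂) x) : ∃ (x' : Option ℂ) (b : ℕ), At h₁ x' x b ∧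
      Sp (comp h₂ h₁) x' := by
  obtain ⟨⟨e, he, hp⟩, hy⟩ := hx
  obtain ⟨p', a, ha⟩ := At_exists d2 x
  obtain ⟨p'', b, hb⟩ := At_exists d1 p'
  obtain ⟨hpp, hab⟩ := At_unique (At_comp d2 ha hb) hp
  subst hpp
  refine ⟨p', b, hb, ⟨b * a, by rw [mul_comm, hab]; exact he, At_comp d1 hb ha⟩, ?_⟩
  intro y' e' hne H
  have hbodd : Odd b := by
    rw [← hab] at he
    exact (Nat.odd_mul.1 he).2
  obtain ⟨y, c, hc⟩ := At_exists d1 y'
  obtain ⟨z, c2, hc2⟩ := At_exists d2 y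
  obtain ⟨hz, hee⟩ := At_unique (At_comp d1 hc hc2) H
  subst hz
  rw [← hee]
  by_cases hyx : y = p''
  · subst hyx
    apply Even.mul_right
    by_contra hcodd
    have hall : ∀ w e2, At h₂ w y' e2 → Even e2 := by
      intro w e2 hw
      have hwx : w ≠ y := by
        rintro rfl
        exact hne (At_unique hw ha).1
      have := hy w _ hwx (At_comp d2 hw hc)
      rw [Nat.even_mul] at this
      exact this.resolve_right hcodd
    have h2 := deg_even_of d2 y' hall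
    rw [deg_comp _ _ d2] at hodd
    exact (Nat.not_odd_iff_even.2 h2) (Nat.odd_mul.1 hodd).1
  · have := hy y _ hyx (At_comp d2 hc2 hb)
    rw [Nat.even_mul] at this
    rcases this with h | h
    · exact h.mul_left _
    · exact absurd hbodd (Nat.not_odd_iff_even.2 h)

lemma inv2_step (deg_even_of : ∀ {h : RatFunc ℂ} (_ : 1 ≤ deg h) (y : Option ℂ)
      (_ : ∀ x e, At h x y e → Even e), Even (deg h))
    {F F' : RatFunc ℂ} (hF : 1 ≤ deg F) (hodd : Odd (deg F)) (h : ElemTransform F F')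
    (hi : Inv2 F) : Inv2 F' ∧ 1 ≤ deg F' ∧ Odd (deg F') := by
  obtain ⟨h₁, h₂, rfl, rfl⟩ := h
  obtain ⟨d1, d2⟩ := factors hF
  obtain ⟨x, y, hxy, hx, hy⟩ := hi
  obtain ⟨x', b, hb, hx'⟩ := sp_step deg_even_of d1 d2 hodd hx
  obtain ⟨y', c, hc, hy'⟩ := sp_step deg_even_of d1 d2 hodd hy
  have hdeg : deg (comp h₂ h₁) = deg (comp h₁ h₂) := by
    rw [deg_comp _ _ d1, deg_comp _ _ d2, mul_comm]
  refine ⟨⟨x', y', ?_, hx', hy'⟩, by rw [hdeg]; exact hF, by rw [hdeg]; exact hodd⟩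
  rintro rfl
  exact hxy (At_unique hb hc).1

lemma inv2_equiv (deg_even_of : ∀ {h : RatFunc ℂ} (_ : 1 ≤ deg h) (y : Option ℂ)
      (_ : ∀ x e, At h x y e → Even e), Even (deg h))
    {F F' : RatFunc ℂ} (hF : 1 ≤ deg F) (hodd : Odd (deg F)) (h : ElemEquivalent F F')
    (hi : Inv2 F) : Inv2 F' ∧ 1 ≤ deg F' ∧ Odd (deg F') := by
  induction h with
  | refl => exact ⟨hi, hF, hodd⟩
  | tail _ hstep ih => exact inv2_step deg_even_of ih.2.1 ih.2.2 hstep ih.1

end

end Pool.Agent.H64.MG
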