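import Pool.Agent.H64.MS.I1

set_option autoImplicit false

/-!
The invariant `Inv2` for the maps `X p² / q²`.
-/

open Polynomial
open Pool.Agent.Helper881.Gp
open Pool.Agent.H884R3.Ms
open Pool.Agent.H32.MS

namespace Pool.Agent.H64.MG

noncomputable section

lemma sub_C_div (A B : ℂ[X]) (hB : B ≠ 0) (b : ℂ) :
    ι A / ι B - RatFunc.C b = ι (A - C b * B) / ι B := by
  have hd : ι B ≠ 0 := ι_ne hB
  have e1 : ι (A - C b * B) = ι A - RatFunc.C b * ι B := by
    unfold ι
    rw [map_sub, map_mul, RatFunc.algebraMap_C]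
  rw [e1, sub_div, mul_div_assoc, div_self hd, mul_one]

/-- the defining property of `At` for a fraction -/
lemma at_div {A B : ℂ[X]} (hB : B ≠ 0) {x y : Option ℂ} {e : ℕ} (H : At (ι A / ι B) x y e)
    (b : ℂ) : A - C b * B ≠ 0 ∧ po x (A - C b * B) - po x B = e * lin y b := by
  obtain ⟨h1, h2⟩ := H.2 b
  rw [sub_C_div A B hB b] at h1 h2
  have h3 : A - C b * B ≠ 0 := by
    intro h0
    apply h1
    have : ι (0 : ℂ[X]) = 0 := map_zero _
    rw [h0, this, zero_div]
  exact ⟨h3, by rw [← h2, ord_div x h3 hB]⟩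

lemma po_sq (x : Option ℂ) {q : ℂ[X]} (hq : q ≠ 0) : po x (q ^ 2) = 2 * po x q := by
  rw [sq, po_mul x hq hq]; ring

lemma po_X_zero : po (some 0) X = 1 := by
  have := lin_some_self 0
  unfold lin at this
  rwa [C_0, sub_zero] at this

lemma po_X_ne {c : ℂ} (hc : c ≠ 0) : po (some c) X = 0 := by
  have := lin_some_ne (a := c) (b := 0) hc.symm
  unfold lin at this
  rwa [C_0, sub_zero] at this

lemma po_X_none : po none X = -1 := by
  have := lin_none 0
  unfold lin at this
  rwa [C_0, sub_zero] at this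

section

variable (p q : ℂ[X]) (hp : p ≠ 0) (hq : q ≠ 0) (hco : IsCoprime (X * p ^ 2) (q ^ 2))
  (hdeg : (q ^ 2).natDegree < (X * p ^ 2).natDegree)

include hp hq hco hdeg

lemma facts : (po (some 0) (X * p ^ 2) = 1 + 2 * po (some 0) p ∧ po (some 0) (q ^ 2) = 0 ∧
    0 ≤ po (some 0) p) ∧
    (po none (X * p ^ 2) = -1 + 2 * po none p ∧ po none (q ^ 2) = 2 * po none q ∧
      po none (X * p ^ 2) < po none (q ^ 2)) := by
  have hp2 := pow_ne_zero 2 hp
  refine ⟨⟨?_, ?_, ?_⟩, ⟨?_, po_sq _ hq, ?_⟩⟩
  · rw [po_mul _ X_ne_zero hp2, po_sq _ hp, po_X_zero]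
  · have h1 : (X * p ^ 2 : ℂ[X]).eval 0 = 0 := by rw [eval_mul, eval_X, zero_mul]
    have h2 := cop_eval hco 0 h1
    simp only [po]
    rw [rootMultiplicity_eq_zero h2]; rfl
  · simp only [po]; positivity
  · rw [po_mul _ X_ne_zero hp2, po_sq _ hp, po_X_none]
  · simp only [po]
    omega

lemma deg_f_pos : 1 ≤ deg (ι (X * p ^ 2) / ι (q ^ 2)) := by
  rw [deg_div _ _ hco (pow_ne_zero 2 hq)]
  have := le_max_left (X * p ^ 2).natDegree (q ^ 2).natDegree
  omega

lemma inv2_f : Inv2 (ι (X * p ^ 2) / ι (q ^ 2)) := by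
  obtain ⟨⟨f1, f2, f3⟩, ⟨f4, f5, f6⟩⟩ := facts p q hp hq hco hdeg
  have hq2 := pow_ne_zero 2 hq
  have hp2 := pow_ne_zero 2 hp
  have hd := deg_f_pos p q hp hq hco hdeg
  have hev : ∀ (c : ℂ), c ≠ 0 → po (some c) (X * p ^ 2) = 2 * po (some c) p := by
    intro c hc
    rw [po_mul _ X_ne_zero hp2, po_sq _ hp, po_X_ne hc, zero_add]
  refine ⟨some 0, none, by simp, ⟨?_, ?_⟩, ⟨?_, ?_⟩⟩
  · obtain ⟨y, e, H⟩ := At_exists hd (some 0)
    have h := (at_div hq2 H 0).2
    rw [C_0, zero_mul, sub_zero, f1, f2] at h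
    cases y with
    | none => rw [lin_none] at h; omega
    | some a =>
      by_cases ha : (0 : ℂ) = a
      · subst ha
        rw [lin_some_self] at h
        refine ⟨e, ?_, H⟩
        obtain ⟨u, hu⟩ := Int.eq_ofNat_of_zero_le f3
        exact ⟨u, by omega⟩
      · rw [lin_some_ne ha] at h; omega
  · intro y e hy H
    have h := (at_div hq2 H 0).2
    rw [C_0, zero_mul, sub_zero, lin_some_self] at h
    have he := H.1
    cases y with
    | none => omega
    | some c =>
      have hc : c ≠ 0 := by rintro rfl; exact hy rfl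
      rw [hev c hc, po_sq _ hq] at h
      have : Even (e : ℤ) := ⟨po (some c) p - po (some c) q, by linarith⟩
      exact_mod_cast this
  · obtain ⟨y, e, H⟩ := At_exists hd none
    have h := (at_div hq2 H 0).2
    rw [C_0, zero_mul, sub_zero] at h
    cases y with
    | none =>
      rw [lin_none] at h
      refine ⟨e, ?_, H⟩
      have : Odd (e : ℤ) := ⟨po none q - po none p, by linarith⟩
      exact_mod_cast this
    | some a =>
      by_cases ha : (0 : ℂ) = a
      · subst ha
        rw [lin_some_self] at h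
        have := H.1
        omega
      · rw [lin_some_ne ha] at h; omega
  · intro y e hy H
    have h := (at_div hq2 H 0).2
    rw [C_0, zero_mul, sub_zero, lin_none] at h
    have he := H.1
    cases y with
    | none => exact absurd rfl hy
    | some c =>
      by_cases hc : c = 0
      · subst hc
        omega
      · rw [hev c hc, po_sq _ hq] at h
        have : Even (e : ℤ) := ⟨po (some c) q - po (some c) p, by linarith⟩
        exact_mod_cast this

lemma sp_g (x : Option ℂ) (hx : Sp (ι (q ^ 2) / ι (X * p ^ 2)) x) :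
    ∃ c : ℂ, c ≠ 0 ∧ x = some c ∧
      (q ^ 2 - C c * (X * p ^ 2)) ≠ 0 ∧ Odd ((q ^ 2 - C c * (X * p ^ 2)).rootMultiplicity c) ∧
      ∀ r, r ≠ c → Even ((q ^ 2 - C c * (X * p ^ 2)).rootMultiplicity r) := by
  obtain ⟨⟨f1, f2, f3⟩, ⟨f4, f5, f6⟩⟩ := facts p q hp hq hco hdeg
  have hq2 := pow_ne_zero 2 hq
  have hp2 := pow_ne_zero 2 hp
  have hA : (X * p ^ 2 : ℂ[X]) ≠ 0 := mul_ne_zero X_ne_zero hp2
  have hd : 1 ≤ deg (ι (q ^ 2) / ι (X * p ^ 2)) := by
    rw [deg_div _ _ hco.symm hA]
    have := le_max_right (q ^ 2).natDegree (X * p ^ 2).natDegree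
    omega
  obtain ⟨⟨e, he, H⟩, hall⟩ := hx
  cases x with
  | none =>
    have h := (at_div hA H 0).2
    rw [C_0, zero_mul, sub_zero, lin_none] at h
    have := H.1
    omega
  | some c =>
    have hc : c ≠ 0 := by
      rintro rfl
      have h := (at_div hA H 0).2
      rw [C_0, zero_mul, sub_zero, lin_some_self] at h
      have := H.1
      omega
    set N : ℂ[X] := q ^ 2 - C c * (X * p ^ 2) with hN
    have hN0 : N ≠ 0 := (at_div hA H c).1
    have key : ∀ r : ℂ, N.eval r = 0 → At (ι (q ^ 2) / ι (X * p ^ 2)) (some r) (some c)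
        (N.rootMultiplicity r) := by
      intro r hr
      obtain ⟨y, e', H'⟩ := At_exists hd (some r)
      have h := (at_div hA H' c).2
      rw [← hN] at h
      have hAr : (X * p ^ 2 : ℂ[X]).eval r ≠ 0 := by
        intro h0
        have h1 := cop_eval hco r h0
        apply h1
        rw [hN, eval_sub, eval_mul, h0, mul_zero, sub_zero] at hr
        exact hr
      have h2 : po (some r) (X * p ^ 2) = 0 := by
        simp only [po]
        rw [rootMultiplicity_eq_zero hAr]; rfl
      have h3 : 0 < N.rootMultiplicity r := (rootMultiplicity_pos hN0).2 hr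
      have h4 : po (some r) N = N.rootMultiplicity r := rfl
      rw [h2, h4, sub_zero] at h
      cases y with
      | none =>
        rw [lin_none] at h
        omega
      | some a =>
        by_cases hac : c = a
        · subst hac
          rw [lin_some_self, mul_one] at h
          have h5 : N.rootMultiplicity r = e' := by exact_mod_cast h
          rw [h5]; exact H'
        · rw [lin_some_ne hac] at h; omega
    refine ⟨c, hc, rfl, hN0, ?_, ?_⟩
    · have hroot : N.eval c = 0 := by
        by_contra h0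
        have h := (at_div hA H c).2
        rw [← hN, lin_some_self] at h
        have h1 : po (some c) N = 0 := by
          simp only [po]
          rw [rootMultiplicity_eq_zero h0]; rfl
        have h2 : 0 ≤ po (some c) (X * p ^ 2) := by simp only [po]; positivity
        have := H.1
        omega
      have := (At_unique H (key c hroot)).2
      rw [← this]; exact he
    · intro r hr
      by_cases h0 : N.eval r = 0
      · exact hall (some r) _ (by simpa using hr) (key r h0)
      · rw [rootMultiplicity_eq_zero h0]; exact Even.zero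

end

end

end Pool.Agent.H64.MG
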