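import Pool.Agent.H64.MS.I2
import Pool.Agent.H64.MS.G7
import Pool.Agent.H40.MS.Ev
import Pool.Agent.H24.MS.Sq

set_option autoImplicit false

/-!
`f` and `1 / f` are not elementarily equivalent.
-/

open Polynomial
open Pool.Agent.H884R3.Ms (mu ι ι_ne bridge deg_div SameSpectrum Conjugate deg_comp deg_comp_const
  ElemEquivalent)
open Pool.Agent.Helper881.Gp

namespace Pool.Agent.H64.MG

noncomputable section

section

variable (k m j : ℕ) (g : ℕ → ℂ)

theorem not_elem (hk : Odd k) (hm : Even m) (hm0 : 0 < m) (hj : 1 ≤ j) (hg : Good k m j g) :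
    ¬ ElemEquivalent (fR k m j g) (gR k m j g) := by
  have hk0 : 0 < k := hk.pos
  intro h
  obtain ⟨p, hp⟩ := A_form k m j g 1
  obtain ⟨q, hq⟩ := B_form k m j g 1
  have hco := AB_coprime k m j g hk0 hm0 hg 1
  obtain ⟨d1, d2⟩ := AB_degree k m j g hk hm hg 1 le_rfl
  have hA0 := An_ne k m j g hk hm hg 1 le_rfl
  have hB0 := Bn_ne k m j g hg 1
  have hdf := (deg_fR k m j g hk hm hm0 hg).1
  have hodd : Odd (deg (fR k m j g)) := by
    rw [hdf]
    exact hk.add_even (hm.mul_right j)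
  unfold fR gR at h
  unfold fR at hodd hdf
  rw [hp, hq] at h hodd hdf hco
  rw [hp] at d1 hA0
  rw [hq] at d2 hB0
  have hp0 : p ≠ 0 := by rintro rfl; simp at hA0
  have hq0 : q ≠ 0 := by rintro rfl; simp at hB0
  rw [pow_one] at d1 d2
  have hdeg : (q ^ 2).natDegree < (X * p ^ 2).natDegree := by omega
  have hpos := deg_f_pos p q hp0 hq0 hco hdeg
  obtain ⟨⟨x, y, hxy, hx, hy⟩, -, -⟩ := inv2_equiv Pool.Agent.H40.MS.deg_even_of hpos hodd h
    (inv2_f p q hp0 hq0 hco hdeg)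
  obtain ⟨c, hc, rfl, n1, o1, e1⟩ := sp_g p q hp0 hq0 hco hdeg x hx
  obtain ⟨c', hc', rfl, n2, o2, e2⟩ := sp_g p q hp0 hq0 hco hdeg y hy
  obtain ⟨κ, R, hκ, hR⟩ := Pool.Agent.H24.MS.sq_of_even _ n1 c o1 e1
  obtain ⟨κ', R', hκ', hR'⟩ := Pool.Agent.H24.MS.sq_of_even _ n2 c' o2 e2
  have hpd : 2 * p.natDegree + 1 = k + m * j := by
    rw [← d1, natDegree_mul X_ne_zero (pow_ne_zero 2 hp0), natDegree_X, natDegree_pow]
    ring
  have hqd : q.natDegree + 1 ≤ p.natDegree := by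
    rw [natDegree_pow] at d2
    omega
  exact Pool.Agent.H24.MS.rh_gen p q R R' p.natDegree rfl hqd hco c c' κ κ'
    (by rintro rfl; exact hxy rfl) hc hc' hκ hκ' hR hR'

end

end

end Pool.Agent.H64.MG
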