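import Pool.Graph.R_seed8.H884R3.MsLattes

set_option autoImplicit false

open Polynomial Filter Topology
open Pool.Agent.Helper881.Gp
open Pool.Agent.H884R3.Ms

namespace Pool.Agent.H64.MG

noncomputable section

lemma order_prod (θ : ℂ → ℂ) (x : ℂ) (k : ℤ) (hθ : MeromorphicAt θ x) (hk : k < 0)
    (ho : meromorphicOrderAt θ x = (k : WithTop ℤ)) (s : Multiset ℂ) :
    MeromorphicAt (fun z => (s.map (fun r => θ z - r)).prod) x ∧
    meromorphicOrderAt (fun z => (s.map (fun r => θ z - r)).prod) x =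
      ((Multiset.card s * k : ℤ) : WithTop ℤ) := by
  induction s using Multiset.induction_on with
  | empty =>
    simp only [Multiset.map_zero, Multiset.prod_zero, Multiset.card_zero, Nat.cast_zero, zero_mul]
    refine ⟨MeromorphicAt.const _ x, ?_⟩
    have : meromorphicOrderAt (fun _ : ℂ => (1 : ℂ)) x = 0 := by
      rw [AnalyticAt.meromorphicOrderAt_eq analyticAt_const]
      have : analyticOrderAt (fun _ : ℂ => (1 : ℂ)) x = 0 := by
        rw [AnalyticAt.analyticOrderAt_eq_zero analyticAt_const]; exact one_ne_zero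
      rw [this]; rfl
    rw [this]; rfl
  | cons r s ih =>
    obtain ⟨h1, h2⟩ := ih
    have hk' : (k : WithTop ℤ) < 0 := by exact_mod_cast hk
    have hconst : (0 : WithTop ℤ) ≤ meromorphicOrderAt (fun _ : ℂ => -r) x :=
      AnalyticAt.meromorphicOrderAt_nonneg analyticAt_const
    have h3 : meromorphicOrderAt (fun z => θ z - r) x = (k : WithTop ℤ) := by
      have h := meromorphicOrderAt_add_eq_left_of_lt (f₁ := θ) (f₂ := fun _ : ℂ => -r)
        (MeromorphicAt.const _ x) (by rw [ho]; exact lt_of_lt_of_le hk' hconst)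
      have e : θ + (fun _ : ℂ => -r) = fun z => θ z - r := by
        funext z; simp [sub_eq_add_neg]
      rw [← e, h, ho]
    have m1 : MeromorphicAt (fun z => θ z - r) x := hθ.sub (MeromorphicAt.const _ x)
    have e : (fun z => ((r ::ₘ s).map (fun r => θ z - r)).prod) =
        (fun z => θ z - r) * (fun z => (s.map (fun r => θ z - r)).prod) := by
      funext z
      simp
    rw [e]
    refine ⟨m1.mul h1, ?_⟩
    rw [meromorphicOrderAt_mul m1 h1, h3, h2]
    rw [← WithTop.coe_add]
    congr 1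
    rw [Multiset.card_cons]
    push_cast
    ring

lemma order_poly (θ : ℂ → ℂ) (x : ℂ) (k : ℤ) (hθ : MeromorphicAt θ x) (hk : k < 0)
    (ho : meromorphicOrderAt θ x = (k : WithTop ℤ)) (P : ℂ[X]) (hP : P ≠ 0) :
    MeromorphicAt (fun z => P.eval (θ z)) x ∧
    meromorphicOrderAt (fun z => P.eval (θ z)) x = ((P.natDegree * k : ℤ) : WithTop ℤ) := by
  obtain ⟨h1, h2⟩ := order_prod θ x k hθ hk ho P.roots
  have hcard : Multiset.card P.roots = P.natDegree :=
    splits_iff_card_roots.mp (IsAlgClosed.splits P)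
  have e : (fun z => P.eval (θ z)) =
      (fun _ : ℂ => P.leadingCoeff) * (fun z => (P.roots.map (fun r => θ z - r)).prod) := by
    funext z
    rw [(IsAlgClosed.splits P).eval_eq_prod_roots]
    rfl
  rw [e]
  refine ⟨(MeromorphicAt.const _ x).mul h1, ?_⟩
  rw [meromorphicOrderAt_mul_of_ne_zero analyticAt_const (leadingCoeff_ne_zero.mpr hP), h2, hcard]

lemma eval_div' (A B : ℂ[X]) (hAB : IsCoprime A B) (hB : B ≠ 0) (w : ℂ) :
    RatFunc.eval (RingHom.id ℂ) w (ι A / ι B) = A.eval w / B.eval w := by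
  obtain ⟨c, hc0, hn, hd⟩ := bridge _ _ hAB hB
  unfold RatFunc.eval
  rw [hn, hd, eval₂_id, eval₂_id, eval_mul, eval_mul, eval_C, mul_div_mul_left _ _ hc0]

theorem not_lattes_of_degrees (A B : ℂ[X]) (hAB : IsCoprime A B) (hB : B ≠ 0)
    (hd : B.natDegree + 2 ≤ A.natDegree) : ¬ Lattes (ι A / ι B) := by
  rintro ⟨ω₁, ω₂, a, b, θ, hω, -, hθ, hper, hnc, hfe⟩
  obtain ⟨M, hM⟩ := order_bound θ ω₁ ω₂ hω hθ hper
  obtain ⟨z0, hz0⟩ := exists_pole θ ω₁ ω₂ hω hθ hper hnc
  have hA : A ≠ 0 := by
    rintro rfl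
    rw [natDegree_zero] at hd
    omega
  -- one step
  have hstep : ∀ z : ℂ, ∀ k : ℤ, k < 0 → meromorphicOrderAt θ z = (k : WithTop ℤ) →
      meromorphicOrderAt θ (a * z + b) =
        (((A.natDegree : ℤ) - B.natDegree) * k : ℤ) := by
    intro z k hk ho
    obtain ⟨mA, oA⟩ := order_poly θ z k (hθ z (Set.mem_univ z)) hk ho A hA
    obtain ⟨mB, oB⟩ := order_poly θ z k (hθ z (Set.mem_univ z)) hk ho B hB
    have h1 : meromorphicOrderAt (fun y => A.eval (θ y) / B.eval (θ y)) z =
        (((A.natDegree : ℤ) - B.natDegree) * k : ℤ) := by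
      have e : (fun y => A.eval (θ y) / B.eval (θ y)) =
          (fun y => A.eval (θ y)) * (fun y => B.eval (θ y))⁻¹ := by
        funext y
        simp [div_eq_mul_inv]
      rw [e, meromorphicOrderAt_mul mA mB.inv, meromorphicOrderAt_inv, oA, oB]
      have : (((A.natDegree * k : ℤ) : WithTop ℤ)) + -(((B.natDegree * k : ℤ) : WithTop ℤ)) =
          (((A.natDegree * k) + -(B.natDegree * k) : ℤ) : WithTop ℤ) := by
        norm_cast
      rw [this]
      congr 1
      ring
    have h2 : meromorphicOrderAt (θ ∘ (fun y => a * y + b)) z =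
        (((A.natDegree : ℤ) - B.natDegree) * k : ℤ) := by
      rw [← h1]
      apply meromorphicOrderAt_congr
      filter_upwards [codiscrete_nhdsNE hfe z] with y hy
      show θ (a * y + b) = _
      rw [← hy, eval_div' A B hAB hB]
    have hneg : ((A.natDegree : ℤ) - B.natDegree) * k < 0 :=
      mul_neg_of_pos_of_neg (by omega) hk
    have ha : a ≠ 0 := by
      rintro rfl
      have e : (θ ∘ (fun y : ℂ => (0 : ℂ) * y + b)) = fun _ => θ b := by
        funext y; simp
      rw [e] at h2
      have h3 : (0 : WithTop ℤ) ≤ meromorphicOrderAt (fun _ : ℂ => θ b) z :=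
        AnalyticAt.meromorphicOrderAt_nonneg analyticAt_const
      rw [h2] at h3
      have h4 : (0 : ℤ) ≤ ((A.natDegree : ℤ) - B.natDegree) * k := by exact_mod_cast h3
      omega
    have h3 : AnalyticAt ℂ (fun y : ℂ => a * y + b) z := by fun_prop
    have h4 : deriv (fun y : ℂ => a * y + b) z ≠ 0 := by
      have : HasDerivAt (fun y : ℂ => a * y + b) a z := by
        simpa using ((hasDerivAt_id z).const_mul a).add_const b
      rw [this.deriv]; exact ha
    rw [meromorphicOrderAt_comp_of_deriv_ne_zero h3 h4] at h2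
    exact h2
  -- iterate
  have hiter : ∀ n : ℕ, ∃ z : ℂ, ∃ k : ℤ, k ≤ -(n + 1 : ℤ) ∧
      meromorphicOrderAt θ z = (k : WithTop ℤ) := by
    intro n
    induction n with
    | zero =>
      cases h : meromorphicOrderAt θ z0 with
      | top => rw [h] at hz0; exact absurd hz0 (by simp)
      | coe k =>
        refine ⟨z0, k, ?_, h⟩
        rw [h] at hz0
        have : k < 0 := by exact_mod_cast hz0
        push_cast
        omega
    | succ n ih =>
      obtain ⟨z, k, hk, ho⟩ := ih
      refine ⟨a * z + b, ((A.natDegree : ℤ) - B.natDegree) * k, ?_, hstep z k (by omega) ho⟩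
      push_cast
      have h2 : (2 : ℤ) ≤ (A.natDegree : ℤ) - B.natDegree := by omega
      nlinarith
  obtain ⟨z, k, hk, ho⟩ := hiter (M.natAbs)
  have h1 := hM z
  rw [ho] at h1
  have h2 : M ≤ k := by exact_mod_cast h1
  omega

end

end Pool.Agent.H64.MG
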