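import Pool.Agent.H64.MS.La

set_option autoImplicit false

open Polynomial Filter Topology
open Pool.Agent.Helper881.Gp
open Pool.Agent.H884R3.Ms

namespace Pool.Agent.H64.MG

noncomputable section

lemma order_one (x : ℂ) (c : ℂ) (hc : c ≠ 0) : meromorphicOrderAt (fun _ : ℂ => c) x = 0 := by
  rw [AnalyticAt.meromorphicOrderAt_eq analyticAt_const]
  have : analyticOrderAt (fun _ : ℂ => c) x = 0 := by
    rw [AnalyticAt.analyticOrderAt_eq_zero analyticAt_const]; exact hc
  rw [this]; rfl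

lemma order_prod0 (θ : ℂ → ℂ) (x : ℂ) (k : ℤ) (hθ : MeromorphicAt θ x) (hk : 0 < k)
    (ho : meromorphicOrderAt θ x = (k : WithTop ℤ)) (s : Multiset ℂ) :
    MeromorphicAt (fun z => (s.map (fun r => θ z - r)).prod) x ∧
    meromorphicOrderAt (fun z => (s.map (fun r => θ z - r)).prod) x =
      ((s.count 0 * k : ℤ) : WithTop ℤ) := by
  induction s using Multiset.induction_on with
  | empty =>
    simp only [Multiset.map_zero, Multiset.prod_zero, Multiset.count_zero, Nat.cast_zero, zero_mul]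
    refine ⟨MeromorphicAt.const _ x, ?_⟩
    rw [order_one x 1 one_ne_zero]; rfl
  | cons r s ih =>
    obtain ⟨h1, h2⟩ := ih
    have hk' : (0 : WithTop ℤ) < (k : WithTop ℤ) := by exact_mod_cast hk
    have m1 : MeromorphicAt (fun z => θ z - r) x := hθ.sub (MeromorphicAt.const _ x)
    have e : (fun z => ((r ::ₘ s).map (fun r => θ z - r)).prod) =
        (fun z => θ z - r) * (fun z => (s.map (fun r => θ z - r)).prod) := by
      funext z
      simp
    rw [e]
    refine ⟨m1.mul h1, ?_⟩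
    rw [meromorphicOrderAt_mul m1 h1, h2]
    rcases eq_or_ne r 0 with rfl | hr
    · have h3 : (fun z => θ z - 0) = θ := by funext z; rw [sub_zero]
      rw [h3, ho, ← WithTop.coe_add, Multiset.count_cons_self]
      congr 1
      push_cast
      ring
    · have h3 : meromorphicOrderAt (fun z => θ z - r) x = 0 := by
        have h := meromorphicOrderAt_add_eq_right_of_lt (f₁ := θ) (f₂ := fun _ : ℂ => -r)
          hθ (by rw [order_one x (-r) (neg_ne_zero.mpr hr), ho]; exact hk')
        have e : θ + (fun _ : ℂ => -r) = fun z => θ z - r := by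
          funext z; simp [sub_eq_add_neg]
        rw [← e, h, order_one x (-r) (neg_ne_zero.mpr hr)]
      rw [h3, zero_add, Multiset.count_cons_of_ne hr.symm]

lemma order_poly0 (θ : ℂ → ℂ) (x : ℂ) (k : ℤ) (hθ : MeromorphicAt θ x) (hk : 0 < k)
    (ho : meromorphicOrderAt θ x = (k : WithTop ℤ)) (P : ℂ[X]) (hP : P ≠ 0) :
    MeromorphicAt (fun z => P.eval (θ z)) x ∧
    meromorphicOrderAt (fun z => P.eval (θ z)) x =
      ((P.rootMultiplicity 0 * k : ℤ) : WithTop ℤ) := by
  obtain ⟨h1, h2⟩ := order_prod0 θ x k hθ hk ho P.roots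
  rw [count_roots] at h2
  have e : (fun z => P.eval (θ z)) =
      (fun _ : ℂ => P.leadingCoeff) * (fun z => (P.roots.map (fun r => θ z - r)).prod) := by
    funext z
    rw [(IsAlgClosed.splits P).eval_eq_prod_roots]
    rfl
  rw [e]
  refine ⟨(MeromorphicAt.const _ x).mul h1, ?_⟩
  rw [meromorphicOrderAt_mul_of_ne_zero analyticAt_const (leadingCoeff_ne_zero.mpr hP), h2]

/-- transport of orders along `F ∘ θ = θ ∘ (a z + b)` -/
lemma step_gen (A B : ℂ[X]) (hAB : IsCoprime A B) (hB : B ≠ 0) (a b : ℂ) (θ : ℂ → ℂ)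
    (hfe : ∀ᶠ z in codiscrete ℂ, RatFunc.eval (RingHom.id ℂ) (θ z) (ι A / ι B) = θ (a * z + b))
    (z : ℂ) (u v : ℤ) (huv : u - v ≠ 0)
    (hA : MeromorphicAt (fun y => A.eval (θ y)) z ∧
      meromorphicOrderAt (fun y => A.eval (θ y)) z = (u : WithTop ℤ))
    (hB' : MeromorphicAt (fun y => B.eval (θ y)) z ∧
      meromorphicOrderAt (fun y => B.eval (θ y)) z = (v : WithTop ℤ)) :
    meromorphicOrderAt θ (a * z + b) = ((u - v : ℤ) : WithTop ℤ) := by
  obtain ⟨mA, oA⟩ := hA
  obtain ⟨mB, oB⟩ := hB'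
  have h1 : meromorphicOrderAt (fun y => A.eval (θ y) / B.eval (θ y)) z =
      ((u - v : ℤ) : WithTop ℤ) := by
    have e : (fun y => A.eval (θ y) / B.eval (θ y)) =
        (fun y => A.eval (θ y)) * (fun y => B.eval (θ y))⁻¹ := by
      funext y
      simp [div_eq_mul_inv]
    rw [e, meromorphicOrderAt_mul mA mB.inv, meromorphicOrderAt_inv, oA, oB]
    have : (((u : ℤ) : WithTop ℤ)) + -(((v : ℤ) : WithTop ℤ)) = ((u + -v : ℤ) : WithTop ℤ) := by
      norm_cast
    rw [this]
    congr 1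
  have h2 : meromorphicOrderAt (θ ∘ (fun y => a * y + b)) z = ((u - v : ℤ) : WithTop ℤ) := by
    rw [← h1]
    apply meromorphicOrderAt_congr
    filter_upwards [codiscrete_nhdsNE hfe z] with y hy
    show θ (a * y + b) = _
    rw [← hy, eval_div' A B hAB hB]
  have ha : a ≠ 0 := by
    rintro rfl
    have e : (θ ∘ (fun y : ℂ => (0 : ℂ) * y + b)) = fun _ => θ b := by
      funext y; simp
    rw [e] at h2
    rcases eq_or_ne (θ b) 0 with h0 | h0
    · rw [h0] at h2
      have h3 : meromorphicOrderAt (fun _ : ℂ => (0 : ℂ)) z = ⊤ := by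
        rw [meromorphicOrderAt_eq_top_iff]; simp
      rw [h3] at h2
      exact absurd h2.symm WithTop.coe_ne_top
    · rw [order_one z _ h0] at h2
      apply huv
      have : ((0 : ℤ) : WithTop ℤ) = ((u - v : ℤ) : WithTop ℤ) := h2
      exact (WithTop.coe_injective this).symm
  have h3 : AnalyticAt ℂ (fun y : ℂ => a * y + b) z := by fun_prop
  have h4 : deriv (fun y : ℂ => a * y + b) z ≠ 0 := by
    have : HasDerivAt (fun y : ℂ => a * y + b) a z := by
      simpa using ((hasDerivAt_id z).const_mul a).add_const b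
    rw [this.deriv]; exact ha
  rw [meromorphicOrderAt_comp_of_deriv_ne_zero h3 h4] at h2
  exact h2

/-- the map `B / A` exchanges the two critical points `0` and `∞` -/
theorem not_lattes_inv (A B : ℂ[X]) (hAB : IsCoprime A B) (hA : A ≠ 0)
    (hd : B.natDegree + 2 ≤ A.natDegree) (h0 : A.eval 0 = 0) (h0' : (derivative A).eval 0 = 0) :
    ¬ Lattes (ι B / ι A) := by
  rintro ⟨ω₁, ω₂, a, b, θ, hω, -, hθ, hper, hnc, hfe⟩
  obtain ⟨M, hM⟩ := order_bound θ ω₁ ω₂ hω hθ hper
  obtain ⟨z0, hz0⟩ := exists_pole θ ω₁ ω₂ hω hθ hper hnc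
  have hB0 : B.eval 0 ≠ 0 := by
    intro h
    obtain ⟨u, v, huv⟩ := hAB
    have := congrArg (eval 0) huv
    rw [eval_add, eval_mul, eval_mul, h0, h, eval_one] at this
    norm_num at this
  have hB : B ≠ 0 := by rintro rfl; simp at hB0
  have hrA : 2 ≤ A.rootMultiplicity 0 :=
    (one_lt_rootMultiplicity_iff_isRoot hA).2 ⟨h0, h0'⟩
  have hrB : B.rootMultiplicity 0 = 0 := rootMultiplicity_eq_zero hB0
  -- two steps
  have hstep : ∀ z : ℂ, ∀ k : ℤ, k < 0 → meromorphicOrderAt θ z = (k : WithTop ℤ) →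
      ∃ (z' : ℂ) (k' : ℤ), k' ≤ 2 * k ∧ meromorphicOrderAt θ z' = (k' : WithTop ℤ) := by
    intro z k hk ho
    have o1 := order_poly θ z k (hθ z (Set.mem_univ z)) hk ho A hA
    have o2 := order_poly θ z k (hθ z (Set.mem_univ z)) hk ho B hB
    have hpos : 0 < (B.natDegree * k : ℤ) - A.natDegree * k := by
      have h1 : (B.natDegree : ℤ) - A.natDegree < 0 := by omega
      have h2 := mul_pos_of_neg_of_neg h1 hk
      linarith
    have s1 := step_gen B A hAB.symm hA a b θ hfe z _ _ hpos.ne' o2 o1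
    set y := a * z + b with hy
    set N : ℤ := (B.natDegree * k : ℤ) - A.natDegree * k with hN
    have o3 := order_poly0 θ y N (hθ y (Set.mem_univ y)) hpos s1 A hA
    have o4 := order_poly0 θ y N (hθ y (Set.mem_univ y)) hpos s1 B hB
    rw [hrB] at o4
    have hneg : ((0 : ℕ) * N : ℤ) - A.rootMultiplicity 0 * N < 0 := by
      have h1 : (0 : ℤ) < A.rootMultiplicity 0 := by omega
      have h2 := mul_pos h1 hpos
      push_cast
      linarith
    have s2 := step_gen B A hAB.symm hA a b θ hfe y _ _ hneg.ne o4 o3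
    refine ⟨_, _, ?_, s2⟩
    have h1 : (2 : ℤ) ≤ A.rootMultiplicity 0 := by exact_mod_cast hrA
    have h2 : (1 : ℤ) ≤ (A.natDegree : ℤ) - B.natDegree := by omega
    have h3 : -k ≤ N := by rw [hN]; nlinarith
    push_cast
    nlinarith
  have hiter : ∀ n : ℕ, ∃ z : ℂ, ∃ k : ℤ, k ≤ -(n + 1 : ℤ) ∧
      meromorphicOrderAt θ z = (k : WithTop ℤ) := by
    intro n
    induction n with
    | zero =>
      cases h : meromorphicOrderAt θ z0 with
      | top => rw [h] at hz0; exact absurd hz0 (by simp)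
      | coe k =>
        refine ⟨z0, k, ?_, h⟩
        rw [h] at hz0
        have : k < 0 := by exact_mod_cast hz0
        push_cast
        omega
    | succ n ih =>
      obtain ⟨z, k, hk, ho⟩ := ih
      obtain ⟨z', k', hk', ho'⟩ := hstep z k (by omega) ho
      refine ⟨z', k', ?_, ho'⟩
      push_cast
      omega
  obtain ⟨z, k, hk, ho⟩ := hiter (M.natAbs)
  have h1 := hM z
  rw [ho] at h1
  have h2 : M ≤ k := by exact_mod_cast h1
  omega

end

end Pool.Agent.H64.MG
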