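import Pool.Agent.H62.MS.Zeta

set_option autoImplicit false

namespace Pool.Agent.H64.MG

open Pool.Agent.H62.MS (not_two_pow_dvd)

theorem exists_split2 (p : ℕ) (hp : p.Prime) (h1 : ∀ a : ℕ, p ≠ 2 ^ a + 1)
    (h2 : ∀ a : ℕ, p + 1 ≠ 2 ^ a) (h3 : ∀ a : ℕ, p ≠ 3 * 2 ^ a + 1)
    (h4 : ∀ a : ℕ, p + 1 ≠ 3 * 2 ^ a) :
    ∃ a k j : ℕ, 1 ≤ a ∧ 2 ≤ j ∧ p = k + 2 ^ a * j ∧ Odd k ∧ ¬ 2 ^ a ∣ k - 1 ∧
      ¬ 2 ^ a ∣ k + 1 := by
  have hp2 : p ≠ 2 := by
    have := h1 0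
    simpa using this
  have hp3 : 3 ≤ p := by
    have := hp.two_le
    omega
  have hodd : Odd p := hp.odd_of_ne_two hp2
  obtain ⟨b, c, hc, hbc⟩ := Nat.exists_eq_two_pow_mul_odd (n := p - 1) (by omega)
  obtain ⟨b', c', hc', hbc'⟩ := Nat.exists_eq_two_pow_mul_odd (n := p + 1) (by omega)
  have hc1 : c ≠ 1 := by
    rintro rfl
    exact h1 b (by omega)
  have hc1' : c' ≠ 1 := by
    rintro rfl
    exact h2 b' (by omega)
  have hc2 : c ≠ 3 := by
    rintro rfl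
    exact h3 b (by omega)
  have hc2' : c' ≠ 3 := by
    rintro rfl
    exact h4 b' (by omega)
  have hc5 : 5 ≤ c := by
    obtain ⟨m, hm⟩ := hc
    omega
  have hc5' : 5 ≤ c' := by
    obtain ⟨m, hm⟩ := hc'
    omega
  have hb' : b' ≠ 0 := by
    rintro rfl
    rw [pow_zero, one_mul] at hbc'
    rw [← hbc'] at hc'
    obtain ⟨s, hs⟩ := hodd
    obtain ⟨t, ht⟩ := hc'
    omega
  have hlt : 2 * 2 ^ (b + 1) < p := by
    have : 2 ^ b * 5 ≤ 2 ^ b * c := Nat.mul_le_mul_left _ hc5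
    rw [pow_succ]
    have : 0 < 2 ^ b := by positivity
    omega
  have hlt' : 2 * 2 ^ (b' + 1) < p := by
    have : 2 ^ b' * 5 ≤ 2 ^ b' * c' := Nat.mul_le_mul_left _ hc5'
    rw [pow_succ]
    have h5 : 2 ≤ 2 ^ b' := by
      calc 2 = 2 ^ 1 := by norm_num
        _ ≤ 2 ^ b' := Nat.pow_le_pow_right (by norm_num) (by omega)
    omega
  have hmax : 2 * 2 ^ (max b b' + 1) < p := by
    rcases le_total b b' with h | h
    · rw [max_eq_right h]; exact hlt'
    · rw [max_eq_left h]; exact hlt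
  have e1 : Even (2 ^ (max b b' + 1)) := ⟨2 ^ max b b', by rw [pow_succ]; ring⟩
  set M := 2 ^ (max b b' + 1) with hM
  have hM0 : 0 < M := by positivity
  have hdiv := Nat.mod_add_div p M
  have hk : Odd (p % M) := by
    rw [← hdiv, Nat.odd_add] at hodd
    exact hodd.2 (e1.mul_right _)
  refine ⟨max b b' + 1, p % M, p / M, by omega, ?_, hdiv.symm, hk, ?_, ?_⟩
  · rw [Nat.le_div_iff_mul_le hM0]; omega
  · intro hd
    have h5 : M ∣ p - 1 := by
      have h6 := Nat.dvd_add hd (dvd_mul_right M (p / M))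
      have h7 : p % M - 1 + M * (p / M) = p - 1 := by
        have := hk.pos
        omega
      rwa [h7] at h6
    exact not_two_pow_dvd hc hbc (by have := le_max_left b b'; omega) h5
  · intro hd
    have h5 : M ∣ p + 1 := by
      have h6 := Nat.dvd_add hd (dvd_mul_right M (p / M))
      have h7 : p % M + 1 + M * (p / M) = p + 1 := by omega
      rwa [h7] at h6
    exact not_two_pow_dvd hc' hbc' (by have := le_max_right b b'; omega) h5

end Pool.Agent.H64.MG
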