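import Pool.Agent.H62.MS.Zeta

set_option autoImplicit false

namespace Pool.Agent.H64.MG

open Pool.Agent.H62.MS (not_two_pow_dvd)

theorem exists_split1 (p : ℕ) (hodd : Odd p) (h1 : ∀ a : ℕ, p ≠ 2 ^ a + 1)
    (h2 : ∀ a : ℕ, p + 1 ≠ 2 ^ a) :
    ∃ a k : ℕ, 1 ≤ a ∧ p = k + 2 ^ a ∧ Odd k ∧ ¬ 2 ^ a ∣ k - 1 ∧ ¬ 2 ^ a ∣ k + 1 := by
  have hp3 : 3 ≤ p := by
    have h5 := h2 1
    obtain ⟨u, hu⟩ := hodd
    omega
  obtain ⟨b, c, hc, hbc⟩ := Nat.exists_eq_two_pow_mul_odd (n := p - 1) (by omega)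
  obtain ⟨b', c', hc', hbc'⟩ := Nat.exists_eq_two_pow_mul_odd (n := p + 1) (by omega)
  have hc1 : c ≠ 1 := by
    rintro rfl
    exact h1 b (by omega)
  have hc1' : c' ≠ 1 := by
    rintro rfl
    exact h2 b' (by omega)
  have hc3 : 3 ≤ c := by
    obtain ⟨m, hm⟩ := hc
    omega
  have hc3' : 3 ≤ c' := by
    obtain ⟨m, hm⟩ := hc'
    omega
  have hlt : 2 ^ (b + 1) < p := by
    have : 2 ^ b * 3 ≤ 2 ^ b * c := Nat.mul_le_mul_left _ hc3
    rw [pow_succ]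
    have : 0 < 2 ^ b := by positivity
    omega
  have hlt' : 2 ^ (b' + 1) < p := by
    have : 2 ^ b' * 3 ≤ 2 ^ b' * c' := Nat.mul_le_mul_left _ hc3'
    rw [pow_succ]
    have : 0 < 2 ^ b' := by positivity
    omega
  have hmax : 2 ^ (max b b' + 1) < p := by
    rcases le_total b b' with h | h
    · rw [max_eq_right h]; exact hlt'
    · rw [max_eq_left h]; exact hlt
  have e1 : Even (2 ^ (max b b' + 1)) := ⟨2 ^ max b b', by rw [pow_succ]; ring⟩
  refine ⟨max b b' + 1, p - 2 ^ (max b b' + 1), by omega, by omega, ?_, ?_, ?_⟩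
  · rw [Nat.odd_sub hmax.le]
    simp [hodd, e1]
  · intro hd
    have h3 : 2 ^ (max b b' + 1) ∣ p - 1 := by
      have h4 := Nat.dvd_add hd (dvd_refl (2 ^ (max b b' + 1)))
      have h5 : p - 2 ^ (max b b' + 1) - 1 + 2 ^ (max b b' + 1) = p - 1 := by omega
      rwa [h5] at h4
    exact not_two_pow_dvd hc hbc (by have := le_max_left b b'; omega) h3
  · intro hd
    have h3 : 2 ^ (max b b' + 1) ∣ p + 1 := by
      have h4 := Nat.dvd_add hd (dvd_refl (2 ^ (max b b' + 1)))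
      have h5 : p - 2 ^ (max b b' + 1) + 1 + 2 ^ (max b b' + 1) = p + 1 := by omega
      rwa [h5] at h4
    exact not_two_pow_dvd hc' hbc' (by have := le_max_right b b'; omega) h3

end Pool.Agent.H64.MG
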